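import Mathlib

/-!
Definitions for the Gaussian surface area of periodic sets.
-/

open MeasureTheory
open scoped RealInnerProductSpace ContDiff

namespace Pool.Agent.H122Z.Area

/-- Euclidean space of dimension `n`. -/
abbrev E (n : ℕ) : Type := EuclideanSpace ℝ (Fin n)

/-- `Ω + v_i = Ωᶜ` for every standard basis vector `v_i` and `-Ω = Ωᶜ`, at all points off the
boundary of `Ω` (no set satisfies the last equation at the origin). -/
def IsPeriodic {n : ℕ} (Ω : Set (E n)) : Prop :=
  ∀ x : E n, x ∉ frontier Ω →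
    (∀ i : Fin n, (x - EuclideanSpace.single i (1 : ℝ) ∈ Ω ↔ x ∉ Ω)) ∧ (-x ∈ Ω ↔ x ∉ Ω)

/-- near each of its points the boundary of `Ω` is the graph of a smooth function over a
hyperplane: with `N` a unit normal of the hyperplane and `g` smooth and constant along `N`, the
boundary is the set where the `N` coordinate equals `g`. -/
def SmoothBoundary {n : ℕ} (Ω : Set (E n)) : Prop :=
  ∀ x ∈ frontier Ω, ∃ (N : E n) (g : E n → ℝ) (U : Set (E n)),
    ‖N‖ = 1 ∧ ContDiff ℝ ∞ g ∧ (∀ (y : E n) (t : ℝ), g (y + t • N) = g y) ∧ IsOpen U ∧ x ∈ U ∧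
      ∀ y ∈ U, (y ∈ frontier Ω ↔ ⟪N, y⟫ = g y)

/-- the periodic half space with signs `ε` -/
def halfSpace {n : ℕ} (ε : Fin n → ℝ) : Set (E n) :=
  {x | 0 ≤ Real.sin (Real.pi * ∑ i, ε i * x i)}

/-- the standard Gaussian density -/
noncomputable def gauss {n : ℕ} (x : E n) : ℝ :=
  (2 * Real.pi) ^ (-(n : ℝ) / 2) * Real.exp (-‖x‖ ^ 2 / 2)

/-- Gaussian surface area: the integral of the Gaussian density over the boundary with respect to
the `(n - 1)`-dimensional Hausdorff measure (normalised to agree with Lebesgue measure on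
hyperplanes) -/
noncomputable def area {n : ℕ} (Ω : Set (E n)) : ENNReal :=
  ∫⁻ x in frontier Ω, ENNReal.ofReal (gauss x) ∂(Measure.euclideanHausdorffMeasure (n - 1))

end Pool.Agent.H122Z.Area
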