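import Pool.Agent.H122Z.Sq
import Pool.Agent.H122Z.AreaDefs

/-!
Geometry of the perturbed periodic half space in dimension four.
-/

open MeasureTheory Real Filter Topology Set
open scoped NNReal RealInnerProductSpace ContDiff

namespace Pool.Agent.H122Z.Area

lemma frontier_one : frontier {t : ℝ | 0 ≤ sin (π * t)} = range (Int.cast : ℤ → ℝ) := by
  apply Subset.antisymm
  · intro t ht
    have h := frontier_le_subset_eq (f := fun _ : ℝ => (0:ℝ)) (g := fun t => sin (π * t))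
      continuous_const (by fun_prop) ht
    simp only [mem_ofPred_eq] at h
    obtain ⟨n, hn⟩ := Real.sin_eq_zero_iff.1 h.symm
    refine ⟨n, ?_⟩
    have := pi_pos
    nlinarith
  · rintro _ ⟨m, rfl⟩
    have hcl : IsClosed {t : ℝ | 0 ≤ sin (π * t)} := isClosed_le continuous_const (by fun_prop)
    rw [hcl.frontier_eq]
    refine ⟨by simp [mul_comm π, Real.sin_int_mul_pi], fun h => ?_⟩
    rw [mem_interior_iff_mem_nhds, Metric.mem_nhds_iff] at h
    obtain ⟨ε, hε, h⟩ := h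
    set e := min (ε / 2) (1 / 2) with he
    have he0 : 0 < e := by positivity
    have he1 : e < ε := (min_le_left _ _).trans_lt (by linarith)
    have he2 : e < 1 := (min_le_right _ _).trans_lt (by norm_num)
    have hs : 0 < sin (π * e) := sin_pos_of_pos_of_lt_pi (by positivity) (by nlinarith [pi_pos])
    have h1 : (m : ℝ) + e ∈ {t : ℝ | 0 ≤ sin (π * t)} :=
      h (by simp [abs_of_pos he0, he1])
    have h2 : (m : ℝ) - e ∈ {t : ℝ | 0 ≤ sin (π * t)} :=
      h (by simp [abs_of_pos he0, he1])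
    simp only [mem_ofPred_eq] at h1 h2
    rw [show π * (m + e) = π * e + m * π by ring, Real.sin_add_int_mul_pi] at h1
    rw [show π * (m - e) = -(π * e) + m * π by ring, Real.sin_add_int_mul_pi, sin_neg] at h2
    have h3 : (-1 : ℝ) ^ m ≠ 0 := zpow_ne_zero _ (by norm_num)
    have h4 : (-1 : ℝ) ^ m * sin (π * e) = 0 := by linarith
    rcases mul_eq_zero.1 h4 with h5 | h5
    · exact h3 h5
    · exact hs.ne' h5

/-- the unit normal -/
noncomputable def NN : E 4 := WithLp.toLp 2 (fun _ => (1 / 2 : ℝ))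

lemma inner_NN (x : E 4) : ⟪NN, x⟫ = (∑ i, x i) / 2 := by
  simp [NN, PiLp.inner_apply, Fin.sum_univ_four]; ring

lemma norm_NN : ‖NN‖ = 1 := by
  have : ‖NN‖ ^ 2 = 1 := by
    rw [← real_inner_self_eq_norm_sq, inner_NN]; simp [NN]; norm_num
  have h := norm_nonneg NN
  nlinarith

/-- orthonormal coordinates adapted to the normal -/
noncomputable def Q (y : E 3) (t : ℝ) : E 4 :=
  WithLp.toLp 2 ![(y 0 + y 1 + y 2 + t) / 2, (y 0 - y 1 - y 2 + t) / 2,
    (-y 0 + y 1 - y 2 + t) / 2, (-y 0 - y 1 + y 2 + t) / 2]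

/-- a linear form -/
noncomputable def ell (y : E 3) : ℝ := (y 0 + y 1 + y 2) / 2

lemma Q_sub (y y' : E 3) (t t' : ℝ) : Q y t - Q y' t' = Q (y - y') (t - t') := by
  ext i
  fin_cases i <;> simp [Q] <;> ring

lemma norm_Q (y : E 3) (t : ℝ) : ‖Q y t‖ ^ 2 = ‖y‖ ^ 2 + t ^ 2 := by
  rw [EuclideanSpace.real_norm_sq_eq, EuclideanSpace.real_norm_sq_eq, Fin.sum_univ_four,
    Fin.sum_univ_three]
  simp [Q]; ring

lemma sum_Q (y : E 3) (t : ℝ) : ∑ i, Q y t i = 2 * t := by
  simp [Q, Fin.sum_univ_four]; ring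

lemma Q_zero (y : E 3) (t : ℝ) : Q y t 0 = ell y + t / 2 := by
  simp [Q, ell]; ring

lemma Q_add (y : E 3) (t r : ℝ) : Q y t + r • NN = Q y (t + r) := by
  ext i
  fin_cases i <;> simp [Q, NN] <;> ring

lemma exists_Q (x : E 4) : ∃ y, x = Q y ((∑ i, x i) / 2) := by
  refine ⟨WithLp.toLp 2 ![(x 0 + x 1 - x 2 - x 3) / 2, (x 0 - x 1 + x 2 - x 3) / 2,
    (x 0 - x 1 - x 2 + x 3) / 2], ?_⟩
  ext i
  fin_cases i <;> simp [Q, Fin.sum_univ_four] <;> ring

lemma abs_ell_le (y : E 3) : |ell y| ≤ ‖y‖ := by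
  apply abs_le_of_sq_le_sq _ (norm_nonneg _)
  rw [EuclideanSpace.real_norm_sq_eq, Fin.sum_univ_three, ell]
  nlinarith [sq_nonneg (y 0 - y 1), sq_nonneg (y 0 - y 2), sq_nonneg (y 1 - y 2),
    sq_nonneg (y 0), sq_nonneg (y 1), sq_nonneg (y 2)]

lemma ell_sub (y y' : E 3) : ell (y - y') = ell y - ell y' := by
  simp [ell]; ring

/-- the half space -/
abbrev BB : Set (E 4) := halfSpace (fun _ : Fin 4 => (1 : ℝ))

lemma mem_BB (x : E 4) : x ∈ BB ↔ 0 ≤ sin (π * ∑ i, x i) := by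
  simp [BB, halfSpace]

lemma mem_frontier_BB (x : E 4) : x ∈ frontier BB ↔ ∃ m : ℤ, (m : ℝ) = ∑ i, x i := by
  set L : E 4 →L[ℝ] ℝ := innerSL ℝ ((2 : ℝ) • NN) with hL
  have hLx : ∀ x : E 4, L x = ∑ i, x i := fun x => by
    rw [hL, innerSL_apply_apply, real_inner_smul_left, inner_NN]; ring
  have hsurj : Function.Surjective L := fun r => ⟨Q 0 (r / 2), by rw [hLx, sum_Q]; ring⟩
  have h1 : BB = L ⁻¹' {t : ℝ | 0 ≤ sin (π * t)} := by
    ext x; rw [mem_BB, mem_preimage, hLx]; rfl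
  rw [h1, ← (L.isOpenMap hsurj).preimage_frontier_eq_frontier_preimage L.continuous,
    frontier_one, mem_preimage, hLx]
  rfl

/-- the deformation -/
noncomputable def psi (δ : ℝ) (x : E 4) : E 4 := x + (δ * sin (2 * π * x 0)) • NN

lemma abs_sin_sub (a b : ℝ) : |sin a - sin b| ≤ |a - b| := by
  have := Real.lipschitzWith_sin.dist_le_mul a b
  simpa [Real.dist_eq] using this

lemma exists_homeo (δ : ℝ) (h0 : 0 ≤ δ) (h1 : δ ≤ 1 / 8) :
    ∃ Ψ : E 4 ≃ₜ E 4, ∀ x, Ψ x = psi δ x := by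
  have hA : ApproximatesLinearOn (psi δ)
      ((ContinuousLinearEquiv.refl ℝ (E 4) : E 4 ≃L[ℝ] E 4) : E 4 →L[ℝ] E 4) univ (7 / 8 : ℝ≥0) := by
    intro x _ y _
    have h2 : psi δ x - psi δ y -
        ((ContinuousLinearEquiv.refl ℝ (E 4) : E 4 ≃L[ℝ] E 4) : E 4 →L[ℝ] E 4) (x - y) =
        (δ * (sin (2 * π * x 0) - sin (2 * π * y 0))) • NN := by
      simp only [psi, ContinuousLinearEquiv.coe_refl, ContinuousLinearMap.id_apply, mul_sub,
        sub_smul]
      abel
    rw [h2, norm_smul, norm_NN, mul_one, Real.norm_eq_abs, abs_mul, abs_of_nonneg h0]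
    have h3 := abs_sin_sub (2 * π * x 0) (2 * π * y 0)
    rw [← mul_sub, abs_mul, abs_of_pos (by positivity : 0 < 2 * π)] at h3
    have h4 : |x 0 - y 0| ≤ ‖x - y‖ := by
      have := PiLp.norm_apply_le (x - y) 0
      simpa using this
    have h5 := pi_lt_d2
    have h6 := abs_nonneg (x 0 - y 0)
    have h7 : 2 * π * |x 0 - y 0| ≤ 7 * ‖x - y‖ := by nlinarith
    push_cast
    calc δ * |sin (2 * π * x 0) - sin (2 * π * y 0)| ≤ 1 / 8 * (7 * ‖x - y‖) := by
          gcongr; exact h3.trans h7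
      _ = _ := by ring
  refine ⟨hA.toHomeomorph _ (Or.inr ?_), fun x => rfl⟩
  have : ‖((ContinuousLinearEquiv.refl ℝ (E 4) : E 4 ≃L[ℝ] E 4).symm : E 4 →L[ℝ] E 4)‖₊ = 1 := by
    simp
  rw [this, ← NNReal.coe_lt_coe]
  norm_num

/-- parametrisation of the sheets of the boundary -/
noncomputable def P (δ : ℝ) (m : ℤ) (y : E 3) : E 4 :=
  Q y (m / 2 + δ * sin (2 * π * ell y + π * m / 2))

lemma psi_P (δ : ℝ) (m : ℤ) (y : E 3) : psi δ (P 0 m y) = P δ m y := by
  unfold psi P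
  rw [Q_add, Q_zero]
  congr 1
  rw [zero_mul, add_zero]
  congr 3
  ring

lemma frontier_BB : frontier BB = ⋃ m : ℤ, range (P 0 m) := by
  ext x
  rw [mem_frontier_BB, mem_iUnion]
  constructor
  · rintro ⟨m, hm⟩
    obtain ⟨y, hy⟩ := exists_Q x
    refine ⟨m, y, ?_⟩
    rw [hy, ← hm]
    simp [P]
  · rintro ⟨m, y, rfl⟩
    refine ⟨m, ?_⟩
    rw [P, sum_Q]; ring

section
variable {δ : ℝ} {Ψ : E 4 ≃ₜ E 4}

lemma frontier_Om (hΨ : ∀ x, Ψ x = psi δ x) : frontier (Ψ '' BB) = ⋃ m : ℤ, range (P δ m) := by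
  rw [← Ψ.image_frontier, frontier_BB, image_iUnion]
  congr 1
  ext1 m
  rw [← range_comp]
  congr 1
  ext1 y
  rw [Function.comp_apply, hΨ, psi_P]

lemma isPeriodic_Om (hΨ : ∀ x, Ψ x = psi δ x) : IsPeriodic (Ψ '' BB) := by
  intro x hx
  obtain ⟨z, rfl⟩ := Ψ.surjective x
  rw [← Ψ.image_frontier, Ψ.injective.mem_set_image, mem_frontier_BB] at hx
  have hs : sin (π * ∑ i, z i) ≠ 0 := by
    intro h
    obtain ⟨n, hn⟩ := Real.sin_eq_zero_iff.1 h
    exact hx ⟨n, by nlinarith [pi_pos]⟩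
  have hiff : (0 ≤ -sin (π * ∑ i, z i)) ↔ ¬ 0 ≤ sin (π * ∑ i, z i) := by
    constructor
    · intro h1 h2; exact hs (by linarith)
    · intro h1; linarith [not_le.1 h1]
  refine ⟨fun i => ?_, ?_⟩
  · have h1 : Ψ z - EuclideanSpace.single i (1 : ℝ) = Ψ (z - EuclideanSpace.single i (1 : ℝ)) := by
      rw [hΨ, hΨ]
      unfold psi
      have : sin (2 * π * (z - EuclideanSpace.single i (1 : ℝ) : E 4) 0) = sin (2 * π * z 0) := by
        by_cases h : (0 : Fin 4) = i
        · subst h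
          have : 2 * π * (z - EuclideanSpace.single (0 : Fin 4) (1 : ℝ) : E 4) 0 =
              2 * π * z 0 - 2 * π := by simp; ring
          rw [this, sin_sub_two_pi]
        · simp [h]
      rw [this]
      abel
    have h2 : ∑ j, (z - EuclideanSpace.single i (1 : ℝ) : E 4) j = (∑ j, z j) - 1 := by
      simp [Finset.sum_sub_distrib]
    rw [h1, Ψ.injective.mem_set_image, Ψ.injective.mem_set_image, mem_BB, mem_BB, h2, mul_sub,
      mul_one, sin_sub_pi]
    exact hiff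
  · have h1 : -Ψ z = Ψ (-z) := by
      rw [hΨ, hΨ]
      unfold psi
      simp only [PiLp.neg_apply, mul_neg, sin_neg, neg_smul]
      abel
    have h2 : ∑ j, (-z : E 4) j = -(∑ j, z j) := by simp
    rw [h1, Ψ.injective.mem_set_image, Ψ.injective.mem_set_image, mem_BB, mem_BB, h2, mul_neg,
      sin_neg]
    exact hiff

lemma smooth_Om (h0 : 0 ≤ δ) (h1 : δ ≤ 1 / 8) (hΨ : ∀ x, Ψ x = psi δ x) :
    SmoothBoundary (Ψ '' BB) := by
  intro x hx
  rw [frontier_Om hΨ] at hx ⊢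
  obtain ⟨m, y, rfl⟩ := mem_iUnion.1 hx
  have hb : ∀ (k : ℤ) (y : E 3), |(∑ i, P δ k y i) - k| ≤ 1 / 4 := by
    intro k y
    rw [P, sum_Q, show 2 * (k / 2 + δ * sin (2 * π * ell y + π * k / 2)) - k =
      2 * (δ * sin (2 * π * ell y + π * k / 2)) by ring, abs_mul, abs_mul, abs_of_nonneg h0,
      abs_two]
    have := abs_sin_le_one (2 * π * ell y + π * k / 2)
    nlinarith [abs_nonneg (sin (2 * π * ell y + π * k / 2))]
  refine ⟨NN, fun z => m / 2 + δ * sin (2 * π * (z 0 - (∑ i, z i) / 4) + π * m / 2),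
    {z | |(∑ i, z i) - m| < 1 / 2}, norm_NN, by fun_prop, fun z t => ?_,
    isOpen_lt (by fun_prop) continuous_const, (hb m y).trans_lt (by norm_num), fun z hz => ?_⟩
  · have : (z + t • NN) 0 - (∑ i, (z + t • NN) i) / 4 = z 0 - (∑ i, z i) / 4 := by
      simp [NN, Fin.sum_univ_four]; ring
    simp only [this]
  · rw [inner_NN, mem_iUnion]
    constructor
    · rintro ⟨k, w, rfl⟩
      have h2 := hb k w
      have h3 : |(∑ i, P δ k w i) - m| < 1 / 2 := hz
      have h4 : k = m := by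
        rw [abs_le] at h2
        rw [abs_lt] at h3
        have h5 : ((k - m : ℤ) : ℝ) < 1 := by push_cast; linarith [h2.1, h3.2]
        have h6 : (-1 : ℝ) < ((k - m : ℤ) : ℝ) := by push_cast; linarith [h2.2, h3.1]
        have h7 : k - m < 1 := by exact_mod_cast h5
        have h8 : -1 < k - m := by exact_mod_cast h6
        omega
      subst h4
      simp only [P, sum_Q, Q_zero]
      rw [show ell w + (k / 2 + δ * sin (2 * π * ell w + π * k / 2)) / 2 -
        2 * (k / 2 + δ * sin (2 * π * ell w + π * k / 2)) / 4 = ell w by ring]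
      ring
    · intro h
      obtain ⟨w, hw⟩ := exists_Q z
      refine ⟨m, w, ?_⟩
      have h2 : z 0 - (∑ i, z i) / 4 = ell w := by
        have := congrArg (fun x : E 4 => x 0) hw
        simp only [Q_zero] at this
        linarith
      simp only [h2] at h
      rw [P, ← h, ← hw]

end

lemma lipschitz_P (δ : ℝ) (m : ℤ) :
    LipschitzWith (Real.toNNReal (1 + 20 * δ ^ 2)) (P δ m) := by
  refine LipschitzWith.of_dist_le_mul (fun y y' => ?_)
  rw [Real.coe_toNNReal _ (by positivity), dist_eq_norm, dist_eq_norm]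
  apply le_of_sq_le_sq _ (by positivity)
  rw [P, P, Q_sub, norm_Q]
  have h3 := abs_sin_sub (2 * π * ell y + π * m / 2) (2 * π * ell y' + π * m / 2)
  rw [show 2 * π * ell y + π * m / 2 - (2 * π * ell y' + π * m / 2) = 2 * π * (ell y - ell y') by
    ring, abs_mul, abs_of_pos (by positivity : 0 < 2 * π), ← ell_sub] at h3
  have h4 := abs_ell_le (y - y')
  have h5 := pi_lt_d2
  have h6 : 2 * π * |ell (y - y')| ≤ 6.3 * ‖y - y'‖ := by nlinarith [abs_nonneg (ell (y - y'))]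
  set D := sin (2 * π * ell y + π * m / 2) - sin (2 * π * ell y' + π * m / 2) with hD
  have h7 : D ^ 2 ≤ (6.3 * ‖y - y'‖) ^ 2 := by
    rw [← sq_abs D]
    gcongr
    exact h3.trans h6
  rw [show (m : ℝ) / 2 + δ * sin (2 * π * ell y + π * m / 2) -
    (m / 2 + δ * sin (2 * π * ell y' + π * m / 2)) = δ * D by rw [hD]; ring]
  have h8 : (δ * D) ^ 2 ≤ δ ^ 2 * (6.3 * ‖y - y'‖) ^ 2 := by
    rw [mul_pow]; gcongr
  nlinarith [sq_nonneg δ, sq_nonneg ‖y - y'‖, mul_nonneg (sq_nonneg δ) (sq_nonneg ‖y - y'‖),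
    mul_nonneg (sq_nonneg (δ ^ 2)) (sq_nonneg ‖y - y'‖)]

lemma isometry_P (m : ℤ) : Isometry (P 0 m) := by
  refine Isometry.of_dist_eq (fun y y' => ?_)
  rw [dist_eq_norm, dist_eq_norm]
  have : ‖P 0 m y - P 0 m y'‖ ^ 2 = ‖y - y'‖ ^ 2 := by
    rw [P, P, Q_sub, norm_Q]; simp
  exact (sq_eq_sq₀ (norm_nonneg _) (norm_nonneg _)).1 this

lemma lintegral_range_le {K : ℝ≥0} {f : E 3 → E 4} (hf : LipschitzWith K f) {g : E 4 → ENNReal}
    (hg : Measurable g) :
    ∫⁻ x in range f, g x ∂(Measure.euclideanHausdorffMeasure 3) ≤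
      (K : ENNReal) ^ 3 * ∫⁻ y, g (f y) := by
  have hfm : Measurable f := hf.continuous.measurable
  have h1 : (Measure.euclideanHausdorffMeasure 3 : Measure (E 4)).restrict (range f) ≤
      ((K : ENNReal) ^ 3) • (volume : Measure (E 3)).map f := by
    rw [Measure.le_iff]
    intro s hs
    rw [Measure.restrict_apply hs, Measure.smul_apply, Measure.map_apply hfm hs,
      ← EuclideanSpace.euclideanHausdorffMeasure_eq_volume, ← image_preimage_eq_inter_range,
      Measure.euclideanHausdorffMeasure_def, Measure.euclideanHausdorffMeasure_def,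
      Measure.smul_apply, Measure.smul_apply, smul_comm]
    have := hf.hausdorffMeasure_image_le (d := ((3 : ℕ) : ℝ)) (by simp) (f ⁻¹' s)
    rw [ENNReal.rpow_natCast] at this
    simp only [ENNReal.smul_def, smul_eq_mul]
    gcongr
  calc _ ≤ ∫⁻ x, g x ∂(((K : ENNReal) ^ 3) • (volume : Measure (E 3)).map f) :=
        lintegral_mono' h1 le_rfl
    _ = _ := by rw [lintegral_smul_measure, lintegral_map hg hfm, smul_eq_mul]

lemma lintegral_range_eq {f : E 3 → E 4} (hf : Isometry f) {g : E 4 → ENNReal}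
    (hg : Measurable g) :
    ∫⁻ x in range f, g x ∂(Measure.euclideanHausdorffMeasure 3) = ∫⁻ y, g (f y) := by
  rw [← hf.map_euclideanHausdorffMeasure, EuclideanSpace.euclideanHausdorffMeasure_eq_volume,
    lintegral_map hg hf.continuous.measurable]

lemma measurable_gauss : Measurable (fun x : E 4 => ENNReal.ofReal (gauss x)) := by
  unfold gauss
  fun_prop

lemma area_BB : area BB = ∑' m : ℤ, ∫⁻ y, ENNReal.ofReal (gauss (P 0 m y)) := by
  unfold area
  rw [frontier_BB, lintegral_iUnion]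
  · congr 1
    ext m
    exact lintegral_range_eq (isometry_P m) measurable_gauss
  · intro m
    exact (isometry_P m).isClosedEmbedding.isClosed_range.measurableSet
  · intro m k hmk
    rw [Function.onFun, disjoint_left]
    rintro _ ⟨y, rfl⟩ ⟨y', h⟩
    have := congrArg (fun x : E 4 => ∑ i, x i) h
    simp only [P, sum_Q] at this
    apply hmk
    have h2 : (m : ℝ) = k := by linarith
    exact_mod_cast h2

lemma area_Om {δ : ℝ} {Ψ : E 4 ≃ₜ E 4} (hΨ : ∀ x, Ψ x = psi δ x) :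
    area (Ψ '' BB) ≤ ENNReal.ofReal ((1 + 20 * δ ^ 2) ^ 3) *
      ∑' m : ℤ, ∫⁻ y, ENNReal.ofReal (gauss (P δ m y)) := by
  unfold area
  rw [frontier_Om hΨ, ← ENNReal.tsum_mul_left]
  refine (lintegral_iUnion_le _ _).trans (ENNReal.tsum_le_tsum fun m => ?_)
  have := lintegral_range_le (lipschitz_P δ m) measurable_gauss
  rw [ENNReal.ofReal_pow (by positivity)]
  exact this

end Pool.Agent.H122Z.Area
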