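import Pool.Agent.H122Z.AreaA

/-!
The first variation of the Gaussian surface area at the periodic half space is not zero.
-/

open MeasureTheory Real Filter Topology Set
open scoped NNReal RealInnerProductSpace

namespace Pool.Agent.H122Z.Area

lemma exp_le_quad (x : ℝ) : exp x ≤ 1 + x + x ^ 2 * exp |x| := by
  rcases le_total 0 x with h | h
  · rw [abs_of_nonneg h]
    have h1 : 1 - x ≤ exp (-x) := by linarith [add_one_le_exp (-x)]
    have h2 : exp x * exp (-x) = 1 := by rw [← exp_add]; simp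
    have h3 := exp_pos x
    have h4 : exp x - 1 ≤ x * exp x := by nlinarith
    nlinarith
  · have h1 : 1 - x ≤ exp (-x) := by linarith [add_one_le_exp (-x)]
    have h2 : exp x * exp (-x) = 1 := by rw [← exp_add]; simp
    have h3 := exp_pos x
    have h4 : exp x * (1 - x) ≤ 1 := by nlinarith
    have h5 : 1 ≤ exp |x| := one_le_exp (abs_nonneg x)
    have h6 : exp x ≤ 1 + x + x ^ 2 := by
      by_contra hc
      push Not at hc
      have : (1 + x + x ^ 2) * (1 - x) < exp x * (1 - x) := by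
        apply mul_lt_mul_of_pos_right hc; linarith
      nlinarith [mul_nonneg (sq_nonneg x) (neg_nonneg.2 h)]
    nlinarith [sq_nonneg x]

lemma summable_gauss (a : ℝ) : Summable (fun m : ℤ => exp (a * |(m : ℝ)| - (m : ℝ) ^ 2 / 8)) := by
  refine Summable.of_nonneg_of_le (fun m => (exp_pos _).le) (fun m => ?_)
    (summable_exp_neg_abs.mul_left (exp (2 * (a + 1) ^ 2)))
  rw [← exp_add, ← sq_abs (m : ℝ)]
  gcongr
  nlinarith [sq_nonneg (|(m : ℝ)| - 4 * (a + 1))]

/-- the three sequences -/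
noncomputable def a0 (m : ℤ) : ℝ := exp (-(m : ℝ) ^ 2 / 8)
/-- first order term -/
noncomputable def a1 (m : ℤ) : ℝ := m * exp (-(m : ℝ) ^ 2 / 8) * sin (π * m / 2)
/-- second order term -/
noncomputable def a2 (m : ℤ) : ℝ := (m : ℝ) ^ 2 * exp (|(m : ℝ)| / 2) * exp (-(m : ℝ) ^ 2 / 8)

lemma abs_le_exp (x : ℝ) : |x| ≤ exp |x| := by linarith [add_one_le_exp |x|]

lemma summable_a0 : Summable a0 := by
  refine (summable_gauss 0).congr (fun m => ?_)
  simp [a0, neg_div]

lemma summable_a1 : Summable a1 := by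
  refine Summable.of_norm_bounded (summable_gauss 1) (fun m => ?_)
  rw [a1, Real.norm_eq_abs, abs_mul, abs_mul, abs_of_pos (exp_pos _), one_mul, sub_eq_add_neg,
    exp_add, neg_div]
  calc _ ≤ exp |(m : ℝ)| * exp (-((m : ℝ) ^ 2 / 8)) * 1 := by
        gcongr
        · exact abs_le_exp _
        · exact abs_sin_le_one _
    _ = _ := mul_one _

lemma summable_a2 : Summable a2 := by
  refine Summable.of_nonneg_of_le (fun m => by unfold a2; positivity) (fun m => ?_)
    (summable_gauss (5 / 2))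
  rw [a2, sub_eq_add_neg, exp_add, neg_div, ← sq_abs (m : ℝ)]
  gcongr
  have h := abs_le_exp (m : ℝ)
  calc |(m : ℝ)| ^ 2 * exp (|(m : ℝ)| / 2) ≤ exp |(m : ℝ)| ^ 2 * exp (|(m : ℝ)| / 2) := by gcongr
    _ = _ := by rw [sq, ← exp_add, ← exp_add]; congr 1; ring

lemma a1_pos : 0 < ∑' m, a1 m := by
  have h1 := summable_a1.hasSum.nat_add_neg
  have h2 : ∀ n : ℕ, a1 (-(n : ℤ)) = a1 n := fun n => by
    unfold a1
    push_cast
    rw [neg_sq, mul_neg, neg_div (2:ℝ) (π * n), sin_neg]; ring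
  have h0 : a1 0 = 0 := by simp [a1]
  simp_rw [h2] at h1
  rw [h0, add_zero] at h1
  have h3 := (hasSum_nat_add_iff' 8).2 h1
  have h4 : HasSum (fun n : ℕ => -(16 * exp (-1) ^ 8) * (1 / 2 : ℝ) ^ n)
      (-(16 * exp (-1) ^ 8) * 2) := hasSum_geometric_two.mul_left _
  have hx1 := exp_neg_one_gt_d9
  have hx2 := exp_neg_one_lt_d9
  generalize ∑' m, a1 m = A at h3 ⊢
  have h5 := hasSum_le (fun n => ?_) h4 h3
  · have s1 : sin (π * 1 / 2) = 1 := by rw [mul_one, sin_pi_div_two]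
    have s2 : sin (π * 2 / 2) = 0 := by rw [show π * 2 / 2 = π by ring, sin_pi]
    have s3 : sin (π * 3 / 2) = -1 := by
      rw [show π * 3 / 2 = π / 2 + π by ring, sin_add_pi, sin_pi_div_two]
    have s4 : sin (π * 4 / 2) = 0 := by rw [show π * 4 / 2 = 2 * π by ring, sin_two_pi]
    have s5 : sin (π * 5 / 2) = 1 := by
      rw [show π * 5 / 2 = π / 2 + 2 * π by ring, sin_add_two_pi, sin_pi_div_two]
    have s6 : sin (π * 6 / 2) = 0 := by
      rw [show π * 6 / 2 = π + 2 * π by ring, sin_add_two_pi, sin_pi]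
    have s7 : sin (π * 7 / 2) = -1 := by
      rw [show π * 7 / 2 = π / 2 + π + 2 * π by ring, sin_add_two_pi, sin_add_pi, sin_pi_div_two]
    set q := exp (-1 / 8) with hq
    set x := exp (-1) with hx
    have hq1 : 7 / 8 ≤ q := by linarith [add_one_le_exp (-1 / 8 : ℝ)]
    have e1 : exp (-(1:ℝ) ^ 2 / 8) = q := by rw [hq]; norm_num
    have e3 : exp (-(3:ℝ) ^ 2 / 8) = q * x := by rw [hq, hx, ← exp_add]; norm_num
    have e5 : exp (-(5:ℝ) ^ 2 / 8) = q * x ^ 3 := by
      rw [hq, hx, ← exp_nat_mul, ← exp_add]; norm_num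
    have e7 : exp (-(7:ℝ) ^ 2 / 8) = q * x ^ 6 := by
      rw [hq, hx, ← exp_nat_mul, ← exp_add]; norm_num
    simp only [Finset.sum_range_succ, Finset.sum_range_zero, a1] at h5
    push_cast at h5
    rw [s1, s2, s3, s4, s5, s6, s7, e1, e3, e5, e7] at h5
    have p3 : (0.3678 : ℝ) ^ 3 ≤ x ^ 3 := by gcongr; linarith
    have p6 : x ^ 6 ≤ (0.3679 : ℝ) ^ 6 := by gcongr; linarith
    have p8 : x ^ 8 ≤ (0.3679 : ℝ) ^ 8 := by gcongr; linarith
    have p9 : 0.12 ≤ 1 - 3 * x + 5 * x ^ 3 - 7 * x ^ 6 := by norm_num at p3 p6 ⊢; linarith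
    have p10 : 7 / 8 * 0.12 ≤ q * (1 - 3 * x + 5 * x ^ 3 - 7 * x ^ 6) := by gcongr
    norm_num at p8 p10 h5 ⊢
    nlinarith
  · have h6 : |a1 ((n + 8 : ℕ) : ℤ)| ≤ 8 * exp (-1) ^ 8 * (1 / 2) ^ n := by
      unfold a1
      push_cast
      have hn : (0:ℝ) ≤ n := Nat.cast_nonneg n
      have h7 : (n : ℝ) + 8 ≤ 8 * 2 ^ n := by
        have : (n : ℝ) + 1 ≤ 2 ^ n := by exact_mod_cast Nat.lt_two_pow_self
        linarith
      have h8 : exp (-((n : ℝ) + 8) ^ 2 / 8) ≤ exp (-1) ^ 8 * (1 / 4) ^ n := by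
        calc _ ≤ exp (-1) ^ 8 * (exp (-1) ^ 2) ^ n := by
              rw [← pow_mul, ← pow_add, ← exp_nat_mul]
              gcongr
              push_cast
              nlinarith
          _ ≤ _ := by
              gcongr
              nlinarith
      rw [abs_mul, abs_mul, abs_of_pos (exp_pos _), abs_of_nonneg (by positivity)]
      calc _ ≤ (8 * 2 ^ n) * (exp (-1) ^ 8 * (1 / 4) ^ n) * 1 := by
            gcongr
            exact abs_sin_le_one _
        _ = _ := by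
            rw [show (1 / 2 : ℝ) = 2 * (1 / 4) by norm_num, mul_pow]; ring
    rw [abs_le] at h6
    linarith [h6.1]

/-- the Gaussian weight -/
noncomputable def ww (y : E 3) : ℝ := exp (-‖y‖ ^ 2 / 2)

lemma integrable_ww : Integrable ww := by
  have h := (GaussianFourier.integrable_cexp_neg_mul_sq_norm_add (V := E 3) (b := 1 / 2)
    (by norm_num) 0 0).norm
  refine h.congr (Eventually.of_forall fun y => ?_)
  simp only [ww, zero_mul, add_zero, Complex.norm_exp]
  congr 1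
  simp [← Complex.ofReal_pow]; ring

/-- the vector representing the linear form -/
noncomputable def wv : E 3 := WithLp.toLp 2 (fun _ => (1 / 2 : ℝ))

lemma inner_wv (y : E 3) : ⟪wv, y⟫ = ell y := by
  simp [wv, ell, PiLp.inner_apply, Fin.sum_univ_three]; ring

lemma exists_I1 : ∃ I1 : ℝ, 0 < I1 ∧ ∀ θ : ℝ, ∫ y, ww y * sin (2 * π * ell y + θ) = sin θ * I1 := by
  have h := GaussianFourier.integral_cexp_neg_mul_sq_norm_add (V := E 3) (b := 1 / 2)
    (by norm_num) (2 * π * Complex.I) wv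
  have hi := GaussianFourier.integrable_cexp_neg_mul_sq_norm_add (V := E 3) (b := 1 / 2)
    (by norm_num) (2 * π * Complex.I) wv
  refine ⟨(2 * π) ^ (3 / 2 : ℝ) * exp (-(2 * π ^ 2 * ‖wv‖ ^ 2)), by positivity, fun θ => ?_⟩
  have h2 : (π / (1 / 2) : ℂ) ^ ((Module.finrank ℝ (E 3) : ℂ) / 2) *
      Complex.exp ((2 * π * Complex.I) ^ 2 * (‖wv‖ : ℂ) ^ 2 / (4 * (1 / 2))) =
      (((2 * π) ^ (3 / 2 : ℝ) * exp (-(2 * π ^ 2 * ‖wv‖ ^ 2)) : ℝ) : ℂ) := by
    rw [Complex.ofReal_mul, Complex.ofReal_cpow (by positivity)]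
    congr 1
    · simp only [finrank_euclideanSpace, Fintype.card_fin]
      push_cast
      congr 1; ring
    · push_cast
      congr 1
      rw [mul_pow, Complex.I_sq]; ring
  rw [h2] at h
  have h3 : ∀ y : E 3, ww y * sin (2 * π * ell y + θ) =
      (Complex.exp (θ * Complex.I) * Complex.exp (-(1 / 2) * (‖y‖ : ℂ) ^ 2 +
        2 * π * Complex.I * (⟪wv, y⟫ : ℝ))).im := by
    intro y
    rw [← Complex.exp_add, Complex.exp_im, inner_wv, ww]
    congr 2
    · simp [← Complex.ofReal_pow]; ring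
    · simp [← Complex.ofReal_pow]; ring
  simp_rw [h3]
  have h4 := integral_im (𝕜 := ℂ) (hi.const_mul (Complex.exp (θ * Complex.I)))
  simp only [RCLike.im_to_complex] at h4
  rw [h4, integral_const_mul, h, Complex.im_mul_ofReal, Complex.exp_ofReal_mul_I_im]

lemma gauss_P (δ : ℝ) (m : ℤ) (y : E 3) : gauss (P δ m y) = (2 * π) ^ (-((4 : ℕ) : ℝ) / 2) *
    (ww y * exp (-(m / 2 + δ * sin (2 * π * ell y + π * m / 2)) ^ 2 / 2)) := by
  unfold gauss ww
  rw [P, norm_Q, ← exp_add]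
  congr 2
  ring

lemma exp_shift_le {δ s : ℝ} (h0 : 0 ≤ δ) (h1 : δ ≤ 1) (hs : |s| ≤ 1) (m : ℤ) :
    exp (-(m / 2 + δ * s) ^ 2 / 2) ≤
      a0 m - δ / 2 * (m * exp (-(m : ℝ) ^ 2 / 8)) * s + δ ^ 2 / 4 * a2 m := by
  have h2 : exp (-(m / 2 + δ * s) ^ 2 / 2) ≤ exp (-(m : ℝ) ^ 2 / 8) * exp (-(m * δ * s / 2)) := by
    rw [← exp_add]
    gcongr
    nlinarith [sq_nonneg (δ * s)]
  have h3 := exp_le_quad (-(m * δ * s / 2))
  have h4 : |-(m * δ * s / 2)| ≤ δ * |(m : ℝ)| / 2 := by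
    rw [abs_neg, abs_div, abs_mul, abs_mul, abs_of_nonneg h0, abs_two]
    have := mul_le_mul_of_nonneg_left hs (mul_nonneg (abs_nonneg (m : ℝ)) h0)
    linarith
  have h5 : (-(m * δ * s / 2)) ^ 2 * exp |-(m * δ * s / 2)| ≤
      (δ * |(m : ℝ)| / 2) ^ 2 * exp (|(m : ℝ)| / 2) := by
    rw [← sq_abs (-(m * δ * s / 2))]
    gcongr
    refine h4.trans ?_
    nlinarith [abs_nonneg (m : ℝ)]
  rw [div_pow, mul_pow, sq_abs] at h5
  have h6 := exp_pos (-(m : ℝ) ^ 2 / 8)
  unfold a0 a2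
  calc _ ≤ _ := h2
    _ ≤ exp (-(m : ℝ) ^ 2 / 8) * (1 + -(m * δ * s / 2) +
        δ ^ 2 * (m : ℝ) ^ 2 / 2 ^ 2 * exp (|(m : ℝ)| / 2)) := by
        gcongr
        linarith
    _ = _ := by ring

theorem main : ∃ Ω : Set (E 4), IsPeriodic Ω ∧ SmoothBoundary Ω ∧ area Ω < area BB := by
  obtain ⟨I1, hI1, hI⟩ := exists_I1
  set I0 := ∫ y, ww y with hI0
  have hw0 : ∀ y, 0 ≤ ww y := fun y => (exp_pos _).le
  have hI0' : 0 ≤ I0 := integral_nonneg hw0
  set c : ℝ := (2 * π) ^ (-((4 : ℕ) : ℝ) / 2) with hc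
  have hc0 : 0 < c := by positivity
  set A0 := ∑' m, a0 m
  set A1 := ∑' m, a1 m
  set A2 := ∑' m, a2 m
  have hA1 : 0 < A1 := a1_pos
  set R : ℝ → ℝ := fun δ => A0 * I0 - δ / 2 * (A1 * I1) + δ ^ 2 / 4 * (A2 * I0) with hR
  obtain ⟨δ, h0, h1, hδ⟩ : ∃ δ : ℝ, 0 ≤ δ ∧ δ ≤ 1 / 8 ∧ (1 + 20 * δ ^ 2) ^ 3 * R δ < A0 * I0 := by
    set g : ℝ → ℝ := fun δ => (60 * δ + 1200 * δ ^ 3 + 8000 * δ ^ 5) * R δ - A1 * I1 / 2 +
      δ / 4 * (A2 * I0) with hg
    have hgc : Continuous g := by simp only [hg, hR]; fun_prop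
    have hg0 : g 0 < 0 := by
      simp only [hg]
      have := mul_pos hA1 hI1
      linarith
    have h2 : ∀ᶠ δ in 𝓝[>] (0:ℝ), g δ < 0 :=
      nhdsWithin_le_nhds (hgc.continuousAt.eventually_lt continuousAt_const hg0)
    have h3 : ∀ᶠ δ in 𝓝[>] (0:ℝ), δ ∈ Ioo (0:ℝ) (1 / 8) := Ioo_mem_nhdsGT (by norm_num)
    obtain ⟨δ, h4, h5⟩ := (h2.and h3).exists
    refine ⟨δ, h5.1.le, h5.2.le, ?_⟩
    have h6 : (1 + 20 * δ ^ 2) ^ 3 * R δ - A0 * I0 = δ * g δ := by simp only [hg, hR]; ring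
    have h7 := mul_neg_of_pos_of_neg h5.1 h4
    linarith
  obtain ⟨Ψ, hΨ⟩ := exists_homeo δ h0 h1
  refine ⟨Ψ '' BB, isPeriodic_Om hΨ, smooth_Om h0 h1 hΨ, ?_⟩
  have hB : area BB = ENNReal.ofReal (c * (A0 * I0)) := by
    rw [area_BB]
    have h2 : ∀ m : ℤ, ∫⁻ y, ENNReal.ofReal (gauss (P 0 m y)) = ENNReal.ofReal (c * (a0 m * I0)) := by
      intro m
      have h3 : ∀ y, gauss (P 0 m y) = c * (a0 m * ww y) := fun y => by
        rw [gauss_P, a0, mul_comm (ww y)]
        congr 3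
        ring
      simp_rw [h3]
      rw [← ofReal_integral_eq_lintegral_ofReal ((integrable_ww.const_mul _).const_mul _)
        (Eventually.of_forall fun y => by
          have := hw0 y
          simp only [Pi.zero_apply, a0]; positivity), integral_const_mul, integral_const_mul]
    simp_rw [h2]
    rw [← ENNReal.ofReal_tsum_of_nonneg (fun m => by unfold a0; positivity)
      ((summable_a0.mul_right _).mul_left _), tsum_mul_left, tsum_mul_right]
  have hsin : ∀ m : ℤ, Integrable (fun y => ww y * sin (2 * π * ell y + π * m / 2)) := fun m =>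
    integrable_ww.mul_bdd (c := 1) (Measurable.aestronglyMeasurable (by unfold ell; fun_prop))
      (Eventually.of_forall fun y => by rw [Real.norm_eq_abs]; exact abs_sin_le_one _)
  set T : ℤ → E 3 → ℝ := fun m y => c * (a0 m * ww y - δ / 2 * (m * exp (-(m : ℝ) ^ 2 / 8)) *
    (ww y * sin (2 * π * ell y + π * m / 2)) + δ ^ 2 / 4 * a2 m * ww y) with hT
  have hTle : ∀ m y, gauss (P δ m y) ≤ T m y := fun m y => by
    rw [gauss_P]
    simp only [hT]
    have := mul_le_mul_of_nonneg_left (exp_shift_le h0 (by linarith)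
      (abs_sin_le_one (2 * π * ell y + π * m / 2)) m) (hw0 y)
    refine mul_le_mul_of_nonneg_left (this.trans (le_of_eq ?_)) hc0.le
    ring
  have hT0 : ∀ m y, 0 ≤ T m y := fun m y => le_trans (by unfold gauss; positivity) (hTle m y)
  have hTi : ∀ m, Integrable (T m) := fun m =>
    ((((integrable_ww.const_mul _).sub ((hsin m).const_mul _))).add
      (integrable_ww.const_mul _)).const_mul _
  have hTv : ∀ m, ∫ y, T m y = c * (a0 m * I0 - δ / 2 * (a1 m * I1) + δ ^ 2 / 4 * (a2 m * I0)) := by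
    intro m
    simp only [hT]
    have i1 : Integrable (fun y => a0 m * ww y - δ / 2 * (m * exp (-(m : ℝ) ^ 2 / 8)) *
      (ww y * sin (2 * π * ell y + π * m / 2))) :=
      (integrable_ww.const_mul _).sub ((hsin m).const_mul _)
    rw [integral_const_mul, integral_add i1 (integrable_ww.const_mul _),
      integral_sub (integrable_ww.const_mul _) ((hsin m).const_mul _), integral_const_mul,
      integral_const_mul, integral_const_mul, hI, a1]
    ring
  have hsum : HasSum (fun m => ∫ y, T m y) (c * R δ) := by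
    simp_rw [hTv]
    exact ((((summable_a0.hasSum.mul_right I0).sub
      ((summable_a1.hasSum.mul_right I1).mul_left (δ / 2))).add
      ((summable_a2.hasSum.mul_right I0).mul_left (δ ^ 2 / 4)))).mul_left c
  have hO : ∑' m : ℤ, ∫⁻ y, ENNReal.ofReal (gauss (P δ m y)) ≤ ENNReal.ofReal (c * R δ) := by
    rw [← hsum.tsum_eq, ENNReal.ofReal_tsum_of_nonneg (fun m => integral_nonneg (hT0 m))
      hsum.summable]
    refine ENNReal.tsum_le_tsum (fun m => ?_)
    rw [ofReal_integral_eq_lintegral_ofReal (hTi m) (Eventually.of_forall (hT0 m))]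
    exact lintegral_mono (fun y => ENNReal.ofReal_le_ofReal (hTle m y))
  have hR0 : 0 ≤ c * R δ := hsum.nonneg (fun m => integral_nonneg (hT0 m))
  calc area (Ψ '' BB) ≤ _ := area_Om hΨ
    _ ≤ ENNReal.ofReal ((1 + 20 * δ ^ 2) ^ 3) * ENNReal.ofReal (c * R δ) := by gcongr
    _ = ENNReal.ofReal (c * ((1 + 20 * δ ^ 2) ^ 3 * R δ)) := by
        rw [← ENNReal.ofReal_mul (by positivity)]; congr 1; ring
    _ < area BB := by
        rw [hB]
        refine (ENNReal.ofReal_lt_ofReal_iff_of_nonneg ?_).2 (mul_lt_mul_of_pos_left hδ hc0)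
        rw [mul_left_comm]
        positivity

end Pool.Agent.H122Z.Area
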