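import Pool.Agent.H82Z.Kak.St

set_option autoImplicit false

namespace Pool.Agent.H122Z.KakHom

open MeasureTheory Filter Set Pool.Agent.H82Z.Kak Topology

/-- Residue classes: a proportion `q ^ (-d)` of a finite set of lattice points is `q`-separated. -/
theorem residue_class {d q : ℕ} (hq : 0 < q) (Z : Finset (Fin d → ℤ)) :
    ∃ Z' ⊆ Z, Z.card ≤ q ^ d * Z'.card ∧
      ∀ z ∈ Z', ∀ z' ∈ Z', z ≠ z' → ∃ j, (q : ℤ) ≤ |z j - z' j| := by
  classical
  haveI : NeZero q := ⟨hq.ne'⟩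
  let f : (Fin d → ℤ) → (Fin d → ZMod q) := fun z j => (z j : ZMod q)
  obtain ⟨y, -, hy⟩ := Finset.exists_max_image (Finset.univ : Finset (Fin d → ZMod q))
    (fun y => (Z.filter fun z => f z = y).card) Finset.univ_nonempty
  refine ⟨Z.filter fun z => f z = y, Finset.filter_subset _ _, ?_, ?_⟩
  · rw [Finset.card_eq_sum_card_fiberwise (f := f) (t := Finset.univ) (fun _ _ => by simp)]
    refine (Finset.sum_le_card_nsmul _ _ _ hy).trans ?_
    simp [ZMod.card]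
  · intro z hz z' hz' hne
    obtain ⟨j, hj⟩ := Function.ne_iff.1 hne
    have e : f z j = f z' j := by
      rw [(Finset.mem_filter.1 hz).2, (Finset.mem_filter.1 hz').2]
    have hd : (q : ℤ) ∣ z j - z' j := (ZMod.intCast_eq_intCast_iff_dvd_sub _ _ _).1 e.symm
    exact ⟨j, Int.le_of_dvd (abs_pos.2 (sub_ne_zero.2 hj)) ((dvd_abs _ _).2 hd)⟩

theorem decomp {V ι : Type} [AddCommGroup V] [Module ℝ V] [Fintype ι] {r : ι → ℝ} {c : ι → V}
    {F : Set V} (hF : F = ⋃ i, (fun p => r i • p + c i) '' F) (N : ℕ) :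
    ∀ p ∈ F, ∃ κ : ι → ℕ, ∑ i, κ i = N ∧ ∃ p' ∈ F, ∃ c0 : V,
      (∀ q ∈ F, (∏ i, r i ^ κ i) • q + c0 ∈ F) ∧ p = (∏ i, r i ^ κ i) • p' + c0 := by
  classical
  induction N with
  | zero => exact fun p hp => ⟨0, by simp, p, hp, 0, by simp, by simp⟩
  | succ N ih =>
    intro p hp
    obtain ⟨κ, h1, p', hp', c0, h2, h3⟩ := ih p hp
    rw [hF] at hp'
    obtain ⟨i, p'', hp'', rfl⟩ := mem_iUnion.1 hp'
    have e : ∏ j, r j ^ (κ + Pi.single i 1 : ι → ℕ) j = (∏ j, r j ^ κ j) * r i := by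
      simp only [Pi.add_apply, pow_add, Finset.prod_mul_distrib]
      congr 1
      rw [Finset.prod_eq_single i (fun j _ hj => by simp [Pi.single_eq_of_ne hj]) (by simp)]
      simp
    refine ⟨κ + Pi.single i 1, by simp [Finset.sum_add_distrib, h1], p'', hp'',
      (∏ j, r j ^ κ j) • c i + c0, fun q hq => ?_, ?_⟩
    · have hq' : r i • q + c i ∈ F := by
        rw [hF]; exact mem_iUnion.2 ⟨i, q, hq, rfl⟩
      have := h2 _ hq'
      rwa [e, mul_smul, ← add_assoc, ← smul_add]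
    · rw [h3, e, mul_smul, ← add_assoc, ← smul_add]

theorem max_sep {V W : Type} [SeminormedAddCommGroup W] (π : V → W) (S : Set V) {δ B : ℝ}
    (hδ : 0 < δ) (hB : ∀ Z : Finset V, (∀ z ∈ Z, z ∈ S) →
      (∀ z ∈ Z, ∀ z' ∈ Z, z ≠ z' → δ ≤ ‖π z - π z'‖) → (Z.card : ℝ) ≤ B) :
    ∃ Z : Finset V, (Z.card : ℝ) ≤ B ∧ ∀ x ∈ S, ∃ z ∈ Z, ‖π x - π z‖ ≤ δ := by
  classical
  let G : Set (Finset V) := {Z | (∀ z ∈ Z, z ∈ S) ∧
    ∀ z ∈ Z, ∀ z' ∈ Z, z ≠ z' → δ ≤ ‖π z - π z'‖}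
  have hne : (Finset.card '' G).Nonempty := ⟨0, ∅, ⟨by simp, by simp⟩, rfl⟩
  have hbd : BddAbove (Finset.card '' G) := ⟨⌊B⌋₊, by
    rintro _ ⟨Z, hZ, rfl⟩
    exact Nat.le_floor (hB Z hZ.1 hZ.2)⟩
  obtain ⟨Z, hZ, e⟩ := Nat.sSup_mem hne hbd
  refine ⟨Z, hB Z hZ.1 hZ.2, fun x hx => ?_⟩
  by_contra hc
  push Not at hc
  have hxZ : x ∉ Z := fun h => by have := hc x h; simp at this; linarith
  have hG : insert x Z ∈ G := by
    refine ⟨fun z hz => ?_, fun z hz z' hz' hne => ?_⟩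
    · rcases Finset.mem_insert.1 hz with rfl | h
      exacts [hx, hZ.1 z h]
    · rcases Finset.mem_insert.1 hz with rfl | h <;> rcases Finset.mem_insert.1 hz' with rfl | h'
      · exact absurd rfl hne
      · exact (hc z' h').le
      · rw [norm_sub_rev]; exact (hc z h).le
      · exact hZ.2 z h z' h' hne
  have := le_csSup hbd ⟨_, hG, rfl⟩
  rw [Finset.card_insert_of_notMem hxZ, ← e] at this
  omega

theorem thm_hom : S_hom := by
  classical
  intro d ι _ r c F hr hFc hF hvol ε hε Q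
  by_contra hcon
  push Not at hcon
  have hne : Nonempty ι := by
    by_contra h
    rw [not_nonempty_iff] at h
    rw [hF] at hvol
    simp at hvol
  obtain ⟨i0, -, hi0⟩ := Finset.exists_max_image Finset.univ r Finset.univ_nonempty
  obtain ⟨R, hR0, hR⟩ := hFc.isBounded.exists_pos_norm_le
  set Q' := max Q 1 with hQ'
  have hQ1 : 0 < Q' := lt_of_lt_of_le one_pos (le_max_right _ _)
  have key : ∀ ρ : ℝ, ∃ Z : Finset (E d × E d), 0 < ρ → ρ ≤ 1 / 2 →
      (Z.card : ℝ) ≤ ρ ^ ε / ρ ^ d ∧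
      ∀ x ∈ {x : E d × E d | ∀ q ∈ F, ρ • q + x ∈ F}, ∃ z ∈ Z, ‖x.2 - z.2‖ ≤ Q' * ρ := by
    intro ρ
    by_cases h : 0 < ρ ∧ ρ ≤ 1 / 2
    swap
    · exact ⟨∅, fun a b => absurd ⟨a, b⟩ h⟩
    obtain ⟨Z, hZ⟩ := max_sep (Prod.snd : E d × E d → E d) {x | ∀ q ∈ F, ρ • q + x ∈ F}
      (mul_pos hQ1 h.1) (B := ρ ^ ε / ρ ^ d) (fun Z h1 h2 => by
        have := hcon ρ Z.card (fun i => (Z.equivFin.symm i : E d × E d)) h.1 h.2
          (fun i => h1 _ (Z.equivFin.symm i).2) (fun i i' hii => by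
            refine le_trans (mul_le_mul_of_nonneg_right (le_max_left Q 1) h.1.le)
              (h2 _ (Z.equivFin.symm i).2 _ (Z.equivFin.symm i').2 fun e => hii ?_)
            exact Z.equivFin.symm.injective (Subtype.ext e))
        rw [le_div_iff₀ (pow_pos h.1 d)]
        exact this.le)
    exact ⟨Z, fun _ _ => hZ⟩
  choose Z hZ using key
  have hs0 : 0 < r i0 ^ ε := Real.rpow_pos_of_pos (hr i0).1 ε
  have hs1 : r i0 ^ ε < 1 := Real.rpow_lt_one (hr i0).1.le (hr i0).2 hε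
  set v := volume (Metric.ball (0 : E d) 1) with hv
  have hvt : v ≠ ⊤ := measure_ball_lt_top.ne
  have bound : ∀ N : ℕ, r i0 ^ N ≤ 1 / 2 → volume (Prod.snd '' F) ≤
      ENNReal.ofReal ((((N : ℝ) + 1) ^ Fintype.card ι * (r i0 ^ ε) ^ N) * (R + Q') ^ d) * v := by
    intro N hN
    let Ks : Finset (ι → ℕ) := (Fintype.piFinset fun _ => Finset.range (N + 1)).filter
      fun κ => ∑ i, κ i = N
    let ρ : (ι → ℕ) → ℝ := fun κ => ∏ i, r i ^ κ i
    have ρ0 : ∀ κ, 0 < ρ κ := fun κ => Finset.prod_pos fun i _ => pow_pos (hr i).1 _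
    have ρ1 : ∀ κ ∈ Ks, ρ κ ≤ r i0 ^ N := fun κ hκ => by
      rw [← (Finset.mem_filter.1 hκ).2, ← Finset.prod_pow_eq_pow_sum]
      exact Finset.prod_le_prod (fun i _ => (pow_pos (hr i).1 _).le)
        fun i _ => pow_le_pow_left₀ (hr i).1.le (hi0 i (Finset.mem_univ _)) _
    have cov : Prod.snd '' F ⊆ ⋃ κ ∈ Ks, ⋃ z ∈ Z (ρ κ),
        Metric.closedBall z.2 ((R + Q') * ρ κ) := by
      rintro _ ⟨p, hp, rfl⟩
      obtain ⟨κ, h1, p', hp', c0, h2, h3⟩ := decomp hF N p hp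
      have hκ : κ ∈ Ks := Finset.mem_filter.2 ⟨Fintype.mem_piFinset.2 fun i =>
        Finset.mem_range.2 (Nat.lt_succ_of_le (h1 ▸ Finset.single_le_sum
          (fun j _ => Nat.zero_le (κ j)) (Finset.mem_univ i))), h1⟩
      obtain ⟨z, hz, h4⟩ := (hZ (ρ κ) (ρ0 κ) ((ρ1 κ hκ).trans hN)).2 c0 h2
      refine mem_iUnion₂.2 ⟨κ, hκ, mem_iUnion₂.2 ⟨z, hz, ?_⟩⟩
      rw [mem_closedBall_iff_norm]
      have e : p.2 - z.2 = ρ κ • p'.2 + (c0.2 - z.2) := by rw [h3]; simp [ρ]; abel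
      have h5 : ‖ρ κ • p'.2‖ ≤ ρ κ * R := by
        rw [norm_smul, Real.norm_of_nonneg (ρ0 κ).le]
        exact mul_le_mul_of_nonneg_left ((norm_snd_le p').trans (hR p' hp')) (ρ0 κ).le
      rw [e]
      exact (norm_add_le _ _).trans (by linarith)
    have one : ∀ κ ∈ Ks, volume (⋃ z ∈ Z (ρ κ), Metric.closedBall z.2 ((R + Q') * ρ κ))
        ≤ ENNReal.ofReal ((r i0 ^ ε) ^ N * (R + Q') ^ d) * v := fun κ hκ => by
      have hρ := ρ0 κ
      refine (measure_biUnion_finset_le _ _).trans ?_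
      simp only [Measure.addHaar_closedBall volume _ (by positivity : 0 ≤ (R + Q') * ρ κ),
        Finset.sum_const, nsmul_eq_mul, finrank_euclideanSpace, Fintype.card_fin]
      rw [← mul_assoc, ← ENNReal.ofReal_natCast, ← ENNReal.ofReal_mul (Nat.cast_nonneg _)]
      refine mul_le_mul_left (ENNReal.ofReal_le_ofReal ?_) _
      have a1 := (hZ (ρ κ) hρ ((ρ1 κ hκ).trans hN)).1
      rw [le_div_iff₀ (pow_pos hρ d)] at a1
      have a2 : ρ κ ^ ε ≤ (r i0 ^ ε) ^ N := by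
        rw [← Real.rpow_natCast, ← Real.rpow_mul (hr i0).1.le, mul_comm,
          Real.rpow_mul (hr i0).1.le, Real.rpow_natCast]
        exact Real.rpow_le_rpow hρ.le (ρ1 κ hκ) hε.le
      rw [mul_pow, mul_comm ((R + Q') ^ d), ← mul_assoc]
      exact mul_le_mul_of_nonneg_right (a1.trans a2) (by positivity)
    have hK : (Ks.card : ℝ) ≤ ((N : ℝ) + 1) ^ Fintype.card ι := by
      have : Ks.card ≤ (N + 1) ^ Fintype.card ι := (Finset.card_filter_le _ _).trans (by simp)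
      exact_mod_cast this
    refine (measure_mono cov).trans ((measure_biUnion_finset_le _ _).trans
      ((Finset.sum_le_card_nsmul _ _ _ one).trans ?_))
    rw [nsmul_eq_mul, ← mul_assoc, ← ENNReal.ofReal_natCast,
      ← ENNReal.ofReal_mul (Nat.cast_nonneg _), mul_assoc (((N : ℝ) + 1) ^ Fintype.card ι)]
    exact mul_le_mul_left (ENNReal.ofReal_le_ofReal
      (mul_le_mul_of_nonneg_right hK (by positivity))) _
  have t1 : Tendsto (fun N : ℕ => ((N : ℝ) + 1) ^ Fintype.card ι * (r i0 ^ ε) ^ N) atTop (𝓝 0) := by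
    have := ((tendsto_pow_const_mul_const_pow_of_abs_lt_one (Fintype.card ι)
      (r := r i0 ^ ε) (by rwa [abs_of_pos hs0])).comp (tendsto_add_atTop_nat 1)).div_const
      (r i0 ^ ε)
    rw [zero_div] at this
    refine this.congr fun N => ?_
    simp only [Function.comp]
    push_cast
    rw [pow_succ (r i0 ^ ε), ← mul_assoc, mul_div_assoc, div_self hs0.ne', mul_one]
  have t2 : Tendsto (fun N : ℕ => ENNReal.ofReal ((((N : ℝ) + 1) ^ Fintype.card ι
      * (r i0 ^ ε) ^ N) * (R + Q') ^ d) * v) atTop (𝓝 0) := by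
    have := ENNReal.Tendsto.mul_const (b := v)
      (ENNReal.tendsto_ofReal (t1.mul_const ((R + Q') ^ d))) (Or.inr hvt)
    simpa using this
  have t3 : ∀ᶠ N : ℕ in atTop, r i0 ^ N ≤ 1 / 2 :=
    (tendsto_pow_atTop_nhds_zero_of_lt_one (hr i0).1.le (hr i0).2).eventually_le_const
      (by norm_num)
  exact absurd (ge_of_tendsto t2 (t3.mono bound)) (not_le.2 hvol)

end Pool.Agent.H122Z.KakHom
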