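import Mathlib

/-!
Identities in law for standard Gaussian vectors.
-/

open MeasureTheory Real Filter Topology Set ProbabilityTheory
open scoped NNReal RealInnerProductSpace

namespace Pool.Agent.H122Z

variable {V : Type*} [NormedAddCommGroup V] [InnerProductSpace ℝ V] [FiniteDimensional ℝ V]
  [MeasurableSpace V] [BorelSpace V]

lemma integral_exp_inner (u : V) :
    ∫ x, Complex.exp ((⟪u, x⟫ : ℝ) * Complex.I) ∂(stdGaussian V) =
      Complex.exp (-(‖u‖ ^ 2 : ℝ) / 2) := by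
  have := charFun_stdGaussian u
  rw [charFun_apply] at this
  simp_rw [real_inner_comm u] at this ⊢
  simpa using this

omit [MeasurableSpace V] [BorelSpace V] in
lemma exists_inner_pair (L : StrongDual ℝ (V × V)) :
    ∃ u v : V, ∀ x y, L (x, y) = ⟪u, x⟫ + ⟪v, y⟫ := by
  refine ⟨(InnerProductSpace.toDual ℝ V).symm (L.comp (.inl ℝ V V)),
    (InnerProductSpace.toDual ℝ V).symm (L.comp (.inr ℝ V V)), fun x y => ?_⟩
  rw [InnerProductSpace.toDual_symm_apply, InnerProductSpace.toDual_symm_apply]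
  simp [← map_add]

lemma law_pair {ρ σ a b : ℝ} (hσ : σ ^ 2 = 1 - ρ ^ 2) (ha : a ^ 2 = ρ) (hb : b ^ 2 = 1 - ρ) :
    ((stdGaussian V).prod (stdGaussian V)).map (fun p => (p.1, ρ • p.1 + σ • p.2)) =
      ((stdGaussian V).prod ((stdGaussian V).prod (stdGaussian V))).map
        (fun q => (a • q.1 + b • q.2.1, a • q.1 + b • q.2.2)) := by
  have : IsProbabilityMeasure (((stdGaussian V).prod (stdGaussian V)).map
    (fun p : V × V => (p.1, ρ • p.1 + σ • p.2))) :=
    Measure.isProbabilityMeasure_map (by fun_prop)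
  have : IsProbabilityMeasure (((stdGaussian V).prod ((stdGaussian V).prod (stdGaussian V))).map
        (fun q : V × V × V => (a • q.1 + b • q.2.1, a • q.1 + b • q.2.2))) :=
    Measure.isProbabilityMeasure_map (by fun_prop)
  apply Measure.ext_of_charFunDual
  ext L
  obtain ⟨u, v, huv⟩ := exists_inner_pair L
  rw [charFunDual_apply, charFunDual_apply, integral_map (by fun_prop) (by fun_prop),
    integral_map (by fun_prop) (by fun_prop)]
  simp_rw [huv]
  have h1 : ∀ p : V × V, Complex.exp ((⟪u, p.1⟫ + ⟪v, ρ • p.1 + σ • p.2⟫ : ℝ) * Complex.I) =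
      Complex.exp ((⟪u + ρ • v, p.1⟫ : ℝ) * Complex.I) *
        Complex.exp ((⟪σ • v, p.2⟫ : ℝ) * Complex.I) := by
    intro p
    rw [← Complex.exp_add]
    congr 1
    simp only [inner_add_left, inner_add_right, real_inner_smul_left, real_inner_smul_right]
    push_cast
    ring
  have h2 : ∀ q : V × V × V,
      Complex.exp ((⟪u, a • q.1 + b • q.2.1⟫ + ⟪v, a • q.1 + b • q.2.2⟫ : ℝ) * Complex.I) =
      Complex.exp ((⟪a • (u + v), q.1⟫ : ℝ) * Complex.I) *
        (Complex.exp ((⟪b • u, q.2.1⟫ : ℝ) * Complex.I) *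
          Complex.exp ((⟪b • v, q.2.2⟫ : ℝ) * Complex.I)) := by
    intro q
    rw [← Complex.exp_add, ← Complex.exp_add]
    congr 1
    simp only [inner_add_left, inner_add_right, real_inner_smul_left, real_inner_smul_right]
    push_cast
    ring
  simp_rw [h1, h2]
  rw [integral_prod_mul (μ := stdGaussian V) (ν := stdGaussian V)
      (fun x : V => Complex.exp ((⟪u + ρ • v, x⟫ : ℝ) * Complex.I))
      (fun y : V => Complex.exp ((⟪σ • v, y⟫ : ℝ) * Complex.I)),
    integral_prod_mul (μ := stdGaussian V) (ν := (stdGaussian V).prod (stdGaussian V))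
      (fun x : V => Complex.exp ((⟪a • (u + v), x⟫ : ℝ) * Complex.I))
      (fun y : V × V => Complex.exp ((⟪b • u, y.1⟫ : ℝ) * Complex.I) *
          Complex.exp ((⟪b • v, y.2⟫ : ℝ) * Complex.I)),
    integral_prod_mul (μ := stdGaussian V) (ν := stdGaussian V)
      (fun x : V => Complex.exp ((⟪b • u, x⟫ : ℝ) * Complex.I))
      (fun y : V => Complex.exp ((⟪b • v, y⟫ : ℝ) * Complex.I))]
  simp_rw [integral_exp_inner]
  rw [← Complex.exp_add, ← Complex.exp_add, ← Complex.exp_add]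
  congr 1
  have key : ‖u + ρ • v‖ ^ 2 + ‖σ • v‖ ^ 2 = ‖a • (u + v)‖ ^ 2 + (‖b • u‖ ^ 2 + ‖b • v‖ ^ 2) := by
    simp only [norm_smul, mul_pow, Real.norm_eq_abs, sq_abs, norm_add_sq_real,
      real_inner_smul_right, hσ, ha, hb]
    ring
  have := congrArg (fun r : ℝ => -(r : ℂ) / 2) key
  simp only [Complex.ofReal_add] at this
  linear_combination this

lemma law_one (u : V) (v : ℝ≥0) (hv : ‖u‖ ^ 2 = v) :
    (stdGaussian V).map (fun x => ⟪u, x⟫) = gaussianReal 0 v := by
  have h := IsGaussian.map_eq_gaussianReal (μ := stdGaussian V) (innerSL ℝ u)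
  rw [integral_strongDual_stdGaussian, variance_dual_stdGaussian, innerSL_apply_norm, hv,
    Real.toNNReal_coe] at h
  exact h

lemma law_two (u w : V) (v₁ v₂ : ℝ≥0) (h₁ : ‖u‖ ^ 2 = v₁) (h₂ : ‖w‖ ^ 2 = v₂) (h : ⟪u, w⟫ = 0) :
    (stdGaussian V).map (fun x => (⟪u, x⟫, ⟪w, x⟫)) =
      (gaussianReal 0 v₁).prod (gaussianReal 0 v₂) := by
  have : IsProbabilityMeasure ((stdGaussian V).map (fun x => (⟪u, x⟫, ⟪w, x⟫))) :=
    Measure.isProbabilityMeasure_map (by fun_prop)
  apply Measure.ext_of_charFunDual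
  ext L
  obtain ⟨α, β, hab⟩ := exists_inner_pair (V := ℝ) L
  rw [charFunDual_apply, charFunDual_apply, integral_map (by fun_prop) (by fun_prop)]
  have h0 : ∀ p : ℝ × ℝ, L p = α * p.1 + β * p.2 := fun p => by
    rw [hab p.1 p.2]; simp [mul_comm]
  simp_rw [h0]
  have h1 : ∀ x : V, α * ⟪u, x⟫ + β * ⟪w, x⟫ = ⟪α • u + β • w, x⟫ := fun x => by
    simp only [inner_add_left, real_inner_smul_left]
  have h2 : ∀ p : ℝ × ℝ, Complex.exp ((α * p.1 + β * p.2 : ℝ) * Complex.I) =
      Complex.exp (α * p.1 * Complex.I) * Complex.exp (β * p.2 * Complex.I) := fun p => by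
    rw [← Complex.exp_add]; push_cast; congr 1; ring
  simp_rw [h1, h2]
  rw [integral_exp_inner, integral_prod_mul (μ := gaussianReal 0 v₁) (ν := gaussianReal 0 v₂)
      (fun x : ℝ => Complex.exp (α * x * Complex.I))
      (fun x : ℝ => Complex.exp (β * x * Complex.I)), ← charFun_apply_real, ← charFun_apply_real,
    charFun_gaussianReal, charFun_gaussianReal, ← Complex.exp_add]
  congr 1
  have key : ‖α • u + β • w‖ ^ 2 = v₁ * α ^ 2 + v₂ * β ^ 2 := by
    simp only [norm_smul, mul_pow, Real.norm_eq_abs, sq_abs, norm_add_sq_real,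
      real_inner_smul_right, real_inner_smul_left, h, h₁, h₂]
    ring
  rw [key]
  push_cast
  ring

/-- the quadratic form of the noise operator -/
noncomputable def QF (ρ σ : ℝ) (f g : V → ℝ) : ℝ :=
  ∫ p, f p.1 * g (ρ • p.1 + σ • p.2) ∂((stdGaussian V).prod (stdGaussian V))

/-- half of the noise operator -/
noncomputable def PF (a b : ℝ) (f : V → ℝ) (z : V) : ℝ := ∫ w, f (a • z + b • w) ∂(stdGaussian V)

lemma QF_eq {ρ σ a b : ℝ} (hσ : σ ^ 2 = 1 - ρ ^ 2) (ha : a ^ 2 = ρ) (hb : b ^ 2 = 1 - ρ)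
    {f g : V → ℝ} (hf : Measurable f) (hg : Measurable g) (hf1 : ∀ x, |f x| ≤ 1)
    (hg1 : ∀ x, |g x| ≤ 1) :
    QF ρ σ f g = ∫ z, PF a b f z * PF a b g z ∂(stdGaussian V) := by
  have hm : Measurable (fun p : V × V => f p.1 * g p.2) := by fun_prop
  have h1 : QF ρ σ f g = ∫ p, f p.1 * g p.2 ∂(((stdGaussian V).prod (stdGaussian V)).map
      (fun p => (p.1, ρ • p.1 + σ • p.2))) := by
    rw [integral_map (by fun_prop) hm.aestronglyMeasurable]; rfl
  rw [h1, law_pair hσ ha hb, integral_map (by fun_prop) hm.aestronglyMeasurable, integral_prod]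
  · congr 1
    ext z
    exact integral_prod_mul (μ := stdGaussian V) (ν := stdGaussian V)
      (fun w => f (a • z + b • w)) (fun w => g (a • z + b • w))
  · refine Integrable.of_bound (Measurable.aestronglyMeasurable (by fun_prop)) 1
      (Eventually.of_forall fun q => ?_)
    rw [Real.norm_eq_abs, abs_mul]
    exact mul_le_one₀ (hf1 _) (abs_nonneg _) (hg1 _)

lemma measurable_PF (a b : ℝ) {f : V → ℝ} (hf : Measurable f) : Measurable (PF a b f) := by
  have : StronglyMeasurable (fun p : V × V => f (a • p.1 + b • p.2)) :=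
    Measurable.stronglyMeasurable (by fun_prop)
  exact (this.integral_prod_right' (ν := stdGaussian V)).measurable

lemma abs_PF_le (a b : ℝ) {f : V → ℝ} (hf1 : ∀ x, |f x| ≤ 1) (z : V) : |PF a b f z| ≤ 1 := by
  have := norm_integral_le_of_norm_le_const (μ := stdGaussian V) (f := fun w => f (a • z + b • w))
    (C := 1) (Eventually.of_forall fun u => by rw [Real.norm_eq_abs]; exact hf1 _)
  unfold PF
  simpa using this

lemma QF_lt {ρ σ : ℝ} (hσ : σ ^ 2 = 1 - ρ ^ 2) (h0 : 0 ≤ ρ) (h1 : ρ ≤ 1)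
    {f g : V → ℝ} (hf : Measurable f) (hg : Measurable g) (hf1 : ∀ x, |f x| ≤ 1)
    (hg1 : ∀ x, |g x| ≤ 1) (h : QF ρ σ g g < QF ρ σ f g) : QF ρ σ g g < QF ρ σ f f := by
  have ha : √ρ ^ 2 = ρ := sq_sqrt h0
  have hb : √(1 - ρ) ^ 2 = 1 - ρ := sq_sqrt (by linarith)
  rw [QF_eq hσ ha hb hg hg hg1 hg1, QF_eq hσ ha hb hf hg hf1 hg1] at h
  rw [QF_eq hσ ha hb hg hg hg1 hg1, QF_eq hσ ha hb hf hf hf1 hf1]
  set F := PF √ρ √(1 - ρ) f
  set G := PF √ρ √(1 - ρ) g
  have hF : Measurable F := measurable_PF _ _ hf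
  have hG : Measurable G := measurable_PF _ _ hg
  have hF1 : ∀ z, |F z| ≤ 1 := abs_PF_le _ _ hf1
  have hG1 : ∀ z, |G z| ≤ 1 := abs_PF_le _ _ hg1
  have hi : ∀ A B : V → ℝ, Measurable A → Measurable B → (∀ z, |A z| ≤ 1) → (∀ z, |B z| ≤ 1) →
      Integrable (fun z => A z * B z) (stdGaussian V) := fun A B hA hB hA1 hB1 =>
    Integrable.of_bound (Measurable.aestronglyMeasurable (by fun_prop)) 1
      (Eventually.of_forall fun q => by
        rw [Real.norm_eq_abs, abs_mul]
        exact mul_le_one₀ (hA1 _) (abs_nonneg _) (hB1 _))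
  have h2 : ∫ z, (2 * (F z * G z) - G z * G z) ∂(stdGaussian V) ≤ ∫ z, F z * F z ∂(stdGaussian V) :=
    integral_mono (((hi F G hF hG hF1 hG1).const_mul 2).sub (hi G G hG hG hG1 hG1))
      (hi F F hF hF hF1 hF1) (fun z => by nlinarith [sq_nonneg (F z - G z)])
  rw [integral_sub ((hi F G hF hG hF1 hG1).const_mul 2) (hi G G hG hG hG1 hG1),
    integral_const_mul] at h2
  linarith

end Pool.Agent.H122Z
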