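import Mathlib

/-!
Definitions for noise stability of periodic sets.
-/

open MeasureTheory ProbabilityTheory

namespace Pool.Agent.H122Z.Noise

/-- Euclidean space of dimension `n`. -/
abbrev E (n : ℕ) : Type := EuclideanSpace ℝ (Fin n)

/-- `Ω` is Borel, `Ω + v_i = Ωᶜ` exactly for every standard basis vector `v_i`, and `-Ω = Ωᶜ` up
to a Lebesgue null set (no set satisfies the last equation at the origin). -/
def IsPeriodic {n : ℕ} (Ω : Set (E n)) : Prop :=
  MeasurableSet Ω ∧ (∀ i : Fin n, (fun x => x + EuclideanSpace.single i (1 : ℝ)) '' Ω = Ωᶜ) ∧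
    ∀ᵐ x : E n, (-x ∈ Ω ↔ x ∉ Ω)

/-- the periodic half space with signs `ε` -/
def halfSpace {n : ℕ} (ε : Fin n → ℝ) : Set (E n) :=
  {x | 0 ≤ Real.sin (Real.pi * ∑ i, ε i * x i)}

/-- noise stability: the probability that `X ∈ A` and `ρ X + √(1 - ρ²) Y ∈ A` for independent
standard Gaussian vectors `X`, `Y` -/
noncomputable def stab {n : ℕ} (ρ : ℝ) (A : Set (E n)) : ENNReal :=
  ((stdGaussian (E n)).prod (stdGaussian (E n)))
    {p | p.1 ∈ A ∧ ρ • p.1 + Real.sqrt (1 - ρ ^ 2) • p.2 ∈ A}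

end Pool.Agent.H122Z.Noise
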