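import Pool.Agent.H122Z.Sq
import Pool.Agent.H122Z.Law
import Pool.Agent.H122Z.NoiseDefs

/-!
A periodic set in dimension six with larger noise stability than the periodic half space.
-/

open MeasureTheory Real Filter Topology Set ProbabilityTheory
open scoped NNReal RealInnerProductSpace

namespace Pool.Agent.H122Z.Noise

/-- the variance used twice below -/
noncomputable def vv : ℝ≥0 := 10 / 3

lemma vv_coe : (vv : ℝ) = 10 / 3 := by simp [vv]
lemma vv_one : 1 ≤ vv := by rw [← NNReal.coe_le_coe, vv_coe]; norm_num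
lemma vv_ne : vv ≠ 0 := by have := vv_one; positivity

/-- weights -/
noncomputable def gw (e : ℝ) (s : ℝ) : ℝ :=
  (1 + e * hs vv (s / 3)) / 2 * ((1 + hs vv (2 / 3 * s)) / 2) * gaussianPDFReal 0 6 s

lemma continuous_gw (e : ℝ) : Continuous (gw e) := by
  have h1 := continuous_hs vv vv_ne
  have h2 := continuous_pdf 6
  unfold gw
  fun_prop

lemma gw_bound (e : ℝ) (he : |e| ≤ 1) : ∃ C, ∀ s, |gw e s| ≤ C * exp (-|s|) := by
  refine ⟨_, fun s => le_trans ?_ (pdf_bound 6 (by norm_num) 0 s)⟩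
  unfold gw
  rw [sub_zero, abs_mul, abs_of_nonneg (gaussianPDFReal_nonneg _ _ _)]
  refine mul_le_of_le_one_left (gaussianPDFReal_nonneg _ _ _) ?_
  have h1 : |e * hs vv (s / 3)| ≤ 1 := by
    rw [abs_mul]; exact mul_le_one₀ he (abs_nonneg _) (abs_hs_le _ _)
  have h2 := abs_hs_le vv (2 / 3 * s)
  rw [abs_mul]
  refine mul_le_one₀ ?_ (abs_nonneg _) ?_
  · rw [abs_le] at h1 ⊢; constructor <;> linarith [h1.1, h1.2]
  · rw [abs_le] at h2 ⊢; constructor <;> linarith [h2.1, h2.2]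

/-- the cross term as a function of the shift -/
noncomputable def jj (δ : ℝ) : ℝ :=
  (∫ s, sqw (s + δ) * gw 1 s) + ∫ s, sqw (s + -δ) * gw (-1) s

lemma exists_jj : ∃ δ, jj 0 < jj δ := by
  obtain ⟨C1, h1⟩ := gw_bound 1 (by simp)
  obtain ⟨C2, h2⟩ := gw_bound (-1) (by simp)
  have d1 := hasDerivAt_sqw_int (continuous_gw 1) h1
  have d2 := hasDerivAt_sqw_int (continuous_gw (-1)) h2
  have d2' : HasDerivAt (fun p : ℝ => ∫ s, sqw (s + -p) * gw (-1) s)
      ((2 * ∑' m : ℤ, (-1 : ℝ) ^ m * gw (-1) m) * (-1)) 0 := by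
    have : HasDerivAt (fun p : ℝ => ∫ s, sqw (s + p) * gw (-1) s)
      (2 * ∑' m : ℤ, (-1 : ℝ) ^ m * gw (-1) m) (-0) := by rw [neg_zero]; exact d2
    exact this.comp (0:ℝ) (hasDerivAt_id (0:ℝ)).neg
  have d : HasDerivAt jj _ 0 := d1.add d2'
  by_contra hcon
  push Not at hcon
  have hmax : IsLocalMax jj 0 := Eventually.of_forall hcon
  have hz := hmax.hasDerivAt_eq_zero d
  have s1 := summable_of_bound h1 _ (fun m => (abs_negOne_zpow m).le)
  have s2 := summable_of_bound h2 _ (fun m => (abs_negOne_zpow m).le)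
  have hpb : ∀ s : ℝ, |gaussianPDFReal 0 6 s| ≤
      ((√(2 * π * (6 : ℝ≥0)))⁻¹ * exp ((6 : ℝ≥0) / 2 + |(0:ℝ)|)) * exp (-|s|) := fun s => by
    have := pdf_bound 6 (by norm_num) 0 s
    rwa [sub_zero, ← abs_of_nonneg (gaussianPDFReal_nonneg 0 6 s)] at this
  have s3 := summable_of_bound hpb (fun m => (-1 : ℝ) ^ m * hs vv (m / 3)) (fun m => by
    rw [abs_mul, abs_negOne_zpow, one_mul]; exact abs_hs_le _ _)
  have s4 := summable_of_bound hpb (fun m => hs vv (m / 3) * hs vv (m / 3)) (fun m => by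
    rw [abs_mul]; exact mul_le_one₀ (abs_hs_le _ _) (abs_nonneg _) (abs_hs_le _ _))
  have e3 : ∑' m : ℤ, (-1 : ℝ) ^ m * hs vv (m / 3) * gaussianPDFReal 0 6 m = 0 := by
    have := (Equiv.neg ℤ).tsum_eq
      (fun m : ℤ => (-1 : ℝ) ^ m * hs vv (m / 3) * gaussianPDFReal 0 6 m)
    have h5 : ∀ m : ℤ, (-1 : ℝ) ^ ((Equiv.neg ℤ) m) * hs vv (((Equiv.neg ℤ) m : ℤ) / 3) *
        gaussianPDFReal 0 6 ((Equiv.neg ℤ) m : ℤ) =
        -((-1 : ℝ) ^ m * hs vv (m / 3) * gaussianPDFReal 0 6 m) := by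
      intro m
      rw [Equiv.neg_apply, negOne_zpow_neg, Int.cast_neg, neg_div, hs_neg vv vv_ne]
      unfold gaussianPDFReal
      simp
    simp_rw [h5, tsum_neg] at this
    linarith
  have e4 : 0 < ∑' m : ℤ, hs vv (m / 3) * hs vv (m / 3) * gaussianPDFReal 0 6 m := by
    refine s4.tsum_pos (fun m => mul_nonneg (mul_self_nonneg _) (gaussianPDFReal_nonneg _ _ _))
      1 ?_
    have := hs_third_pos vv vv_one
    have h6 := gaussianPDFReal_pos 0 6 ((1 : ℤ) : ℝ) (by norm_num)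
    rw [Int.cast_one] at h6 ⊢
    positivity
  have e5 : ∀ m : ℤ, (-1 : ℝ) ^ m * gw 1 m - (-1 : ℝ) ^ m * gw (-1) m =
      1 / 2 * ((-1 : ℝ) ^ m * hs vv (m / 3) * gaussianPDFReal 0 6 m -
        hs vv (m / 3) * hs vv (m / 3) * gaussianPDFReal 0 6 m) := by
    intro m
    have h7 : hs vv (2 / 3 * m) = (-1 : ℝ) ^ m * -hs vv (m / 3) := by
      rw [← hs_neg vv vv_ne, ← hs_add_int]
      congr 1; ring
    have hsq : (-1 : ℝ) ^ m * (-1 : ℝ) ^ m = 1 := by
      rw [← mul_zpow]; simp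
    unfold gw
    rw [h7]
    linear_combination (-(1 / 2) * hs vv (m / 3) ^ 2 * gaussianPDFReal 0 6 m) * hsq
  have e6 := s1.tsum_sub s2
  simp_rw [e5] at e6
  rw [tsum_mul_left, s3.tsum_sub s4, e3] at e6
  linarith

/-- the all ones vector -/
noncomputable def one6 : E 6 := WithLp.toLp 2 (fun _ => (1 : ℝ))

/-- a vector orthogonal to it -/
noncomputable def u6 : E 6 := EuclideanSpace.single 0 (2 : ℝ) - (1 / 3 : ℝ) • one6

lemma inner_one6 (x : E 6) : ⟪one6, x⟫ = ∑ i, x i := by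
  simp [one6, PiLp.inner_apply]

lemma inner_u6 (x : E 6) : ⟪u6, x⟫ = 2 * x 0 - (∑ i, x i) / 3 := by
  rw [u6, inner_sub_left, real_inner_smul_left, inner_one6, EuclideanSpace.inner_single_left]
  simp; ring

lemma norm_one6 : ‖one6‖ ^ 2 = (6 : ℝ≥0) := by
  rw [← real_inner_self_eq_norm_sq, inner_one6]; simp [one6]

lemma norm_u6 : ‖u6‖ ^ 2 = vv := by
  rw [← real_inner_self_eq_norm_sq, inner_u6, vv_coe]
  simp [u6, one6, Finset.sum_sub_distrib]; norm_num

lemma inner_one6_u6 : ⟪one6, u6⟫ = 0 := by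
  rw [real_inner_comm, inner_u6]; simp [one6]; norm_num

/-- the perturbed function -/
noncomputable def FF (δ : ℝ) (x : E 6) : ℝ := (1 + sqw ((∑ i, x i) + δ * sqw (2 * x 0))) / 2

lemma measurable_FF (δ : ℝ) : Measurable (FF δ) := by
  have := measurable_sqw
  unfold FF
  fun_prop

lemma abs_FF_le (δ : ℝ) (x : E 6) : |FF δ x| ≤ 1 := by
  unfold FF
  rcases sqw_cases ((∑ i, x i) + δ * sqw (2 * x 0)) with h | h <;> rw [h] <;> norm_num

lemma integrable_bdd {α : Type*} [MeasurableSpace α] (μ : Measure α) [IsFiniteMeasure μ]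
    {f : α → ℝ} (hf : Measurable f) (C : ℝ) (h : ∀ x, |f x| ≤ C) : Integrable f μ :=
  Integrable.of_bound hf.aestronglyMeasurable C (Eventually.of_forall h)

lemma cross (δ : ℝ) : ∫ x, FF δ x * ((1 + hs vv (2 / 3 * ∑ i, x i)) / 2) ∂(stdGaussian (E 6)) =
    ((∫ s, (gw 1 s + gw (-1) s)) + jj δ) / 2 := by
  have hsm := measurable_sqw
  have hhm := (continuous_hs vv vv_ne).measurable
  set Φ : ℝ × ℝ → ℝ := fun p => (1 + sqw (p.1 + δ * sqw (p.1 / 3 + p.2))) / 2 *
    ((1 + hs vv (2 / 3 * p.1)) / 2) with hΦ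
  have hΦm : Measurable Φ := by simp only [hΦ]; fun_prop
  have hH : ∀ s : ℝ, |(1 + hs vv (2 / 3 * s)) / 2| ≤ 1 := fun s => by
    have h2 := abs_hs_le vv (2 / 3 * s)
    rw [abs_le] at h2 ⊢; constructor <;> linarith [h2.1, h2.2]
  have hΦb : ∀ p, |Φ p| ≤ 1 := fun p => by
    simp only [hΦ]
    rw [abs_mul]
    refine mul_le_one₀ ?_ (abs_nonneg _) (hH _)
    rcases sqw_cases (p.1 + δ * sqw (p.1 / 3 + p.2)) with h | h <;> rw [h] <;> norm_num
  have h1 : ∫ x, FF δ x * ((1 + hs vv (2 / 3 * ∑ i, x i)) / 2) ∂(stdGaussian (E 6)) =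
      ∫ p, Φ p ∂((stdGaussian (E 6)).map (fun x => (⟪one6, x⟫, ⟪u6, x⟫))) := by
    rw [integral_map (by fun_prop) hΦm.aestronglyMeasurable]
    congr 1
    ext x
    simp only [hΦ, FF, inner_one6, inner_u6]
    congr 6
    ring
  rw [h1, law_two one6 u6 6 vv norm_one6 norm_u6 inner_one6_u6,
    integral_prod _ (integrable_bdd _ hΦm 1 hΦb)]
  have h2 : ∀ s : ℝ, ∫ u, Φ (s, u) ∂(gaussianReal 0 vv) =
      (1 + sqw (s + δ) * ((1 + hs vv (s / 3)) / 2) + sqw (s + -δ) * ((1 - hs vv (s / 3)) / 2)) / 2 *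
        ((1 + hs vv (2 / 3 * s)) / 2) := by
    intro s
    have h3 : ∀ u, Φ (s, u) = (1 + (sqw (s + δ) + sqw (s + -δ)) / 2) / 2 *
        ((1 + hs vv (2 / 3 * s)) / 2) + ((sqw (s + δ) - sqw (s + -δ)) / 4 *
        ((1 + hs vv (2 / 3 * s)) / 2)) * sqw (s / 3 + u) := by
      intro u
      simp only [hΦ]
      rcases sqw_cases (s / 3 + u) with h | h <;> rw [h]
      · rw [mul_one]; ring
      · rw [mul_neg, mul_one]; ring_nf
    simp_rw [h3]
    rw [integral_add (integrable_const _) (Integrable.const_mul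
      (integrable_bdd _ (by fun_prop) 1 (fun u => (abs_sqw _).le)) _),
      integral_const, integral_const_mul]
    simp only [probReal_univ, smul_eq_mul, one_mul]
    change _ + _ * hs vv (s / 3) = _
    ring
  simp_rw [h2]
  rw [integral_gaussianReal_eq_integral_smul (by norm_num)]
  obtain ⟨C1, h1⟩ := gw_bound 1 (by simp)
  obtain ⟨C2, h2⟩ := gw_bound (-1) (by simp)
  have i1 := integrable_of_bound (continuous_gw 1) h1
  have i2 := integrable_of_bound (continuous_gw (-1)) h2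
  have i3 : Integrable (fun s => sqw (s + δ) * gw 1 s) :=
    i1.bdd_mul (c := 1) (Measurable.aestronglyMeasurable (by fun_prop))
      (Eventually.of_forall fun x => by rw [Real.norm_eq_abs, abs_sqw])
  have i4 : Integrable (fun s => sqw (s + -δ) * gw (-1) s) :=
    i2.bdd_mul (c := 1) (Measurable.aestronglyMeasurable (by fun_prop))
      (Eventually.of_forall fun x => by rw [Real.norm_eq_abs, abs_sqw])
  unfold jj
  have i5 : Integrable (fun s => gw 1 s + gw (-1) s) := i1.add i2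
  have i6 : Integrable (fun s => sqw (s + δ) * gw 1 s + sqw (s + -δ) * gw (-1) s) := i3.add i4
  rw [← integral_add i3 i4, ← integral_add i5 i6, ← integral_div]
  congr 1
  ext s
  simp only [gw, smul_eq_mul]
  ring

/-- the half space -/
abbrev BB : Set (E 6) := halfSpace (fun _ : Fin 6 => (1 : ℝ))

lemma mem_BB (x : E 6) : x ∈ BB ↔ 0 ≤ sin (π * ∑ i, x i) := by
  simp [BB, halfSpace]

lemma measurableSet_BB : MeasurableSet BB := by
  have : BB = {x : E 6 | 0 ≤ sin (π * ∑ i, x i)} := by ext x; exact mem_BB x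
  rw [this]
  exact measurableSet_le measurable_const (by fun_prop)

lemma indicator_BB (x : E 6) : BB.indicator (1 : E 6 → ℝ) x =
    if 0 ≤ sin (π * ∑ i, x i) then (1 : ℝ) else 0 := by
  by_cases h : 0 ≤ sin (π * ∑ i, x i)
  · rw [if_pos h, indicator_of_mem ((mem_BB x).2 h)]; rfl
  · rw [if_neg h, indicator_of_notMem (fun h' => h ((mem_BB x).1 h'))]

lemma ite_sin (t : ℝ) (ht : t ∉ range (Int.cast : ℤ → ℝ)) :
    (if 0 ≤ sin (π * t) then (1 : ℝ) else 0) = (1 + sqw t) / 2 := by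
  have h1 : 0 < Int.fract t := Int.fract_pos.2 (fun h => ht ⟨_, h.symm⟩)
  have h2 := Int.fract_lt_one t
  have h3 : 0 < sin (π * Int.fract t) :=
    sin_pos_of_pos_of_lt_pi (by positivity) (by nlinarith [pi_pos])
  have h4 : sin (π * t) = sqw t * sin (π * Int.fract t) := by
    unfold sqw
    rw [← Real.sin_add_int_mul_pi]
    congr 1
    unfold Int.fract
    ring
  rw [h4]
  rcases sqw_cases t with h | h <;> rw [h]
  · rw [if_pos (by linarith)]; norm_num
  · rw [if_neg (by linarith)]; norm_num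

lemma QF_BB (f : E 6 → ℝ) (hf : Measurable f) (hf1 : ∀ x, |f x| ≤ 1) :
    QF (2 / 3) (√(1 - (2 / 3) ^ 2)) f (BB.indicator 1) =
      ∫ x, f x * ((1 + hs vv (2 / 3 * ∑ i, x i)) / 2) ∂(stdGaussian (E 6)) := by
  have hm : Measurable (BB.indicator (1 : E 6 → ℝ)) := measurable_const.indicator measurableSet_BB
  unfold QF
  rw [integral_prod]
  swap
  · refine integrable_bdd _ (by fun_prop) 1 (fun p => ?_)
    rw [abs_mul]
    refine mul_le_one₀ (hf1 _) (abs_nonneg _) ?_
    by_cases h : (2 / 3 : ℝ) • p.1 + √(1 - (2 / 3) ^ 2) • p.2 ∈ BB <;> simp [h]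
  congr 1
  ext x
  dsimp only
  rw [integral_const_mul]
  congr 1
  set σ : ℝ := √(1 - (2 / 3) ^ 2) with hσ
  have hσ2 : σ ^ 2 = 5 / 9 := by rw [hσ, sq_sqrt (by norm_num)]; norm_num
  have hl := law_one (σ • one6) vv (by
    rw [norm_smul, mul_pow, norm_one6, Real.norm_eq_abs, sq_abs, hσ2, vv_coe]; norm_num)
  have h1 : ∀ y : E 6, BB.indicator (1 : E 6 → ℝ) ((2 / 3 : ℝ) • x + σ • y) =
      (fun u => if 0 ≤ sin (π * (2 / 3 * ∑ i, x i + u)) then (1 : ℝ) else 0) ⟪σ • one6, y⟫ := by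
    intro y
    have : ∑ i, ((2 / 3 : ℝ) • x + σ • y) i = 2 / 3 * ∑ i, x i + ⟪σ • one6, y⟫ := by
      rw [real_inner_smul_left, inner_one6]
      simp [Finset.sum_add_distrib, Finset.mul_sum]
    rw [indicator_BB, this]
  simp only [h1]
  rw [← integral_map (f := fun u => if 0 ≤ sin (π * (2 / 3 * ∑ i, x i + u)) then (1 : ℝ) else 0)
    (by fun_prop), hl]
  · have := nullSingletonClass_gaussianReal (μ := 0) vv_ne
    have h2 : ∫ u, (if 0 ≤ sin (π * (2 / 3 * ∑ i, x i + u)) then (1 : ℝ) else 0)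
        ∂(gaussianReal 0 vv) = ∫ u, (1 + sqw (2 / 3 * ∑ i, x i + u)) / 2 ∂(gaussianReal 0 vv) := by
      refine integral_congr_ae ?_
      filter_upwards [ae_not_int (gaussianReal 0 vv) (2 / 3 * ∑ i, x i)] with u hu
      exact ite_sin _ hu
    have hsm := measurable_sqw
    rw [h2, integral_div, integral_add (integrable_const _)
      (integrable_bdd _ (by fun_prop) 1 (fun u => (abs_sqw _).le))]
    simp [hs]
  · refine Measurable.aestronglyMeasurable ?_
    exact Measurable.ite (measurableSet_le measurable_const (by fun_prop)) measurable_const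
      measurable_const

lemma stab_eq (ρ : ℝ) (A : Set (E 6)) (hA : MeasurableSet A) :
    stab ρ A = ENNReal.ofReal (QF ρ (√(1 - ρ ^ 2)) (A.indicator 1) (A.indicator 1)) := by
  have hm : MeasurableSet {p : E 6 × E 6 | p.1 ∈ A ∧ ρ • p.1 + √(1 - ρ ^ 2) • p.2 ∈ A} :=
    (measurable_fst hA).inter ((show Measurable
      (fun p : E 6 × E 6 => ρ • p.1 + √(1 - ρ ^ 2) • p.2) by fun_prop) hA)
  unfold stab QF
  rw [← ofReal_measureReal, ← integral_indicator_one hm]
  congr 2
  ext p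
  by_cases h1 : p.1 ∈ A <;> by_cases h2 : ρ • p.1 + √(1 - ρ ^ 2) • p.2 ∈ A <;> simp [h1, h2]

/-- the perturbed set -/
def Om (δ : ℝ) : Set (E 6) := {x | sqw ((∑ i, x i) + δ * sqw (2 * x 0)) = 1}

lemma measurableSet_Om (δ : ℝ) : MeasurableSet (Om δ) := by
  have := measurable_sqw
  exact measurableSet_eq_fun (by fun_prop) measurable_const

lemma indicator_Om (δ : ℝ) : (Om δ).indicator (1 : E 6 → ℝ) = FF δ := by
  ext x
  unfold FF
  rcases sqw_cases ((∑ i, x i) + δ * sqw (2 * x 0)) with h | h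
  · rw [indicator_of_mem (show x ∈ Om δ from h), h]; simp
  · rw [indicator_of_notMem (show x ∉ Om δ from fun h' => by
      have h'' : sqw _ = 1 := h'
      rw [h] at h''; norm_num at h''), h]; simp

lemma ae_vol (u : E 6) (hu : u ≠ 0) (t : ℝ) :
    ∀ᵐ x : E 6, t + ⟪u, x⟫ ∉ range (Int.cast : ℤ → ℝ) := by
  have hsurj : Function.Surjective ((innerSL ℝ u : E 6 →L[ℝ] ℝ) : E 6 →ₗ[ℝ] ℝ) := by
    intro r
    refine ⟨(r / ‖u‖ ^ 2) • u, ?_⟩
    have : ‖u‖ ≠ 0 := norm_ne_zero_iff.2 hu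
    simp
    field_simp
  have hms : MeasurableSet {r : ℝ | t + r ∉ range (Int.cast : ℤ → ℝ)} :=
    ((measurable_const_add t) (countable_range _).measurableSet).compl
  exact (ae_comp_linearMap_mem_iff _ volume volume hsurj hms).2 (ae_not_int volume t)

lemma isPeriodic_Om (δ : ℝ) : IsPeriodic (Om δ) := by
  refine ⟨measurableSet_Om δ, fun i => ?_, ?_⟩
  · have key : ∀ x : E 6, x + EuclideanSpace.single i (1 : ℝ) ∈ Om δ ↔ x ∉ Om δ := by
      intro x
      have h1 : ∑ j, (x + EuclideanSpace.single i (1 : ℝ)) j = (∑ j, x j) + 1 := by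
        simp [Finset.sum_add_distrib]
      have h2 : sqw (2 * (x + EuclideanSpace.single i (1 : ℝ)) 0) = sqw (2 * x 0) := by
        by_cases h : (0 : Fin 6) = i
        · subst h
          have : 2 * (x + EuclideanSpace.single (0 : Fin 6) (1 : ℝ)) 0 = 2 * x 0 + 1 + 1 := by
            simp; ring
          rw [this, sqw_add_one, sqw_add_one, neg_neg]
        · simp [h]
      simp only [Om, mem_ofPred_eq]
      rw [h1, h2, add_right_comm, sqw_add_one]
      rcases sqw_cases ((∑ i, x i) + δ * sqw (2 * x 0)) with h | h <;> rw [h] <;> norm_num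
    ext y
    simp only [mem_image, mem_compl_iff]
    constructor
    · rintro ⟨x, hx, rfl⟩ h
      exact (key x).1 h hx
    · intro h
      refine ⟨y - EuclideanSpace.single i (1 : ℝ), ?_, by simp⟩
      by_contra h'
      exact h (by simpa using (key _).2 h')
  · have hone : one6 ≠ 0 := fun h => by
      have := norm_one6
      rw [h] at this; norm_num at this
    have htwo : (EuclideanSpace.single 0 (2 : ℝ) : E 6) ≠ 0 := fun h => by
      have := congrArg (fun x : E 6 => x 0) h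
      simp at this
    filter_upwards [ae_vol one6 hone δ, ae_vol one6 hone (-δ), ae_vol _ htwo 0] with x h1 h2 h3
    rw [inner_one6] at h1 h2
    rw [EuclideanSpace.inner_single_left, zero_add] at h3
    simp only [conj_trivial] at h3
    have h4 : (∑ i, x i) + δ * sqw (2 * x 0) ∉ range (Int.cast : ℤ → ℝ) := by
      rcases sqw_cases (2 * x 0) with h | h <;> rw [h]
      · rwa [mul_one, add_comm]
      · rwa [mul_neg, mul_one, add_comm]
    have h5 : (∑ i, (-x) i) + δ * sqw (2 * (-x) 0) = -((∑ i, x i) + δ * sqw (2 * x 0)) := by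
      have : 2 * (-x) 0 = -(2 * x 0) := by simp
      rw [this, sqw_neg _ h3]
      simp; ring
    simp only [Om, mem_ofPred_eq]
    rw [h5, sqw_neg _ h4]
    rcases sqw_cases ((∑ i, x i) + δ * sqw (2 * x 0)) with h | h <;> rw [h] <;> norm_num

theorem main : ∃ Ω : Set (E 6), IsPeriodic Ω ∧ stab (2 / 3) BB < stab (2 / 3) Ω := by
  obtain ⟨δ, hδ⟩ := exists_jj
  refine ⟨Om δ, isPeriodic_Om δ, ?_⟩
  have hm : Measurable (BB.indicator (1 : E 6 → ℝ)) := measurable_const.indicator measurableSet_BB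
  have hb : ∀ x, |BB.indicator (1 : E 6 → ℝ) x| ≤ 1 := fun x => by
    by_cases h : x ∈ BB <;> simp [h]
  have h1 : QF (2 / 3) (√(1 - (2 / 3) ^ 2)) (BB.indicator (1 : E 6 → ℝ)) (BB.indicator 1) <
      QF (2 / 3) (√(1 - (2 / 3) ^ 2)) (FF δ) (BB.indicator 1) := by
    rw [QF_BB _ hm hb, QF_BB _ (measurable_FF δ) (abs_FF_le δ), cross δ]
    have h2 : ∫ x, BB.indicator (1 : E 6 → ℝ) x * ((1 + hs vv (2 / 3 * ∑ i, x i)) / 2)
        ∂(stdGaussian (E 6)) =
        ∫ x, FF 0 x * ((1 + hs vv (2 / 3 * ∑ i, x i)) / 2) ∂(stdGaussian (E 6)) := by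
      refine integral_congr_ae ?_
      have := nullSingletonClass_gaussianReal (μ := 0) (v := 6) (by norm_num)
      have h3 := ae_not_int (gaussianReal 0 6) 0
      rw [← law_one one6 6 norm_one6] at h3
      have h4 := ae_of_ae_map (by fun_prop) h3
      filter_upwards [h4] with x hx
      rw [zero_add, inner_one6] at hx
      have := ite_sin _ hx
      rw [indicator_BB, this]
      simp only [FF, zero_mul, add_zero]
    rw [h2, cross 0]
    linarith
  have h2 := QF_lt (sq_sqrt (by norm_num)) (by norm_num) (by norm_num) (measurable_FF δ) hm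
    (abs_FF_le δ) hb h1
  rw [stab_eq _ _ measurableSet_BB, stab_eq _ _ (measurableSet_Om δ), indicator_Om]
  refine (ENNReal.ofReal_lt_ofReal_iff_of_nonneg ?_).2 h2
  unfold QF
  refine integral_nonneg (fun p => mul_nonneg ?_ ?_) <;>
    exact indicator_nonneg (fun _ _ => zero_le_one) _

end Pool.Agent.H122Z.Noise
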