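import Mathlib

set_option autoImplicit false

namespace Pool.Agent.H122Z.Srt

open Finset

noncomputable def H (n : ℕ) : ℝ := ∑ i ∈ range n, 1 / ((i : ℝ) + 1)

theorem H_succ (n : ℕ) : H (n + 1) = H n + 1 / ((n : ℝ) + 1) := sum_range_succ _ _

theorem H_facts (h0 : 7.48547 ≤ H 1000 ∧ H 1000 ≤ 7.485471) : ∀ n : ℕ, 1000 ≤ n →
    7.48 ≤ H n ∧ H n ≤ 0.0075 * n ∧ H n ^ 2 ≤ 0.0561 * n := by
  intro n hn
  induction n, hn using Nat.le_induction with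
  | base => refine ⟨by linarith [h0.1], by push_cast; linarith [h0.2], ?_⟩
            push_cast; nlinarith [h0.1, h0.2]
  | succ n hn ih =>
    obtain ⟨a1, a2, a3⟩ := ih
    have hn' : (1000 : ℝ) ≤ n := by exact_mod_cast hn
    have b0 : 0 < 1 / ((n : ℝ) + 1) := by positivity
    have b1 : 1 / ((n : ℝ) + 1) ≤ 0.001 := by
      rw [div_le_iff₀ (by positivity)]; linarith
    have b2 : H n * (1 / ((n : ℝ) + 1)) ≤ 0.0075 := by
      rw [mul_one_div, div_le_iff₀ (by positivity)]; linarith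
    rw [H_succ]; push_cast
    refine ⟨by linarith, by linarith, by nlinarith⟩

theorem conv_split (β y : ℕ → ℝ) (n : ℕ) : ∑ i ∈ range (n + 1), β i * y (n - i)
    = ∑ j ∈ range (n + 1), y j + ∑ i ∈ range (n + 1), (β i - 1) * y (n - i) := by
  rw [← sum_flip y, ← sum_add_distrib]
  exact sum_congr rfl fun i _ => by ring

theorem conv_bd {β y : ℕ → ℝ} {n : ℕ} {G : ℝ} (b0 : β 0 = 0)
    (hb : ∀ i, 1 ≤ i → i ≤ n → 1 ≤ β i) (hy0 : ∀ j, 0 ≤ y j) (hy : ∀ j ≤ n, y j ≤ G) :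
    -G ≤ ∑ i ∈ range (n + 1), (β i - 1) * y (n - i) ∧
    ∑ i ∈ range (n + 1), (β i - 1) * y (n - i) ≤ (∑ i ∈ range (n + 1), (β i - 1) + 1) * G := by
  rw [sum_range_succ', sum_range_succ' (fun i => β i - 1), b0]
  have h1 : 0 ≤ ∑ i ∈ range n, (β (i + 1) - 1) * y (n - (i + 1)) :=
    sum_nonneg fun i hi => mul_nonneg (by
      have := hb (i + 1) (by omega) (by have := mem_range.1 hi; omega); linarith) (hy0 _)
  have h2 : ∑ i ∈ range n, (β (i + 1) - 1) * y (n - (i + 1))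
      ≤ (∑ i ∈ range n, (β (i + 1) - 1)) * G := by
    rw [sum_mul]
    exact sum_le_sum fun i hi => mul_le_mul_of_nonneg_left (hy _ (by omega)) (by
      have := hb (i + 1) (by omega) (by have := mem_range.1 hi; omega); linarith)
  have h3 := hy n le_rfl
  have h4 := hy0 n
  simp only [Nat.sub_zero]
  constructor
  · linarith
  · nlinarith

theorem conv_dd {β : ℕ → ℝ} {n : ℕ} (b0 : β 0 = 0)
    (hb : ∀ i, 1 ≤ i → i ≤ n → 1 ≤ β i ∧ i * (β i - 1) ≤ 3 / 2) :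
    |(n : ℝ) * ∑ i ∈ range (n + 1), (β i - 1) * (β (n - i) - 1)|
      ≤ 3 * (∑ i ∈ range (n + 1), (β i - 1) + 2) := by
  have hA : ∑ i ∈ range (n + 1), |β i - 1| = ∑ i ∈ range (n + 1), (β i - 1) + 2 := by
    rw [sum_range_succ', sum_range_succ' (fun i => β i - 1), b0]
    have : ∑ i ∈ range n, |β (i + 1) - 1| = ∑ i ∈ range n, (β (i + 1) - 1) :=
      sum_congr rfl fun i hi => abs_of_nonneg (by
        have := (hb (i + 1) (by omega) (by have := mem_range.1 hi; omega)).1; linarith)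
    rw [this]; norm_num; ring
  have hK : ∀ i ≤ n, |(i : ℝ) * (β i - 1)| ≤ 3 / 2 := fun i hi => by
    rcases Nat.eq_zero_or_pos i with rfl | h
    · norm_num
    · obtain ⟨a, b⟩ := hb i h hi
      rw [abs_of_nonneg (mul_nonneg (Nat.cast_nonneg _) (by linarith))]; exact b
  rw [mul_sum, ← hA]
  refine (abs_sum_le_sum_abs _ _).trans ?_
  have e : 3 * ∑ i ∈ range (n + 1), |β i - 1| = ∑ i ∈ range (n + 1),
      (3 / 2 * |β (n - i) - 1| + 3 / 2 * |β i - 1|) := by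
    rw [sum_add_distrib, ← mul_sum, ← mul_sum, sum_flip (fun i => |β i - 1|)]; ring
  rw [e]
  refine sum_le_sum fun i hi => ?_
  have hi' : i ≤ n := by have := mem_range.1 hi; omega
  have e2 : (n : ℝ) * ((β i - 1) * (β (n - i) - 1)) = (i * (β i - 1)) * (β (n - i) - 1)
      + (((n - i : ℕ) : ℝ) * (β (n - i) - 1)) * (β i - 1) := by
    rw [Nat.cast_sub hi']; ring
  rw [e2]
  refine (abs_add_le _ _).trans ?_
  rw [abs_mul (i * (β i - 1)), abs_mul (((n - i : ℕ) : ℝ) * (β (n - i) - 1))]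
  exact add_le_add (mul_le_mul_of_nonneg_right (hK i hi') (abs_nonneg _))
    (mul_le_mul_of_nonneg_right (hK _ (by omega)) (abs_nonneg _))

noncomputable def FF (ρ : ℝ) (β : ℕ → ℝ) (n : ℕ) : ℝ :=
  ∑ i ∈ range (n + 1), (β i - 1) - ρ * H n / 2

noncomputable def TT (n : ℕ) : ℝ := 2 * (H n ^ 2 + 2 * H n + 3) / ((n : ℝ) + 1)

noncomputable def WW (ρ : ℝ) (γ : ℕ → ℝ) (n : ℕ) : ℝ :=
  (∑ j ∈ range (n + 1), γ j) / ((n : ℝ) + 1) - ρ * H (n + 1)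

structure Inv (ρ : ℝ) (β γ κ : ℕ → ℝ) (n : ℕ) : Prop where
  j1 : ∀ i, 1 ≤ i → i ≤ n → 1 ≤ β i ∧ i * (β i - 1) ≤ 3 / 2
  j2 : ∀ j ≤ n, γ j ≤ ρ * H n + 1.3
  j3 : 0.98 ≤ γ n - ρ * H n
  j4 : -0.45 ≤ WW ρ γ n - TT n
  j5 : WW ρ γ n + TT n ≤ -0.14
  j6 : ∀ j ≤ n, κ j ≤ 1.6 * H n ^ 2
  j7 : ∑ j ∈ range (n + 1), κ j ≤ 1.2 * H n ^ 2 * ((n : ℝ) + 1)

structure Sys (ρ : ℝ) (β γ κ : ℕ → ℝ) : Prop where
  r1 : 1.4329 ≤ ρ
  r2 : ρ ≤ 1.433
  b0 : β 0 = 0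
  g0 : ∀ j, 0 ≤ γ j
  k0 : ∀ j, 0 ≤ κ j
  e1 : ∀ n : ℕ, 1 ≤ n → ((n : ℝ) + 1) * β (n + 1) + γ n
    = ρ * β n + ∑ i ∈ range (n + 1), β i * β (n - i)
  e2 : ∀ n : ℕ, ((n : ℝ) + 1) * γ (n + 1) + κ n = ρ ^ 2 * β n
    + ρ * ∑ i ∈ range (n + 1), β i * β (n - i) + ∑ i ∈ range (n + 1), β i * γ (n - i)
  e3 : ∀ n : ℕ, ((n : ℝ) + 1) * κ (n + 1) ≤ ρ ^ 2 * γ n
    + ρ * ∑ i ∈ range (n + 1), β i * γ (n - i) + ∑ i ∈ range (n + 1), β i * κ (n - i)

theorem phi_bd {ρ h S P b D k : ℝ} (r1 : 1.4329 ≤ ρ) (r2 : ρ ≤ 1.433) (hh : 7.48 ≤ h)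
    (s1 : 0.044 ≤ S - ρ * h / 2) (s2 : S - ρ * h / 2 ≤ 0.392) (p1 : -0.03 ≤ P) (p2 : P ≤ 0.03)
    (b1 : 1 ≤ b) (b2 : b ≤ 1.002) (d1 : -(ρ * h + 1.3) ≤ D) (d2 : D ≤ (S + 1) * (ρ * h + 1.3))
    (k1 : 0 ≤ k) (k2 : k ≤ 1.6 * h ^ 2) :
    -(2 * h ^ 2) ≤ ρ ^ 2 * b + ρ * (2 * S + P) + D - k ∧
      ρ ^ 2 * b + ρ * (2 * S + P) + D - k ≤ 2 * h ^ 2 := by
  have a1 : ρ * h ≤ 1.433 * h := by nlinarith
  have a2 : 0 ≤ ρ * h := by nlinarith
  have a3 : ρ ^ 2 * b ≤ 2.1 := by nlinarith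
  have a4 : 0 ≤ ρ ^ 2 * b := by positivity
  have a5 : 0 ≤ ρ * (2 * S + P) := mul_nonneg (by linarith) (by linarith)
  have a6 : ρ * (2 * S + P) ≤ 1.433 * (1.433 * h + 0.82) :=
    mul_le_mul r2 (by linarith) (by linarith) (by norm_num)
  have a7 : (S + 1) * (ρ * h + 1.3) ≤ (0.7165 * h + 1.392) * (1.433 * h + 1.3) :=
    mul_le_mul (by linarith) (by linarith) (by linarith) (by linarith)
  constructor <;> nlinarith

theorem kap_bd {ρ h m S g W D E : ℝ} (r1 : 1.4329 ≤ ρ) (r2 : ρ ≤ 1.433) (hh : 7.48 ≤ h)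
    (hm : 1000 ≤ m) (h1 : h ≤ 0.0075 * m) (h2 : h ^ 2 ≤ 0.0561 * m)
    (s1 : 0.044 ≤ S - ρ * h / 2) (s2 : S - ρ * h / 2 ≤ 0.392) (g2 : g ≤ ρ * h + 1.3)
    (hW : W ≤ 0) (d2 : D ≤ (S + 1) * (ρ * h + 1.3)) (e2 : E ≤ (S + 1) * (1.6 * h ^ 2)) :
    ρ ^ 2 * g + ρ * (m * W + ρ * h * m + ρ + D) + E ≤ 2.4 * h * m := by
  have a1 : ρ * h ≤ 1.433 * h := by nlinarith
  have a2 : 0 ≤ ρ * h := by nlinarith
  have a3 : S + 1 ≤ 0.91 * h := by linarith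
  have a4 : ρ * h + 1.3 ≤ 1.61 * h := by linarith
  have a5 : D ≤ 0.91 * h * (1.61 * h) :=
    d2.trans (mul_le_mul a3 a4 (by linarith) (by linarith))
  have a6 : E ≤ 0.91 * h * (1.6 * (0.0561 * m)) :=
    e2.trans (mul_le_mul a3 (by linarith) (by positivity) (by linarith))
  have a7 : ρ ^ 2 * g ≤ 2.1 * (1.61 * h) := by
    have : ρ ^ 2 * g ≤ ρ ^ 2 * (1.61 * h) := mul_le_mul_of_nonneg_left (by linarith) (by positivity)
    have : ρ ^ 2 * (1.61 * h) ≤ 2.1 * (1.61 * h) :=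
      mul_le_mul_of_nonneg_right (by nlinarith) (by linarith)
    linarith
  have hm0 : 0 ≤ h * m := by positivity
  have a8 : h * h ≤ 0.0075 * (h * m) := by nlinarith
  have a9 : m * W ≤ 0 := by nlinarith
  have a10 : ρ * h * m ≤ 1.433 * (h * m) := by nlinarith
  have a11 : h ≤ 0.001 * (h * m) := by nlinarith
  have a12 : ρ * (m * W + ρ * h * m + ρ + D) ≤ 1.433 * (1.433 * (h * m) + h + 0.011 * (h * m)) := by
    refine (mul_le_mul_of_nonneg_left (c := 1.433 * (h * m) + h + 0.011 * (h * m)) ?_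
      (by linarith)).trans (mul_le_mul_of_nonneg_right r2 (by linarith))
    nlinarith
  nlinarith

theorem step_inv (h0 : 7.48547 ≤ H 1000 ∧ H 1000 ≤ 7.485471) {ρ : ℝ} {β γ κ : ℕ → ℝ}
    (hs : Sys ρ β γ κ) {n : ℕ} (hn : 1000 ≤ n) (hI : Inv ρ β γ κ n)
    (f1 : 0.044 ≤ FF ρ β n) (f2 : FF ρ β n ≤ 0.392) :
    Inv ρ β γ κ (n + 1) ∧ ∃ X : ℝ, 0.2 ≤ X ∧ X ≤ 0.65 ∧
      ((n : ℝ) + 1) * (FF ρ β (n + 1) - FF ρ β n) = 2 * FF ρ β n - X := by
  obtain ⟨r1, r2, b0, g0, k0, e1, e2, e3⟩ := hs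
  obtain ⟨j1, j2, j3, j4, j5, j6, j7⟩ := hI
  obtain ⟨hh, h1, h2⟩ := H_facts h0 n hn
  have hn' : (1000 : ℝ) ≤ n := by exact_mod_cast hn
  replace e1 := e1 n (by omega)
  replace e2 := e2 n
  replace e3 := e3 n
  have hb1 : ∀ i, 1 ≤ i → i ≤ n → 1 ≤ β i := fun i a b => (j1 i a b).1
  have cD := conv_bd b0 hb1 g0 j2
  have cE := (conv_bd b0 hb1 k0 j6).2
  have cP := conv_dd b0 j1
  have eβ : ∑ i ∈ range (n + 1), β i * β (n - i) = ((n : ℝ) + 1)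
      + 2 * ∑ i ∈ range (n + 1), (β i - 1)
      + ∑ i ∈ range (n + 1), (β i - 1) * (β (n - i) - 1) := by
    have : ∑ i ∈ range (n + 1), β i * β (n - i) = ∑ i ∈ range (n + 1),
        (1 + (β i - 1) + (β (n - i) - 1) + (β i - 1) * (β (n - i) - 1)) :=
      sum_congr rfl fun i _ => by ring
    rw [this, sum_add_distrib, sum_add_distrib, sum_add_distrib, sum_flip (fun i => β i - 1)]
    simp; ring
  rw [conv_split β γ] at e2 e3
  rw [conv_split β κ] at e3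
  rw [eβ] at e1 e2
  have eF : FF ρ β (n + 1) = FF ρ β n + (β (n + 1) - 1) - ρ * (1 / ((n : ℝ) + 1)) / 2 := by
    rw [FF, FF, sum_range_succ, H_succ]; ring
  have eW : WW ρ γ (n + 1) = (∑ j ∈ range (n + 1), γ j + γ (n + 1)) / ((n : ℝ) + 1 + 1)
      - ρ * (H n + 1 / ((n : ℝ) + 1) + 1 / ((n : ℝ) + 1 + 1)) := by
    rw [WW, sum_range_succ, H_succ, H_succ]; push_cast; ring
  have eT : TT (n + 1) = 2 * ((H n + 1 / ((n : ℝ) + 1)) ^ 2 + 2 * (H n + 1 / ((n : ℝ) + 1)) + 3)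
      / ((n : ℝ) + 1 + 1) := by
    rw [TT, H_succ]; push_cast; ring
  have eZ : ∑ j ∈ range (n + 1 + 1), κ j = ∑ j ∈ range (n + 1), κ j + κ (n + 1) :=
    sum_range_succ _ _
  have eU : ∑ j ∈ range (n + 1), γ j
      = ((n : ℝ) + 1) * WW ρ γ n + ρ * H n * ((n : ℝ) + 1) + ρ := by
    rw [WW, H_succ]; field_simp; ring
  have eT0 : TT n = 2 * (H n ^ 2 + 2 * H n + 3) / ((n : ℝ) + 1) := rfl
  have eH := H_succ n
  have jn := j1 n (by omega) le_rfl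
  have gn := j2 n le_rfl
  have kn := j6 n le_rfl
  have kn0 := k0 n
  rw [FF] at f1 f2
  have eF0 : FF ρ β n = ∑ i ∈ range (n + 1), (β i - 1) - ρ * H n / 2 := rfl
  generalize ∑ i ∈ range (n + 1), (β i - 1) * (β (n - i) - 1) = P at *
  generalize ∑ i ∈ range (n + 1), (β i - 1) * γ (n - i) = D at *
  generalize ∑ i ∈ range (n + 1), (β i - 1) * κ (n - i) = E at *
  generalize ∑ i ∈ range (n + 1), (β i - 1) = S at *
  generalize ∑ j ∈ range (n + 1), γ j = U at *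
  generalize ∑ j ∈ range (n + 1), κ j = Z at *
  generalize WW ρ γ n = W at *
  generalize TT n = T at *
  generalize H n = h at *
  have a1 : ρ * h ≤ 1.433 * h := mul_le_mul_of_nonneg_right r2 (by linarith only [hh])
  obtain ⟨p1, p2⟩ := abs_le.1 cP
  have p3 : -0.03 ≤ P := by
    by_contra hc
    have : (n : ℝ) * P ≤ n * (-0.03) := mul_le_mul_of_nonneg_left (by linarith) (by linarith)
    linarith
  have p4 : P ≤ 0.03 := by
    by_contra hc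
    have : (n : ℝ) * 0.03 ≤ n * P := mul_le_mul_of_nonneg_left (by linarith) (by linarith)
    linarith
  have b2 : β n ≤ 1.002 := by
    by_contra hc
    have : (n : ℝ) * 0.002 ≤ n * (β n - 1) := mul_le_mul_of_nonneg_left (by linarith) (by linarith)
    linarith [jn.2]
  obtain ⟨q1, q2⟩ := phi_bd r1 r2 hh f1 f2 p3 p4 jn.1 b2 cD.1 cD.2 kn0 kn
  obtain ⟨m, hm⟩ : ∃ m : ℝ, m = (n : ℝ) + 1 := ⟨_, rfl⟩
  rw [← hm] at e1 e2 e3 eF eT eH eW j7 eU eT0 ⊢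
  have hm0 : 0 < m := by linarith
  have hT0 : 0 ≤ T := by rw [eT0]; positivity
  have q3 := kap_bd (m := m) (W := W) r1 r2 hh (by linarith) (by linarith) (by linarith) f1 f2 gn
    (by linarith) cD.2 cE
  obtain ⟨φ, hφ⟩ : ∃ φ, φ = ρ ^ 2 * β n + ρ * (2 * S + P) + D - κ n := ⟨_, rfl⟩
  rw [← hφ] at q1 q2
  have hν : 0 < 1 / m := by positivity
  have eg : γ (n + 1) - ρ * (h + 1 / m) = W + ρ + φ / m := by
    field_simp; rw [eU] at e2; linear_combination e2 - hφ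
  have eW' : WW ρ γ (n + 1) = W + φ / (m * (m + 1)) := by
    have : γ (n + 1) = W + ρ + φ / m + ρ * (h + 1 / m) := by linarith
    rw [eW, this, eU]; field_simp; ring
  have t1 : 2 * h ^ 2 / m ≤ T := by
    rw [eT0]; gcongr; linarith
  have t2 : TT (n + 1) + 2 * h ^ 2 / (m * (m + 1)) ≤ T := by
    have : T - (TT (n + 1) + 2 * h ^ 2 / (m * (m + 1))) = 2 * (1 - 1 / m) / (m * (m + 1)) := by
      rw [eT, eT0]; field_simp; ring
    have h3 : 0 ≤ 2 * (1 - 1 / m) / (m * (m + 1)) := by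
      have : 1 / m ≤ 1 := by rw [div_le_one hm0]; linarith
      have : 0 ≤ 1 - 1 / m := by linarith
      positivity
    linarith
  have u1 : φ / m ≤ 2 * h ^ 2 / m := by gcongr
  have u2 : -(2 * h ^ 2 / m) ≤ φ / m := by rw [← neg_div]; gcongr
  have u3 : φ / (m * (m + 1)) ≤ 2 * h ^ 2 / (m * (m + 1)) := by gcongr
  have u4 : -(2 * h ^ 2 / (m * (m + 1))) ≤ φ / (m * (m + 1)) := by rw [← neg_div]; gcongr
  have hρν : 0 ≤ ρ * (1 / m) := by positivity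
  have hsq : h ^ 2 + 2 * h * (1 / m) ≤ (h + 1 / m) ^ 2 := by nlinarith only [sq_nonneg (1 / m)]
  have hk1 : κ (n + 1) ≤ 1.2 * h ^ 2 + 2.4 * h := by
    refine le_of_mul_le_mul_left ?_ hm0
    rw [eU] at e3; linarith
  have hX : m * (β (n + 1) - 1) = ρ / 2 + 2 * (S - ρ * h / 2)
      - (γ n - ρ * h - ρ / 2 - ρ * (β n - 1) - P) := by linarith
  have x0 : ρ * (β n - 1) ≤ 0.003 := by nlinarith only [jn.1, b2, r1, r2]
  have x1 : 0 ≤ ρ * (β n - 1) :=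
    mul_nonneg (by linarith only [r1]) (by linarith only [jn.1])
  refine ⟨⟨?_, ?_, ?_, ?_, ?_, ?_, ?_⟩, γ n - ρ * h - ρ / 2 - ρ * (β n - 1) - P,
    by linarith, by linarith, ?_⟩
  · intro i hi hi'
    rcases Nat.lt_succ_iff_lt_or_eq.1 (Nat.lt_succ_of_le hi') with h3 | rfl
    · exact j1 i hi (by omega)
    · push_cast; rw [← hm]
      refine ⟨?_, by linarith⟩
      have : 0 ≤ m * (β (n + 1) - 1) := by linarith
      have := nonneg_of_mul_nonneg_right this hm0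
      linarith
  · intro j hj
    rw [eH]
    rcases Nat.lt_succ_iff_lt_or_eq.1 (Nat.lt_succ_of_le hj) with h3 | rfl
    · have := j2 j (by omega); linarith
    · linarith
  · rw [eH]; linarith
  · rw [eW']; linarith
  · rw [eW']; linarith
  · intro j hj
    rw [eH]
    have : 0 ≤ 2 * h * (1 / m) := by positivity
    rcases Nat.lt_succ_iff_lt_or_eq.1 (Nat.lt_succ_of_le hj) with h3 | rfl
    · have := j6 j (by omega); linarith
    · nlinarith only [hk1, hsq, this, hh]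
  · rw [eZ, eH]; push_cast; rw [← hm]
    have c1 : 1.2 * (h ^ 2 + 2 * h * (1 / m)) * (m + 1) ≤ 1.2 * (h + 1 / m) ^ 2 * (m + 1) := by
      gcongr
    have c2 : 1.2 * (h ^ 2 + 2 * h * (1 / m)) * (m + 1)
        = 1.2 * h ^ 2 * m + 1.2 * h ^ 2 + 2.4 * h + 2.4 * h * (1 / m) := by
      field_simp; ring
    have : 0 ≤ 2.4 * h * (1 / m) := by positivity
    linarith
  · rw [eF, eF0]
    have : m * (ρ * (1 / m) / 2) = ρ / 2 := by field_simp
    linarith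

end Pool.Agent.H122Z.Srt
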