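import Mathlib

set_option autoImplicit false

namespace Pool.Agent.H122Z.Srt

open Finset

def dig (P n : ℕ) : ℕ := (P >>> (64 * n)) % 2 ^ 64

def wdig (Z n : ℕ) : ℕ := (Z >>> (192 * n)) % 2 ^ 192

def sp (f : ℕ → ℕ) (M : ℕ) : ℕ := Nat.rec 0 (fun n acc => acc + f n <<< (192 * n)) M

def sumd (P M : ℕ) : ℕ := Nat.rec 0 (fun n acc => acc + dig P n) M

theorem sumd_eq (P M : ℕ) : sumd P M = ∑ i ∈ range M, dig P i := by
  induction M with
  | zero => rfl
  | succ M ih => rw [sum_range_succ, ← ih]; rfl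

theorem sp_eq (f : ℕ → ℕ) (M : ℕ) : sp f M = ∑ i ∈ range M, f i * (2 ^ 192) ^ i := by
  induction M with
  | zero => rfl
  | succ M ih =>
    rw [sum_range_succ, ← ih, ← pow_mul, ← Nat.shiftLeft_eq]; rfl

theorem dig_lt (P n : ℕ) : dig P n < 2 ^ 64 := Nat.mod_lt _ (by norm_num)

theorem sum_lt_pow {B : ℕ} {c : ℕ → ℕ} : ∀ n : ℕ, (∀ j < n, c j < B) →
    ∑ j ∈ range n, c j * B ^ j < B ^ n := by
  intro n
  induction n with
  | zero => intro _; simp
  | succ n ih =>
    intro h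
    have h1 := ih (fun j hj => h j (by omega))
    have h2 : c n + 1 ≤ B := h n (by omega)
    rw [sum_range_succ, pow_succ]
    calc _ < B ^ n + c n * B ^ n := by omega
      _ = B ^ n * (c n + 1) := by ring
      _ ≤ _ := Nat.mul_le_mul_left _ h2

theorem digit_sum {B : ℕ} {c : ℕ → ℕ} {n T : ℕ} (hT : n < T) (h : ∀ j ≤ n, c j < B) :
    (∑ j ∈ range T, c j * B ^ j) / B ^ n % B = c n := by
  obtain ⟨t, rfl⟩ := Nat.exists_eq_add_of_lt hT
  have hB : 0 < B := by have := h 0 (by omega); omega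
  have e : ∑ j ∈ range (n + t + 1), c j * B ^ j = ∑ j ∈ range n, c j * B ^ j
      + B ^ n * (c n + B * ∑ j ∈ range t, c (n + (j + 1)) * B ^ j) := by
    rw [add_assoc, sum_range_add, sum_range_succ', mul_add, mul_sum, mul_sum]
    congr 1
    rw [add_comm]
    congr 1
    · simp [mul_comm]
    · exact sum_congr rfl fun j _ => by ring
  rw [e, Nat.add_mul_div_left _ _ (by positivity),
    Nat.div_eq_of_lt (sum_lt_pow n fun j hj => h j hj.le), zero_add, Nat.add_mul_mod_self_left,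
    Nat.mod_eq_of_lt (h n le_rfl)]

theorem wdig_mul {f g : ℕ → ℕ} {M n : ℕ} (hn : n < M) (hM : M ≤ 2 ^ 20)
    (hf : ∀ i, f i < 2 ^ 64) (hg : ∀ i, g i < 2 ^ 100) :
    wdig (sp f M * sp g M) n = ∑ i ∈ range (n + 1), f i * g (n - i) := by
  let p : Polynomial ℕ := ∑ i ∈ range M, Polynomial.monomial i (f i)
  let q : Polynomial ℕ := ∑ i ∈ range M, Polynomial.monomial i (g i)
  have cp : ∀ i < M, p.coeff i = f i := fun i hi => by
    simp [p, Polynomial.finsetSum_coeff, Polynomial.coeff_monomial, hi]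
  have cq : ∀ i < M, q.coeff i = g i := fun i hi => by
    simp [q, Polynomial.finsetSum_coeff, Polynomial.coeff_monomial, hi]
  have ep : p.eval (2 ^ 192) = sp f M := by
    simp only [p, Polynomial.eval_finsetSum, Polynomial.eval_monomial, sp_eq]
  have eq' : q.eval (2 ^ 192) = sp g M := by
    simp only [q, Polynomial.eval_finsetSum, Polynomial.eval_monomial, sp_eq]
  have cc : ∀ j ≤ n, (p * q).coeff j = ∑ i ∈ range (j + 1), f i * g (j - i) := fun j hj => by
    rw [Polynomial.coeff_mul, Finset.Nat.sum_antidiagonal_eq_sum_range_succ_mk]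
    refine sum_congr rfl fun i hi => ?_
    have := mem_range.1 hi
    rw [cp _ (by omega), cq _ (by omega)]
  rw [wdig, Nat.shiftRight_eq_div_pow, pow_mul, ← ep, ← eq', ← Polynomial.eval_mul,
    Polynomial.eval_eq_sum_range' (n := (p * q).natDegree + n + 1) (by omega),
    digit_sum (by omega), cc n le_rfl]
  intro j hj
  rw [cc j hj]
  calc _ ≤ ∑ _i ∈ range (j + 1), 2 ^ 64 * 2 ^ 100 :=
        sum_le_sum fun i _ => Nat.mul_le_mul (hf i).le (hg _).le
    _ = (j + 1) * (2 ^ 64 * 2 ^ 100) := by simp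
    _ ≤ 2 ^ 20 * (2 ^ 64 * 2 ^ 100) := Nat.mul_le_mul_right _ (by omega)
    _ < _ := by norm_num

def allTo (f : ℕ → Bool) (M : ℕ) : Bool := Nat.rec true (fun n acc => f n && acc) M

theorem allTo_spec {f : ℕ → Bool} : ∀ {M : ℕ}, allTo f M = true → ∀ n < M, f n = true := by
  intro M
  induction M with
  | zero => intro _ n hn; omega
  | succ M ih =>
    intro h n hn
    have h' : (f M && allTo f M) = true := h
    rw [Bool.and_eq_true] at h'
    rcases Nat.lt_succ_iff_lt_or_eq.1 hn with h1 | rfl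
    exacts [ih h'.2 n h1, h'.1]

def cv (p q A X Y : ℕ) : ℕ := sp (dig A) 1000 * sp (fun m => p * dig X m + q * dig Y m) 1000

def chkU (p q A X Y Z : ℕ) : Bool := allTo (fun n => Nat.ble
  (p * p * 2 ^ 40 * dig X n + q * wdig (cv p q A X Y) n)
  (q * q * 2 ^ 40 * ((n + 1) * dig Y (n + 1) + dig Z n))) 1000

def chkL (p q A X Y Z : ℕ) : Bool := allTo (fun n => Nat.beq (dig Y (n + 1)) 0 || Nat.ble
  (q * q * 2 ^ 40 * ((n + 1) * dig Y (n + 1) + dig Z n))
  (p * p * 2 ^ 40 * dig X n + q * wdig (cv p q A X Y) n)) 1000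

theorem wdig_cv {p q : ℕ} (hp : p ≤ 2 ^ 30) (hq : q ≤ 2 ^ 30) (A X Y : ℕ) {n : ℕ}
    (hn : n < 1000) : wdig (cv p q A X Y) n
      = ∑ i ∈ range (n + 1), dig A i * (p * dig X (n - i) + q * dig Y (n - i)) := by
  refine wdig_mul (g := fun m => p * dig X m + q * dig Y m) hn (by norm_num) (dig_lt A) fun i => ?_
  have h1 := Nat.mul_le_mul hp (dig_lt X i).le
  have h2 := Nat.mul_le_mul hq (dig_lt Y i).le
  have : 2 ^ 30 * 2 ^ 64 + 2 ^ 30 * 2 ^ 64 < 2 ^ 100 := by norm_num
  show p * dig X i + q * dig Y i < 2 ^ 100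
  omega

theorem dig_one (n : ℕ) : dig (2 ^ 40) n = if n = 0 then 2 ^ 40 else 0 := by
  split_ifs with h
  · subst h; rfl
  · rw [dig, Nat.shiftRight_eq_div_pow, Nat.div_eq_of_lt (Nat.pow_lt_pow_right (by norm_num)
      (by omega)), Nat.zero_mod]

theorem dig_zero (n : ℕ) : dig 0 n = 0 := by simp [dig]

theorem cert_sound {p q : ℕ} (hp : p ≤ 2 ^ 30) (hq : q ≤ 2 ^ 30) (hq0 : 0 < q)
    {x : ℕ → ℕ → ℝ} (x0 : ∀ k n, 0 ≤ x k n) (x1 : ∀ n, x 0 n = if n = 0 then 1 else 0)
    (x2 : ∀ k, x (k + 1) 0 = 0)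
    (xr : ∀ k n : ℕ, ((n : ℝ) + 1) * x (k + 1) (n + 1) + x (k + 2) n = (p / q : ℝ) ^ 2 * x k n
      + ∑ i ∈ range (n + 1), x 1 i * ((p / q : ℝ) * x k (n - i) + x (k + 1) (n - i)))
    {U L : ℕ → ℕ} (hU0 : U 0 = 2 ^ 40) (hL0 : L 0 = 2 ^ 40) (hL8 : ∀ k, L (k + 8) = 0)
    (hLz : ∀ k < 7, dig (L (k + 1)) 0 = 0)
    (hU : ∀ k < 8, chkU p q (U 1) (U k) (U (k + 1)) (L (k + 2)) = true)
    (hL : ∀ k < 7, chkL p q (L 1) (L k) (L (k + 1)) (U (k + 2)) = true) :
    ∀ n ≤ 1000, (∀ k ≤ 8, 2 ^ 40 * x k n ≤ dig (U k) n) ∧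
      (∀ k, (dig (L k) n : ℝ) ≤ 2 ^ 40 * x k n) := by
  have hq' : (0 : ℝ) < q := by exact_mod_cast hq0
  have hLbig : ∀ k n, 8 ≤ k → (dig (L k) n : ℝ) ≤ 2 ^ 40 * x k n := fun k n hk => by
    obtain ⟨j, rfl⟩ : ∃ j, k = j + 8 := ⟨k - 8, by omega⟩
    rw [hL8, dig_zero]; have := x0 (j + 8) n; simp only [Nat.cast_zero]; positivity
  have xr' : ∀ k n : ℕ, (q : ℝ) * q * 2 ^ 40 * (((n : ℝ) + 1) * (2 ^ 40 * x (k + 1) (n + 1))
      + 2 ^ 40 * x (k + 2) n) = p * p * 2 ^ 40 * (2 ^ 40 * x k n)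
      + q * ∑ i ∈ range (n + 1), (2 ^ 40 * x 1 i) * (p * (2 ^ 40 * x k (n - i))
        + q * (2 ^ 40 * x (k + 1) (n - i))) := fun k n => by
    have e : (q : ℝ) * ∑ i ∈ range (n + 1), (2 ^ 40 * x 1 i) * (p * (2 ^ 40 * x k (n - i))
        + q * (2 ^ 40 * x (k + 1) (n - i))) = q * q * 2 ^ 40 * 2 ^ 40 *
        ∑ i ∈ range (n + 1), x 1 i * ((p / q : ℝ) * x k (n - i) + x (k + 1) (n - i)) := by
      rw [mul_sum, mul_sum]
      refine sum_congr rfl fun i _ => ?_
      field_simp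
    rw [e]
    have := xr k n
    have e2 : (p : ℝ) * p = q * q * (p / q) ^ 2 := by field_simp
    rw [e2]
    linear_combination (q * q * 2 ^ 40 * 2 ^ 40 : ℝ) * this
  intro n
  induction n using Nat.strong_induction_on with
  | _ n ih =>
  intro hn
  cases n with
  | zero =>
    refine ⟨fun k _ => ?_, fun k => ?_⟩
    · cases k with
      | zero => rw [hU0, dig_one, x1]; norm_num
      | succ k => rw [x2]; simp
    · cases k with
      | zero => rw [hL0, dig_one, x1]; norm_num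
      | succ k =>
        by_cases hk : k < 7
        · rw [hLz k hk, x2]; simp
        · exact hLbig _ _ (by omega)
  | succ n =>
    have ih' := fun m (hm : m ≤ n) => ih m (by omega) (by omega)
    have hpos : (0 : ℝ) < q * q * 2 ^ 40 * ((n : ℝ) + 1) := by positivity
    refine ⟨fun k hk => ?_, fun k => ?_⟩
    · cases k with
      | zero => rw [hU0, dig_one, x1]; simp
      | succ k =>
        have h := allTo_spec (hU k (by omega)) n (by omega)
        rw [Nat.ble_eq, wdig_cv hp hq _ _ _ (by omega)] at h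
        have h' : ((p * p * 2 ^ 40 * dig (U k) n + q * ∑ i ∈ range (n + 1), dig (U 1) i *
          (p * dig (U k) (n - i) + q * dig (U (k + 1)) (n - i)) : ℕ) : ℝ) ≤
          ((q * q * 2 ^ 40 * ((n + 1) * dig (U (k + 1)) (n + 1) + dig (L (k + 2)) n) : ℕ) : ℝ) :=
          Nat.cast_le.2 h
        push_cast at h'
        have s1 : ∑ i ∈ range (n + 1), (2 ^ 40 * x 1 i) * (p * (2 ^ 40 * x k (n - i))
            + q * (2 ^ 40 * x (k + 1) (n - i))) ≤ ∑ i ∈ range (n + 1), (dig (U 1) i : ℝ) *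
            (p * dig (U k) (n - i) + q * dig (U (k + 1)) (n - i)) := by
          refine sum_le_sum fun i hi => ?_
          have hi' := mem_range.1 hi
          have a1 := (ih' i (by omega)).1 1 (by norm_num)
          have a2 := (ih' (n - i) (by omega)).1 k (by omega)
          have a3 := (ih' (n - i) (by omega)).1 (k + 1) hk
          have := x0 k (n - i); have := x0 (k + 1) (n - i)
          gcongr
        have a2 := (ih' n le_rfl).1 k (by omega)
        have a3 := (ih' n le_rfl).2 (k + 2)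
        have e := xr' k n
        refine le_of_mul_le_mul_left ?_ hpos
        have b1 := mul_le_mul_of_nonneg_left s1 hq'.le
        have b2 := mul_le_mul_of_nonneg_left a2 (by positivity : (0 : ℝ) ≤ p * p * 2 ^ 40)
        have b3 := mul_le_mul_of_nonneg_left a3 (by positivity : (0 : ℝ) ≤ q * q * 2 ^ 40)
        norm_num at h' e b1 b2 b3 ⊢
        linarith
    · cases k with
      | zero => rw [hL0, dig_one, x1]; simp
      | succ k =>
        by_cases hk : k < 7
        swap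
        · exact hLbig _ _ (by omega)
        have h := allTo_spec (hL k hk) n (by omega)
        rw [Bool.or_eq_true, Nat.beq_eq, Nat.ble_eq, wdig_cv hp hq _ _ _ (by omega)] at h
        rcases h with h | h
        · rw [h]; have := x0 (k + 1) (n + 1); simp only [Nat.cast_zero]; positivity
        have h' : ((q * q * 2 ^ 40 * ((n + 1) * dig (L (k + 1)) (n + 1)
          + dig (U (k + 2)) n) : ℕ) : ℝ) ≤
          ((p * p * 2 ^ 40 * dig (L k) n + q * ∑ i ∈ range (n + 1), dig (L 1) i *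
          (p * dig (L k) (n - i) + q * dig (L (k + 1)) (n - i)) : ℕ) : ℝ) :=
          Nat.cast_le.2 h
        push_cast at h'
        have s1 : ∑ i ∈ range (n + 1), (dig (L 1) i : ℝ) *
            (p * dig (L k) (n - i) + q * dig (L (k + 1)) (n - i)) ≤
            ∑ i ∈ range (n + 1), (2 ^ 40 * x 1 i) * (p * (2 ^ 40 * x k (n - i))
            + q * (2 ^ 40 * x (k + 1) (n - i))) := by
          refine sum_le_sum fun i hi => ?_
          have hi' := mem_range.1 hi
          have a1 := (ih' i (by omega)).2 1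
          have a2 := (ih' (n - i) (by omega)).2 k
          have a3 := (ih' (n - i) (by omega)).2 (k + 1)
          have := x0 1 i
          gcongr
        have a2 := (ih' n le_rfl).2 k
        have a3 := (ih' n le_rfl).1 (k + 2) (by omega)
        have e := xr' k n
        refine le_of_mul_le_mul_left ?_ hpos
        have b1 := mul_le_mul_of_nonneg_left s1 hq'.le
        have b2 := mul_le_mul_of_nonneg_left a2 (by positivity : (0 : ℝ) ≤ p * p * 2 ^ 40)
        have b3 := mul_le_mul_of_nonneg_left a3 (by positivity : (0 : ℝ) ≤ q * q * 2 ^ 40)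
        norm_num at h' e b1 b2 b3 ⊢
        linarith

end Pool.Agent.H122Z.Srt
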