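import Pool.Agent.H122Z.SortTree

set_option autoImplicit false

namespace Pool.Agent.H122Z.Srt

open Tr Finset
open scoped Classical

def lab (T : Tr) : Multiset ℕ := (T.post : Multiset ℕ)

def labs : List Tr → Multiset ℕ
  | [] => 0
  | T :: F => lab T + labs F

theorem lab_nil : lab nil = 0 := rfl

theorem lab_node (l : Tr) (x : ℕ) (r : Tr) : lab (node l x r) = lab l + lab r + {x} := by
  simp only [lab, post, ← Multiset.coe_add]; rfl

theorem mem_lab {T : Tr} {y : ℕ} : y ∈ lab T ↔ y ∈ T.post := Multiset.mem_coe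

def Chain : List Tr → Prop
  | [] => True
  | T :: F => T ≠ nil ∧ Can T ∧ (∀ y ∈ labs F, y < lm T) ∧ Chain F

theorem fin_tree (S : Finset ℕ) : ∀ n : ℕ,
    {T : Tr | T.post.length ≤ n ∧ ∀ y ∈ T.post, y ∈ S}.Finite := by
  intro n
  induction n with
  | zero =>
    refine (Set.finite_singleton nil).subset ?_
    rintro T ⟨h, -⟩
    exact post_eq_nil (List.length_eq_zero_iff.1 (by omega))
  | succ n ih =>
    refine ((Set.finite_singleton nil).union
      ((ih.prod (S.finite_toSet.prod ih)).image (fun p => node p.1 p.2.1 p.2.2))).subset ?_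
    rintro T ⟨h, h2⟩
    cases T with
    | nil => exact Or.inl rfl
    | node l x r =>
      simp only [post, List.length_append, List.length_singleton] at h h2
      exact Or.inr ⟨(l, x, r), ⟨⟨by simp only; omega, fun y hy => h2 y (by simp [hy])⟩,
        h2 x (by simp), by simp only; omega, fun y hy => h2 y (by simp [hy])⟩, rfl⟩

theorem fin_list {A : Set Tr} (hA : A.Finite) : ∀ k : ℕ,
    {F : List Tr | F.length = k ∧ ∀ T ∈ F, T ∈ A}.Finite := by
  intro k
  induction k with
  | zero =>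
    refine (Set.finite_singleton []).subset ?_
    rintro F ⟨h, -⟩
    exact List.length_eq_zero_iff.1 h
  | succ k ih =>
    refine ((hA.prod ih).image (fun p => p.1 :: p.2)).subset ?_
    rintro F ⟨h, h2⟩
    cases F with
    | nil => simp at h
    | cons T F =>
      exact ⟨(T, F), ⟨h2 T (by simp), by simpa using h, fun U hU => h2 U (by simp [hU])⟩, rfl⟩

theorem lab_le {T : Tr} : ∀ {F : List Tr}, T ∈ F → lab T ≤ labs F
  | [], h => by simp at h
  | U :: F, h => by
    rcases List.mem_cons.1 h with rfl | h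
    · exact Multiset.le_add_right _ _
    · exact (lab_le h).trans (Multiset.le_add_left _ _)

theorem fin_chain (k : ℕ) (S : Finset ℕ) :
    {F : List Tr | F.length = k ∧ Chain F ∧ labs F = S.val}.Finite := by
  refine (fin_list (fin_tree S S.card) k).subset ?_
  rintro F ⟨h1, -, h3⟩
  refine ⟨h1, fun T hT => ⟨?_, fun y hy => ?_⟩⟩
  · have := Multiset.card_le_card (h3 ▸ lab_le hT)
    simpa [lab] using this
  · exact Multiset.mem_of_le (h3 ▸ lab_le hT) (mem_lab.2 hy)

noncomputable def Cf (k : ℕ) (S : Finset ℕ) : Finset (List Tr) := (fin_chain k S).toFinset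

theorem mem_Cf {k : ℕ} {S : Finset ℕ} {F : List Tr} :
    F ∈ Cf k S ↔ F.length = k ∧ Chain F ∧ labs F = S.val := by
  simp [Cf]

noncomputable def T1 (A : Finset ℕ) : Finset Tr := (Cf 1 A).image (fun F => F.headD nil)

theorem mem_T1 {A : Finset ℕ} {T : Tr} : T ∈ T1 A ↔ T ≠ nil ∧ Can T ∧ lab T = A.val := by
  simp only [T1, mem_image, mem_Cf]
  constructor
  · rintro ⟨F, ⟨h1, h2, h3⟩, rfl⟩
    match F, h1, h2, h3 with
    | [T], _, h2, h3 => exact ⟨h2.1, h2.2.1, by simpa [labs] using h3⟩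
  · rintro ⟨h1, h2, h3⟩
    exact ⟨[T], ⟨rfl, ⟨h1, h2, by simp [labs], trivial⟩, by simpa [labs] using h3⟩, rfl⟩

theorem card_T1 (A : Finset ℕ) : (T1 A).card = (Cf 1 A).card := by
  refine card_image_of_injOn ?_
  intro F hF G hG e
  have h1 := (mem_Cf.1 hF).1
  have h2 := (mem_Cf.1 hG).1
  match F, G, h1, h2, e with
  | [T], [U], _, _, e => simpa using e

noncomputable def Pf (k : ℕ) (S : Finset ℕ) : Finset (Tr × List Tr) :=
  S.powerset.biUnion (fun A => T1 A ×ˢ Cf k (S \ A))

theorem mem_Pf {k : ℕ} {S : Finset ℕ} {r : Tr} {G : List Tr} : (r, G) ∈ Pf k S ↔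
    r ≠ nil ∧ Can r ∧ G.length = k ∧ Chain G ∧ lab r + labs G = S.val := by
  simp only [Pf, mem_biUnion, mem_powerset, mem_product, mem_T1, mem_Cf]
  constructor
  · rintro ⟨A, hA, ⟨h1, h2, h3⟩, h4, h5, h6⟩
    refine ⟨h1, h2, h4, h5, ?_⟩
    rw [h3, h6, sdiff_val, add_tsub_cancel_of_le (val_le_iff.2 hA)]
  · rintro ⟨h1, h2, h4, h5, h6⟩
    have hle : lab r ≤ S.val := h6 ▸ Multiset.le_add_right _ _
    refine ⟨⟨lab r, Multiset.nodup_of_le hle S.nodup⟩, val_le_iff.1 hle, ⟨h1, h2, rfl⟩, h4, h5, ?_⟩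
    rw [sdiff_val]
    show labs G = S.val - lab r
    rw [← h6]; simp

theorem card_Pf (k : ℕ) (S : Finset ℕ) :
    (Pf k S).card = ∑ A ∈ S.powerset, (Cf 1 A).card * (Cf k (S \ A)).card := by
  rw [Pf, card_biUnion]
  · simp only [card_product, card_T1]
  · intro A _ B _ hAB
    rw [Function.onFun, disjoint_left]
    intro p hp hq
    have h1 := (mem_T1.1 (mem_product.1 hp).1).2.2
    have h2 := (mem_T1.1 (mem_product.1 hq).1).2.2
    exact hAB (val_injective (h1.symm.trans h2))

def lft : Tr → Tr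
  | nil => nil
  | node l _ _ => l

def rgt : Tr → Tr
  | nil => nil
  | node _ _ r => r

section
variable {S : Finset ℕ} {m : ℕ} (hm : ∀ y ∈ S, y < m) (hmS : m ∉ S)
include hm

theorem top_eq {k : ℕ} {l r : Tr} {x : ℕ} {G : List Tr}
    (h : node l x r :: G ∈ Cf (k + 1) (cons m S hmS)) :
    x = m ∧ lab l + lab r + labs G = S.val := by
  obtain ⟨-, ⟨h1, h2, h3, -⟩, h5⟩ := mem_Cf.1 h
  have hx : x = m := by
    have a1 : x ∈ (cons m S hmS).val := by rw [← h5]; simp [labs, lab_node]
    have a2 : m ∈ labs (node l x r :: G) := by rw [h5]; simp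
    have a3 : m ≤ x := by
      rcases Multiset.mem_add.1 a2 with a | a
      · exact le_root h2 m (mem_lab.1 a)
      · exact (h3 m a).le.trans (le_root h2 _ (lm_mem h1))
    rcases mem_cons.1 a1 with a | a
    · exact a
    · have := hm x a; omega
  subst hx
  refine ⟨rfl, ?_⟩
  rw [labs, lab_node, cons_val, ← Multiset.singleton_add] at h5
  have : {x} + (lab l + lab r + labs G) = {x} + S.val := by rw [← h5]; abel
  exact add_left_cancel this

theorem mem_top {k : ℕ} {l r : Tr} {G : List Tr} (hl : Can l) (hr : Can r)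
    (hc : l = nil ∨ (r ≠ nil ∧ lm r < root l)) (hG : Chain G) (hk : G.length = k)
    (hs : lab l + lab r + labs G = S.val) (hlt : l ≠ nil → ∀ y ∈ labs G, y < lm l) :
    node l m r :: G ∈ Cf (k + 1) (cons m S hmS) := by
  have hS : ∀ y ∈ lab l + lab r + labs G, y < m := by rw [hs]; exact hm
  refine mem_Cf.2 ⟨by simp [hk], ⟨by simp, ⟨hl, hr, ?_, ?_, hc⟩, ?_, hG⟩, ?_⟩
  · exact fun y hy => hS y (by simp [mem_lab.2 hy])
  · exact fun y hy => hS y (by simp [mem_lab.2 hy])
  · by_cases h : l = nil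
    · subst h; rw [lm_nil_left]; exact fun y hy => hS y (by simp [hy])
    · rw [lm_node h]; exact hlt h
  · rw [labs, lab_node, cons_val, ← Multiset.singleton_add, ← hs]; abel

omit hm in
theorem shape {k : ℕ} {S : Finset ℕ} {F : List Tr} (h : F ∈ Cf (k + 1) S) :
    ∃ l x r G, F = node l x r :: G := by
  obtain ⟨h1, h2, -⟩ := mem_Cf.1 h
  match F, h1, h2 with
  | nil :: G, _, h2 => exact absurd rfl h2.1
  | node l x r :: G, _, _ => exact ⟨l, x, r, G, rfl⟩

theorem card_a (k : ℕ) : (((Cf (k + 1) (cons m S hmS)).filter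
    (fun F => lft (F.headD nil) = nil)).filter (fun F => rgt (F.headD nil) = nil)).card
    = (Cf k S).card := by
  refine card_nbij' (fun F => F.tail) (fun G => node nil m nil :: G) ?_ ?_ ?_ ?_
  · intro F hF
    simp only [coe_filter, mem_filter, Set.mem_ofPred_eq] at hF
    obtain ⟨⟨h, h1⟩, h2⟩ := hF
    obtain ⟨l, x, r, G, rfl⟩ := shape h
    obtain rfl : l = nil := h1
    obtain rfl : r = nil := h2
    obtain ⟨a1, a2, -⟩ := mem_Cf.1 h
    exact mem_Cf.2 ⟨by simpa using a1, a2.2.2.2, by simpa [lab_nil] using (top_eq hm hmS h).2⟩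
  · intro G hG
    obtain ⟨a1, a2, a3⟩ := mem_Cf.1 hG
    simp only [coe_filter, mem_filter, Set.mem_ofPred_eq]
    exact ⟨⟨mem_top hm hmS trivial trivial (Or.inl rfl) a2 a1 (by simpa [lab_nil] using a3)
      (fun h => absurd rfl h), rfl⟩, rfl⟩
  · intro F hF
    simp only [coe_filter, mem_filter, Set.mem_ofPred_eq] at hF
    obtain ⟨⟨h, h1⟩, h2⟩ := hF
    obtain ⟨l, x, r, G, rfl⟩ := shape h
    obtain rfl : l = nil := h1
    obtain rfl : r = nil := h2
    simp [(top_eq hm hmS h).1]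
  · intro G _; rfl

theorem card_b (k : ℕ) : (((Cf (k + 1) (cons m S hmS)).filter
    (fun F => lft (F.headD nil) = nil)).filter (fun F => ¬ rgt (F.headD nil) = nil)).card
    = (Pf k S).card := by
  refine card_nbij' (fun F => (rgt (F.headD nil), F.tail)) (fun p => node nil m p.1 :: p.2)
    ?_ ?_ ?_ ?_
  · intro F hF
    simp only [coe_filter, mem_filter, Set.mem_ofPred_eq] at hF
    obtain ⟨⟨h, h1⟩, h2⟩ := hF
    obtain ⟨l, x, r, G, rfl⟩ := shape h
    obtain rfl : l = nil := h1
    obtain ⟨a1, a2, -⟩ := mem_Cf.1 h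
    exact mem_Pf.2 ⟨h2, a2.2.1.2.1, by simpa using a1, a2.2.2.2,
      by simpa [lab_nil, rgt] using (top_eq hm hmS h).2⟩
  · rintro ⟨r, G⟩ hG
    obtain ⟨a1, a2, a3, a4, a5⟩ := mem_Pf.1 hG
    simp only [coe_filter, mem_filter, Set.mem_ofPred_eq]
    exact ⟨⟨mem_top hm hmS trivial a2 (Or.inl rfl) a4 a3 (by simpa [lab_nil] using a5)
      (fun h => absurd rfl h), rfl⟩, a1⟩
  · intro F hF
    simp only [coe_filter, mem_filter, Set.mem_ofPred_eq] at hF
    obtain ⟨⟨h, h1⟩, h2⟩ := hF
    obtain ⟨l, x, r, G, rfl⟩ := shape h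
    obtain rfl : l = nil := h1
    simp [(top_eq hm hmS h).1, rgt]
  · intro G _; rfl

theorem card_c (k : ℕ) : ((Cf (k + 1) (cons m S hmS)).filter
    (fun F => ¬ lft (F.headD nil) = nil)).card
    = ((Pf (k + 1) S).filter (fun p => lm p.1 < root (p.2.headD nil))).card := by
  refine card_nbij' (fun F => (rgt (F.headD nil), lft (F.headD nil) :: F.tail))
    (fun p => node (p.2.headD nil) m p.1 :: p.2.tail) ?_ ?_ ?_ ?_
  · intro F hF
    simp only [coe_filter, mem_filter, Set.mem_ofPred_eq] at hF ⊢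
    obtain ⟨h, h1⟩ := hF
    obtain ⟨l, x, r, G, rfl⟩ := shape h
    have h1 : l ≠ nil := h1
    obtain ⟨a1, ⟨-, ⟨b1, b2, -, -, b5⟩, a3, a4⟩, -⟩ := mem_Cf.1 h
    rcases b5 with b5 | b5
    · exact absurd b5 h1
    rw [lm_node h1] at a3
    refine ⟨mem_Pf.2 ⟨b5.1, b2, by simpa using a1, ⟨h1, b1, a3, a4⟩, ?_⟩, b5.2⟩
    rw [← (top_eq hm hmS h).2]
    simp only [List.headD_cons, rgt, lft, List.tail_cons, labs]; abel
  · rintro ⟨r, G⟩ hG
    simp only [coe_filter, mem_filter, Set.mem_ofPred_eq] at hG ⊢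
    obtain ⟨hG, hc⟩ := hG
    obtain ⟨a1, a2, a3, a4, a5⟩ := mem_Pf.1 hG
    match G, a3, a4, a5, hc with
    | l :: G, a3, a4, a5, hc =>
      refine ⟨mem_top hm hmS a4.2.1 a2 (Or.inr ⟨a1, hc⟩) a4.2.2.2 (by simpa using a3) ?_
        (fun _ => a4.2.2.1), a4.1⟩
      rw [← a5]; simp only [List.headD_cons, List.tail_cons, labs]; abel
  · intro F hF
    simp only [coe_filter, mem_filter, Set.mem_ofPred_eq] at hF
    obtain ⟨h, h1⟩ := hF
    obtain ⟨l, x, r, G, rfl⟩ := shape h
    simp [(top_eq hm hmS h).1, rgt, lft]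
  · rintro ⟨r, G⟩ hG
    simp only [coe_filter, mem_filter, Set.mem_ofPred_eq] at hG
    obtain ⟨-, -, a3, -, -⟩ := mem_Pf.1 hG.1
    match G, a3 with
    | l :: G, _ => rfl

end

theorem card_d (k : ℕ) (S : Finset ℕ) : (Cf (k + 2) S).card
    = ((Pf (k + 1) S).filter (fun p => ¬ lm p.1 < root (p.2.headD nil))).card := by
  refine card_nbij' (fun F => (F.headD nil, F.tail)) (fun p => p.1 :: p.2) ?_ ?_ ?_ ?_
  · intro F hF
    obtain ⟨a1, a2, a3⟩ := mem_Cf.1 hF
    match F, a1, a2, a3 with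
    | r :: l :: G, a1, a2, a3 =>
      simp only [coe_filter, Set.mem_ofPred_eq]
      refine ⟨mem_Pf.2 ⟨a2.1, a2.2.1, by simpa using a1, a2.2.2.2, a3⟩, ?_⟩
      have := a2.2.2.1 (root l) (by simp [labs, mem_lab.2 (root_mem a2.2.2.2.1)])
      simp only [List.headD_cons, List.tail_cons]; omega
  · rintro ⟨r, G⟩ hG
    simp only [coe_filter, Set.mem_ofPred_eq] at hG
    obtain ⟨hG, hc⟩ := hG
    obtain ⟨a1, a2, a3, a4, a5⟩ := mem_Pf.1 hG
    match G, a3, a4, a5, hc with
    | l :: G, a3, a4, a5, hc =>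
      refine mem_Cf.2 ⟨by simpa using a3, ⟨a1, a2, ?_, a4⟩, a5⟩
      have hnd : (lab r + labs (l :: G)).Nodup := a5 ▸ S.nodup
      have hne : lm r ≠ root l := by
        intro e
        have := (Multiset.nodup_add.1 hnd).2.2
        exact Multiset.disjoint_left.1 this (mem_lab.2 (lm_mem a1))
          (by rw [e]; simp [labs, mem_lab.2 (root_mem a4.1)])
      replace hc : ¬ lm r < root l := hc
      intro y hy
      show y < lm r
      rcases Multiset.mem_add.1 hy with hy | hy
      · have := le_root a4.2.1 y (mem_lab.1 hy); omega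
      · have := a4.2.2.1 y hy
        have := le_root a4.2.1 _ (lm_mem a4.1); omega
  · intro F hF
    obtain ⟨a1, -, -⟩ := mem_Cf.1 hF
    match F, a1 with
    | r :: G, _ => rfl
  · intro p _; rfl

theorem card_step {S : Finset ℕ} {m : ℕ} (hm : ∀ y ∈ S, y < m) (hmS : m ∉ S) (k : ℕ) :
    (Cf (k + 1) (cons m S hmS)).card + (Cf (k + 2) S).card
      = (Cf k S).card + (Pf k S).card + (Pf (k + 1) S).card := by
  have e1 := card_filter_add_card_filter_not (s := Cf (k + 1) (cons m S hmS))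
    (fun F => lft (F.headD nil) = nil)
  have e2 := card_filter_add_card_filter_not (s := (Cf (k + 1) (cons m S hmS)).filter
    (fun F => lft (F.headD nil) = nil)) (fun F => rgt (F.headD nil) = nil)
  have e3 := card_filter_add_card_filter_not (s := Pf (k + 1) S)
    (fun p => lm p.1 < root (p.2.headD nil))
  rw [card_a hm hmS, card_b hm hmS] at e2
  rw [card_c hm hmS] at e1
  rw [← card_d] at e3
  omega

noncomputable def rr (k n : ℕ) : ℕ := (Cf k (range n)).card

theorem Cf_zero (S : Finset ℕ) : (Cf 0 S).card = if S.card = 0 then 1 else 0 := by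
  split_ifs with h
  · rw [card_eq_zero.1 h, card_eq_one]
    refine ⟨[], ?_⟩
    ext F
    simp only [mem_Cf, List.length_eq_zero_iff, mem_singleton]
    exact ⟨fun h => h.1, by rintro rfl; exact ⟨rfl, trivial, rfl⟩⟩
  · rw [card_eq_zero]
    ext F
    simp only [mem_Cf, List.length_eq_zero_iff, notMem_empty, iff_false]
    rintro ⟨rfl, -, h3⟩
    exact h (by rw [card_def, ← h3]; rfl)

theorem Cf_empty (k : ℕ) : (Cf (k + 1) ∅).card = 0 := by
  rw [card_eq_zero]
  ext F
  simp only [notMem_empty, iff_false]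
  intro h
  obtain ⟨l, x, r, G, rfl⟩ := shape h
  have := (mem_Cf.1 h).2.2
  simp [labs, lab_node] at this

theorem card_Pf' {n : ℕ} (ih : ∀ S : Finset ℕ, S.card ≤ n → ∀ k, (Cf k S).card = rr k S.card)
    {S : Finset ℕ} (hS : S.card = n) (k : ℕ) :
    (Pf k S).card = ∑ i ∈ range (n + 1), n.choose i * (rr 1 i * rr k (n - i)) := by
  rw [card_Pf, ← hS]
  have := sum_powerset_apply_card (fun i => rr 1 i * rr k (S.card - i)) (x := S)
  simp only [smul_eq_mul] at this
  rw [← this]
  refine sum_congr rfl fun A hA => ?_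
  have hA' := mem_powerset.1 hA
  rw [ih A (hS ▸ card_le_card hA'), ih _ (hS ▸ card_le_card sdiff_subset),
    card_sdiff_of_subset hA']

theorem card_Cf : ∀ (n : ℕ) (S : Finset ℕ), S.card ≤ n → ∀ k, (Cf k S).card = rr k S.card := by
  intro n
  induction n with
  | zero =>
    intro S hS k
    obtain rfl : S = ∅ := card_eq_zero.1 (by omega)
    rfl
  | succ n ih =>
    intro S hS k
    by_cases h : S.card ≤ n
    · exact ih S h k
    have hc : S.card = n + 1 := by omega
    cases k with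
    | zero => simp [rr, Cf_zero]
    | succ k =>
      have key : ∀ S : Finset ℕ, S.card = n + 1 → (Cf (k + 1) S).card + rr (k + 2) n
          = rr k n + ∑ i ∈ range (n + 1), n.choose i * (rr 1 i * rr k (n - i))
            + ∑ i ∈ range (n + 1), n.choose i * (rr 1 i * rr (k + 1) (n - i)) := by
        intro S hc
        have hne : S.Nonempty := card_pos.1 (by omega)
        have hmS : S.max' hne ∉ S.erase (S.max' hne) := notMem_erase _ _
        have hm : ∀ y ∈ S.erase (S.max' hne), y < S.max' hne := fun y hy =>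
          lt_of_le_of_ne (le_max' _ _ (mem_of_mem_erase hy)) (ne_of_mem_erase hy)
        have hc' : (S.erase (S.max' hne)).card = n := by
          rw [card_erase_of_mem (max'_mem _ _), hc]; rfl
        have e := card_step hm hmS k
        rw [cons_eq_insert, insert_erase (max'_mem _ _), ih _ hc'.le, ih _ hc'.le,
          card_Pf' ih hc', card_Pf' ih hc', hc'] at e
        exact e
      have e1 := key S hc
      have e2 := key (range (n + 1)) (card_range _)
      rw [hc, rr]; omega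

theorem rr_zero (n : ℕ) : rr 0 n = if n = 0 then 1 else 0 := by simp [rr, Cf_zero]

theorem rr_succ_zero (k : ℕ) : rr (k + 1) 0 = 0 := Cf_empty k

theorem rr_rec (k n : ℕ) : rr (k + 1) (n + 1) + rr (k + 2) n
    = rr k n + ∑ i ∈ range (n + 1), n.choose i * (rr 1 i * rr k (n - i))
      + ∑ i ∈ range (n + 1), n.choose i * (rr 1 i * rr (k + 1) (n - i)) := by
  have hm : ∀ y ∈ range n, y < n := fun y hy => mem_range.1 hy
  have e := card_step hm notMem_range_self k
  rw [card_Pf' (card_Cf n) (card_range n), card_Pf' (card_Cf n) (card_range n),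
    cons_eq_insert, ← range_add_one] at e
  exact e

theorem card_image_sort {s : List ℕ → List ℕ} (h0 : s [] = [])
    (h1 : ∀ (L R : List ℕ) (m : ℕ), (L ++ m :: R).Nodup → (∀ x ∈ L, x < m) →
      (∀ x ∈ R, x < m) → s (L ++ m :: R) = s L ++ s R ++ [m])
    {w : List ℕ} (hw : w.Nodup) (hne : w ≠ []) :
    (w.permutations.toFinset.image s).card = rr 1 w.length := by
  have e : (T1 ⟨w, hw⟩).card = rr 1 w.length := by
    rw [card_T1, card_Cf _ _ le_rfl]; rfl
  rw [← e]
  symm
  refine card_nbij (fun T => T.post) ?_ ?_ ?_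
  · intro T hT
    obtain ⟨-, a2, a3⟩ := mem_T1.1 hT
    have hp : T.inord.Perm w := (post_perm T).symm.trans (Multiset.coe_eq_coe.1 a3)
    simp only [coe_image, List.coe_toFinset, Set.mem_image, Set.mem_ofPred_eq,
      List.mem_permutations]
    exact ⟨T.inord, hp, sort_inord h0 h1 T a2.dec (hp.nodup_iff.2 hw)⟩
  · intro T hT U hU e
    exact post_inj (mem_T1.1 hT).2.1 (mem_T1.1 hU).2.1 e
  · intro v hv
    simp only [coe_image, List.coe_toFinset, Set.mem_image, Set.mem_ofPred_eq,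
      List.mem_permutations] at hv
    obtain ⟨u, hu, rfl⟩ := hv
    have hun : u.Nodup := hu.nodup_iff.2 hw
    obtain ⟨T, c1, rfl⟩ := exists_dec _ u le_rfl hun
    obtain ⟨T', d1, d2⟩ := exists_can T c1 ((post_perm T).nodup_iff.2 hun)
    have hp : T'.post.Perm w := d2 ▸ (post_perm T).trans hu
    refine ⟨T', mem_coe.2 (mem_T1.2 ⟨?_, d1, Multiset.coe_eq_coe.2 hp⟩), ?_⟩
    · rintro rfl
      exact hne (List.perm_nil.1 hp.symm)
    · rw [sort_inord h0 h1 T c1 hun]; exact d2

end Pool.Agent.H122Z.Srt
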