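import Pool.Agent.H122Z.SortCount
import Pool.Agent.H122Z.SortAna
import Pool.Agent.H122Z.SortDataLo
import Pool.Agent.H122Z.SortDataHi

set_option autoImplicit false

namespace Pool.Agent.H122Z.Srt

open Finset

noncomputable def xx (ρ : ℝ) (k n : ℕ) : ℝ := (rr k n : ℝ) * ρ ^ (n + k) / (n.factorial : ℝ)

theorem xx_nonneg {ρ : ℝ} (h : 0 ≤ ρ) (k n : ℕ) : 0 ≤ xx ρ k n := by unfold xx; positivity

theorem xx_mono {ρ σ : ℝ} (h : 0 ≤ ρ) (h' : ρ ≤ σ) (k n : ℕ) : xx ρ k n ≤ xx σ k n := by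
  unfold xx; gcongr

theorem xx_zero (ρ : ℝ) (n : ℕ) : xx ρ 0 n = if n = 0 then 1 else 0 := by
  rw [xx, rr_zero]; split_ifs with h <;> simp [h]

theorem xx_succ_zero (ρ : ℝ) (k : ℕ) : xx ρ (k + 1) 0 = 0 := by simp [xx, rr_succ_zero]

theorem xx_rec (ρ : ℝ) (k n : ℕ) : ((n : ℝ) + 1) * xx ρ (k + 1) (n + 1) + xx ρ (k + 2) n
    = ρ ^ 2 * xx ρ k n
      + ∑ i ∈ range (n + 1), xx ρ 1 i * (ρ * xx ρ k (n - i) + xx ρ (k + 1) (n - i)) := by
  have e : ((rr (k + 1) (n + 1) + rr (k + 2) n : ℕ) : ℝ) = ((rr k n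
      + ∑ i ∈ range (n + 1), n.choose i * (rr 1 i * rr k (n - i))
      + ∑ i ∈ range (n + 1), n.choose i * (rr 1 i * rr (k + 1) (n - i)) : ℕ) : ℝ) := by
    rw [rr_rec]
  push_cast at e
  have hf : (n.factorial : ℝ) ≠ 0 := by positivity
  have e2 : ∑ i ∈ range (n + 1), xx ρ 1 i * (ρ * xx ρ k (n - i) + xx ρ (k + 1) (n - i))
      = ρ ^ (n + k + 2) / n.factorial *
        (∑ i ∈ range (n + 1), (n.choose i : ℝ) * (rr 1 i * rr k (n - i))
        + ∑ i ∈ range (n + 1), (n.choose i : ℝ) * (rr 1 i * rr (k + 1) (n - i))) := by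
    rw [← sum_add_distrib, mul_sum]
    refine sum_congr rfl fun i hi => ?_
    obtain ⟨j, rfl⟩ : ∃ j, n = i + j := ⟨n - i, by have := mem_range.1 hi; omega⟩
    rw [Nat.add_sub_cancel_left, Nat.cast_add_choose]
    unfold xx
    field_simp
    ring
  rw [e2]
  generalize ∑ i ∈ range (n + 1), (n.choose i : ℝ) * (rr 1 i * rr k (n - i)) = A at *
  generalize ∑ i ∈ range (n + 1), (n.choose i : ℝ) * (rr 1 i * rr (k + 1) (n - i)) = B at *
  unfold xx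
  rw [Nat.factorial_succ]
  push_cast
  field_simp
  linear_combination (ρ ^ (n + k + 2)) * e

theorem sys_xx {ρ : ℝ} (r1 : 1.4329 ≤ ρ) (r2 : ρ ≤ 1.433) :
    Sys ρ (xx ρ 1) (xx ρ 2) (xx ρ 3) := by
  have h0 : 0 ≤ ρ := by linarith
  refine ⟨r1, r2, xx_succ_zero ρ 0, xx_nonneg h0 2, xx_nonneg h0 3, ?_, ?_, ?_⟩
  · intro n hn
    have e := xx_rec ρ 0 n
    simp only [mul_add, sum_add_distrib] at e
    rw [sum_range_succ, sum_eq_zero (fun i hi => by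
      rw [xx_zero, if_neg (by have := mem_range.1 hi; omega)]; simp), xx_zero, xx_zero,
      if_neg (by omega), if_pos (Nat.sub_self n)] at e
    linarith
  · intro n
    have e := xx_rec ρ 1 n
    simp only [mul_add, sum_add_distrib, mul_left_comm _ ρ, ← mul_sum] at e
    linarith
  · intro n
    have e := xx_rec ρ 2 n
    simp only [mul_add, sum_add_distrib, mul_left_comm _ ρ, ← mul_sum] at e
    have := xx_nonneg h0 (2 + 2) n
    linarith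

noncomputable def lo : ℝ := (1432967 : ℕ) / (1000000 : ℕ)
noncomputable def hi : ℝ := (1432968 : ℕ) / (1000000 : ℕ)

theorem lo_eq : lo = 1.432967 := by norm_num [lo]
theorem hi_eq : hi = 1.432968 := by norm_num [hi]

theorem certLo : ∀ n ≤ 1000, (∀ k ≤ 8, 2 ^ 40 * xx lo k n ≤ dig (ULo k) n) ∧
    (∀ k, (dig (LLo k) n : ℝ) ≤ 2 ^ 40 * xx lo k n) :=
  cert_sound (by norm_num) (by norm_num) (by norm_num) (xx_nonneg (by norm_num [lo]))
    (xx_zero _) (xx_succ_zero _) (xx_rec _) rfl rfl (fun _ => rfl) hZLo hULo hLLo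

theorem certHi : ∀ n ≤ 1000, (∀ k ≤ 8, 2 ^ 40 * xx hi k n ≤ dig (UHi k) n) ∧
    (∀ k, (dig (LHi k) n : ℝ) ≤ 2 ^ 40 * xx hi k n) :=
  cert_sound (by norm_num) (by norm_num) (by norm_num) (xx_nonneg (by norm_num [hi]))
    (xx_zero _) (xx_succ_zero _) (xx_rec _) rfl rfl (fun _ => rfl) hZHi hUHi hLHi

theorem num1 : allTo (fun i => (Nat.beq i 0 || Nat.ble (2 ^ 40) (dig (LLo 1) i)) &&
    Nat.ble (2 * i * dig (UHi 1) i) ((2 * i + 3) * 2 ^ 40) &&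
    Nat.ble (10 * dig (UHi 2) i) (119 * 2 ^ 40) &&
    Nat.ble (dig (UHi 3) i) (70 * 2 ^ 40)) 1001 = true := by decide +kernel

theorem num2 : 1187 * 2 ^ 40 ≤ 100 * dig (LLo 2) 1000 ∧ 10440 * 2 ^ 40 ≤ sumd (LLo 2) 1001 ∧
    sumd (UHi 2) 1001 ≤ 10445 * 2 ^ 40 ∧ sumd (UHi 3) 1001 ≤ 55055 * 2 ^ 40 ∧
    10000 * sumd (ULo 1) 1001 ≤ 10064065 * 2 ^ 40 ∧
    10067555 * 2 ^ 40 ≤ 10000 * sumd (LHi 1) 1001 := by decide +kernel

def hq (n : ℕ) : ℚ := Nat.rec 0 (fun i acc => acc + 1 / ((i : ℚ) + 1)) n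

theorem hq_eq (n : ℕ) : (hq n : ℝ) = H n := by
  induction n with
  | zero => simp [hq, H]
  | succ n ih =>
    rw [H_succ, ← ih]
    show (((hq n + 1 / ((n : ℚ) + 1) : ℚ)) : ℝ) = _
    push_cast; ring

theorem H1000 : 7.48547 ≤ H 1000 ∧ H 1000 ≤ 7.485471 := by
  have : (748547 / 100000 : ℚ) ≤ hq 1000 ∧ hq 1000 ≤ 7485471 / 1000000 := by decide +kernel
  rw [← hq_eq]
  have a : ((748547 / 100000 : ℚ) : ℝ) ≤ hq 1000 := Rat.cast_le.2 this.1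
  have b : (hq 1000 : ℝ) ≤ ((7485471 / 1000000 : ℚ) : ℝ) := Rat.cast_le.2 this.2
  push_cast at a b
  constructor <;> linarith

theorem sum_up {ρ : ℝ} {k : ℕ} {P : ℕ} (h : ∀ n ≤ 1000, 2 ^ 40 * xx ρ k n ≤ dig P n) :
    2 ^ 40 * ∑ i ∈ range (1000 + 1), xx ρ k i ≤ (sumd P 1001 : ℝ) := by
  rw [sumd_eq, mul_sum]; push_cast
  exact sum_le_sum fun i hi => h i (by have := mem_range.1 hi; omega)

theorem sum_low {ρ : ℝ} {k : ℕ} {P : ℕ} (h : ∀ n ≤ 1000, (dig P n : ℝ) ≤ 2 ^ 40 * xx ρ k n) :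
    (sumd P 1001 : ℝ) ≤ 2 ^ 40 * ∑ i ∈ range (1000 + 1), xx ρ k i := by
  rw [sumd_eq, mul_sum]; push_cast
  exact sum_le_sum fun i hi => h i (by have := mem_range.1 hi; omega)

theorem pt (i : ℕ) (hi' : i ≤ 1000) : (1 ≤ i → 1 ≤ xx lo 1 i) ∧ i * (xx hi 1 i - 1) ≤ 3 / 2 ∧
    xx hi 2 i ≤ 11.9 ∧ xx hi 3 i ≤ 70 := by
  have h := allTo_spec num1 i (by omega)
  simp only [Bool.and_eq_true, Bool.or_eq_true, Nat.beq_eq, Nat.ble_eq] at h
  obtain ⟨⟨⟨h1, h2⟩, h3⟩, h4⟩ := h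
  have a1 := (certLo i hi').2 1
  have a2 := (certHi i hi').1 1 (by norm_num)
  have a3 := (certHi i hi').1 2 (by norm_num)
  have a4 := (certHi i hi').1 3 (by norm_num)
  have b2 : ((2 * i * dig (UHi 1) i : ℕ) : ℝ) ≤ (((2 * i + 3) * 2 ^ 40 : ℕ) : ℝ) := Nat.cast_le.2 h2
  have b3 : ((10 * dig (UHi 2) i : ℕ) : ℝ) ≤ ((119 * 2 ^ 40 : ℕ) : ℝ) := Nat.cast_le.2 h3
  have b4 : ((dig (UHi 3) i : ℕ) : ℝ) ≤ ((70 * 2 ^ 40 : ℕ) : ℝ) := Nat.cast_le.2 h4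
  push_cast at b2 b3 b4
  refine ⟨fun h => ?_, ?_, by linarith, by linarith⟩
  · rcases h1 with h1 | h1
    · omega
    have b1 : ((2 ^ 40 : ℕ) : ℝ) ≤ ((dig (LLo 1) i : ℕ) : ℝ) := Nat.cast_le.2 h1
    push_cast at b1
    linarith
  · have := mul_le_mul_of_nonneg_left a2 (Nat.cast_nonneg (α := ℝ) i)
    linarith

theorem sums : 11.87 ≤ xx lo 2 1000 ∧ 10440 ≤ ∑ i ∈ range (1000 + 1), xx lo 2 i ∧
    ∑ i ∈ range (1000 + 1), xx hi 2 i ≤ 10445 ∧ ∑ i ∈ range (1000 + 1), xx hi 3 i ≤ 55055 ∧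
    ∑ i ∈ range (1000 + 1), xx lo 1 i ≤ 1006.4065 ∧
    1006.7555 ≤ ∑ i ∈ range (1000 + 1), xx hi 1 i := by
  obtain ⟨h1, h2, h3, h4, h5, h6⟩ := num2
  have a1 := (certLo 1000 le_rfl).2 2
  have a2 := sum_low fun n hn => (certLo n hn).2 2
  have a3 := sum_up fun n hn => (certHi n hn).1 2 (by norm_num)
  have a4 := sum_up fun n hn => (certHi n hn).1 3 (by norm_num)
  have a5 := sum_up fun n hn => (certLo n hn).1 1 (by norm_num)
  have a6 := sum_low fun n hn => (certHi n hn).2 1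
  have b1 := (Nat.cast_le (α := ℝ)).2 h1
  have b2 := (Nat.cast_le (α := ℝ)).2 h2
  have b3 := (Nat.cast_le (α := ℝ)).2 h3
  have b4 := (Nat.cast_le (α := ℝ)).2 h4
  have b5 := (Nat.cast_le (α := ℝ)).2 h5
  have b6 := (Nat.cast_le (α := ℝ)).2 h6
  generalize dig (LLo 2) 1000 = c1 at *
  generalize sumd (LLo 2) 1001 = c2 at *
  generalize sumd (UHi 2) 1001 = c3 at *
  generalize sumd (UHi 3) 1001 = c4 at *
  generalize sumd (ULo 1) 1001 = c5 at *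
  generalize sumd (LHi 1) 1001 = c6 at *
  push_cast at b1 b2 b3 b4 b5 b6
  refine ⟨?_, ?_, ?_, ?_, ?_, ?_⟩ <;> linarith

theorem inv_base {ρ : ℝ} (r1 : lo ≤ ρ) (r2 : ρ ≤ hi) :
    Inv ρ (xx ρ 1) (xx ρ 2) (xx ρ 3) 1000 := by
  have l0 : 0 ≤ lo := by norm_num [lo]
  have m1 := fun k n => xx_mono l0 r1 k n
  have m2 := fun k n => xx_mono (l0.trans r1) r2 k n
  obtain ⟨s1, s2, s3, s4, -, -⟩ := sums
  obtain ⟨h1, h2⟩ := H1000
  have t2 : ∑ i ∈ range (1000 + 1), xx lo 2 i ≤ ∑ i ∈ range (1000 + 1), xx ρ 2 i :=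
    sum_le_sum fun i _ => m1 2 i
  have t3 : ∑ i ∈ range (1000 + 1), xx ρ 2 i ≤ ∑ i ∈ range (1000 + 1), xx hi 2 i :=
    sum_le_sum fun i _ => m2 2 i
  have t4 : ∑ i ∈ range (1000 + 1), xx ρ 3 i ≤ ∑ i ∈ range (1000 + 1), xx hi 3 i :=
    sum_le_sum fun i _ => m2 3 i
  have r3 : 1.432967 ≤ ρ := lo_eq ▸ r1
  have r4 : ρ ≤ 1.432968 := hi_eq ▸ r2
  have u1 : 10.7264 ≤ ρ * H 1000 := by nlinarith
  have u2 : ρ * H 1000 ≤ 10.7265 := by nlinarith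
  have u3 : 56 ≤ H 1000 ^ 2 := by nlinarith
  have u4 : H 1000 ^ 2 ≤ 56.04 := by nlinarith
  have eW : WW ρ (xx ρ 2) 1000 = (∑ i ∈ range (1000 + 1), xx ρ 2 i) / 1001
      - ρ * H 1000 - ρ / 1001 := by
    rw [WW, H_succ]; norm_num; ring
  have eT : TT 1000 = 2 * (H 1000 ^ 2 + 2 * H 1000 + 3) / 1001 := by rw [TT]; norm_num
  refine ⟨fun i a b => ⟨((pt i b).1 a).trans (m1 1 i), ?_⟩, fun j hj => ?_, ?_, ?_, ?_,
    fun j hj => ?_, ?_⟩
  · refine le_trans (mul_le_mul_of_nonneg_left ?_ (Nat.cast_nonneg i)) (pt i b).2.1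
    linarith [m2 1 i]
  · linarith [(pt j hj).2.2.1, m2 2 j]
  · linarith [m1 2 1000]
  · rw [eW, eT]; linarith
  · rw [eW, eT]; linarith
  · linarith [(pt j hj).2.2.2, m2 3 j]
  · push_cast; linarith

noncomputable def GG (n : ℕ) (ρ : ℝ) : ℝ := FF ρ (xx ρ 1) n

theorem GG_eq (n : ℕ) (ρ : ℝ) : GG n ρ = ρ * (∑ i ∈ range (n + 1),
    (rr 1 i : ℝ) * ρ ^ i / i.factorial - H n / 2) - (n + 1) := by
  rw [GG, FF, sum_sub_distrib, mul_sub, mul_sum]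
  have : ∑ i ∈ range (n + 1), xx ρ 1 i
      = ∑ i ∈ range (n + 1), ρ * ((rr 1 i : ℝ) * ρ ^ i / i.factorial) :=
    sum_congr rfl fun i _ => by rw [xx]; ring
  rw [this]; simp; ring

theorem GG_cont (n : ℕ) : Continuous (GG n) := by
  have : GG n = fun ρ => ρ * (∑ i ∈ range (n + 1),
    (rr 1 i : ℝ) * ρ ^ i / i.factorial - H n / 2) - (n + 1) := funext (GG_eq n)
  rw [this]; fun_prop

theorem GG_mono {n : ℕ} {ρ σ : ℝ} (h0 : 0 < ρ) (h : ρ ≤ σ) (h1 : 0 ≤ GG n ρ) :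
    GG n ρ ≤ GG n σ := by
  rw [GG_eq] at h1
  rw [GG_eq, GG_eq]
  have a : ∑ i ∈ range (n + 1), (rr 1 i : ℝ) * ρ ^ i / i.factorial
      ≤ ∑ i ∈ range (n + 1), (rr 1 i : ℝ) * σ ^ i / i.factorial :=
    sum_le_sum fun i _ => by gcongr
  generalize ∑ i ∈ range (n + 1), (rr 1 i : ℝ) * ρ ^ i / i.factorial = A at *
  generalize ∑ i ∈ range (n + 1), (rr 1 i : ℝ) * σ ^ i / i.factorial = B at *
  have b : 0 ≤ A - H n / 2 := by
    have : (0 : ℝ) ≤ n := Nat.cast_nonneg n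
    exact nonneg_of_mul_nonneg_right (by linarith) h0
  have := mul_le_mul h (sub_le_sub_right a (H n / 2)) b (by linarith)
  linarith

def Good (n : ℕ) (ρ : ℝ) : Prop := ∀ m, 1000 ≤ m → m < n → 0.044 ≤ GG m ρ ∧ GG m ρ ≤ 0.392

theorem inv_good {ρ : ℝ} (r1 : lo ≤ ρ) (r2 : ρ ≤ hi) : ∀ n, 1000 ≤ n → Good n ρ →
    Inv ρ (xx ρ 1) (xx ρ 2) (xx ρ 3) n := by
  have hs : Sys ρ (xx ρ 1) (xx ρ 2) (xx ρ 3) :=
    sys_xx (by rw [lo_eq] at r1; linarith) (by rw [hi_eq] at r2; linarith)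
  intro n hn
  induction n, hn using Nat.le_induction with
  | base => exact fun _ => inv_base r1 r2
  | succ n hn ih =>
    intro hg
    have := hg n hn (by omega)
    exact (step_inv H1000 hs hn (ih fun m a b => hg m a (by omega)) this.1 this.2).1

theorem ivt2 {f : ℝ → ℝ} (hf : Continuous f) {a b c d : ℝ} (hab : a ≤ b) (hcd : c ≤ d)
    (ha : f a ≤ c) (hb : d ≤ f b) : ∃ l u, a ≤ l ∧ l ≤ u ∧ u ≤ b ∧ f l = c ∧ f u = d := by
  obtain ⟨l, hl, e⟩ := intermediate_value_Icc hab hf.continuousOn ⟨ha, hcd.trans hb⟩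
  obtain ⟨u, hu, e'⟩ := intermediate_value_Icc hl.2 hf.continuousOn
    (show d ∈ Set.Icc (f l) (f b) from ⟨e ▸ hcd, hb⟩)
  exact ⟨l, u, hl.1, hu.1, hu.2, e, e'⟩

theorem nest : ∀ n, 1000 ≤ n → ∃ l u, lo ≤ l ∧ l ≤ u ∧ u ≤ hi ∧ Good (n + 1) l ∧
    Good (n + 1) u ∧ GG n l = 0.044 ∧ GG n u = 0.392 := by
  have l0 : 0 < lo := by norm_num [lo]
  intro n hn
  induction n, hn using Nat.le_induction with
  | base =>
    obtain ⟨-, -, -, -, s5, s6⟩ := sums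
    obtain ⟨h1, h2⟩ := H1000
    obtain ⟨l, u, a1, a2, a3, a4, a5⟩ := ivt2 (GG_cont 1000) (a := lo) (b := hi) (c := 0.044)
      (d := 0.392) (by norm_num [lo_eq, hi_eq]) (by norm_num)
      (by rw [GG, FF, sum_sub_distrib, sum_const, card_range, nsmul_eq_mul]
          have : lo * H 1000 = 1.432967 * H 1000 := by rw [lo_eq]
          push_cast; linarith)
      (by rw [GG, FF, sum_sub_distrib, sum_const, card_range, nsmul_eq_mul]
          have : hi * H 1000 = 1.432968 * H 1000 := by rw [hi_eq]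
          push_cast; linarith)
    refine ⟨l, u, a1, a2, a3, fun m b c => ?_, fun m b c => ?_, a4, a5⟩
    · obtain rfl : m = 1000 := by omega
      rw [a4]; norm_num
    · obtain rfl : m = 1000 := by omega
      rw [a5]; norm_num
  | succ n hn ih =>
    obtain ⟨l, u, a1, a2, a3, g1, g2, a4, a5⟩ := ih
    have key : ∀ ρ, lo ≤ ρ → ρ ≤ hi → Good (n + 1) ρ → ∃ X : ℝ, 0.2 ≤ X ∧ X ≤ 0.65 ∧
        ((n : ℝ) + 1) * (GG (n + 1) ρ - GG n ρ) = 2 * GG n ρ - X := fun ρ r1 r2 hg => by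
      have hs : Sys ρ (xx ρ 1) (xx ρ 2) (xx ρ 3) :=
        sys_xx (by rw [lo_eq] at r1; linarith) (by rw [hi_eq] at r2; linarith)
      have := hg n hn (by omega)
      exact (step_inv H1000 hs hn (inv_good r1 r2 n hn fun m a b => hg m a (by omega))
        this.1 this.2).2
    have hp : (0 : ℝ) < (n : ℝ) + 1 := by positivity
    obtain ⟨X, x1, x2, x3⟩ := key l a1 (a2.trans a3) g1
    obtain ⟨Y, y1, y2, y3⟩ := key u (a1.trans a2) a3 g2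
    obtain ⟨l', u', b1, b2, b3, b4, b5⟩ := ivt2 (GG_cont (n + 1)) (c := 0.044) (d := 0.392) a2
      (by norm_num) (by nlinarith) (by nlinarith)
    have conv : ∀ ρ, l ≤ ρ → ρ ≤ u → Good (n + 1) ρ := fun ρ c1 c2 m d1 d2 => by
      have e1 := g1 m d1 d2
      have e2 := g2 m d1 d2
      have e3 := GG_mono (n := m) (by linarith) c1 (by linarith [e1.1])
      have e4 := GG_mono (n := m) (by linarith) c2 (by linarith [e1.1])
      exact ⟨by linarith [e1.1], by linarith [e2.2]⟩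
    refine ⟨l', u', by linarith, b2, by linarith, fun m c d => ?_, fun m c d => ?_, b4, b5⟩
    · rcases Nat.lt_succ_iff_lt_or_eq.1 d with h | rfl
      · exact conv l' b1 (by linarith) m c h
      · rw [b4]; norm_num
    · rcases Nat.lt_succ_iff_lt_or_eq.1 d with h | rfl
      · exact conv u' (by linarith) b3 m c h
      · rw [b5]; norm_num

theorem exists_rho : ∃ ρ, lo ≤ ρ ∧ ρ ≤ hi ∧ ∀ n, Good n ρ := by
  let K : ℕ → Set ℝ := fun n => Set.Icc lo hi ∩ {ρ | Good n ρ}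
  have hc : ∀ n, IsClosed (K n) := fun n => by
    refine isClosed_Icc.inter ?_
    simp only [Good, Set.ofPred_forall]
    refine isClosed_iInter fun m => isClosed_iInter fun _ => isClosed_iInter fun _ => ?_
    exact (isClosed_le continuous_const (GG_cont m)).inter
      (isClosed_le (GG_cont m) continuous_const)
  obtain ⟨ρ, hρ⟩ := IsCompact.nonempty_iInter_of_sequence_nonempty_isCompact_isClosed K
    (fun n ρ h => ⟨h.1, fun m a b => h.2 m a (by omega)⟩)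
    (fun n => by
      obtain ⟨l, u, a1, a2, a3, g1, -⟩ := nest (n + 1000) (by omega)
      exact ⟨l, ⟨a1, a2.trans a3⟩, fun m a b => g1 m a (by omega)⟩)
    (isCompact_Icc.of_isClosed_subset (hc 0) Set.inter_subset_left) hc
  have h := Set.mem_iInter.1 hρ
  exact ⟨ρ, (h 0).1.1, (h 0).1.2, fun n => (h n).2⟩

theorem main_rho : ∃ ρ, 1.432967 ≤ ρ ∧ ρ ≤ 1.432968 ∧
    ∀ n : ℕ, 1 ≤ n → 1 ≤ xx ρ 1 n ∧ n * (xx ρ 1 n - 1) ≤ 3 / 2 := by
  obtain ⟨ρ, r1, r2, hg⟩ := exists_rho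
  exact ⟨ρ, lo_eq ▸ r1, hi_eq ▸ r2, fun n hn =>
    (inv_good r1 r2 (n + 1000) (by omega) (hg _)).j1 n hn (by omega)⟩

end Pool.Agent.H122Z.Srt
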