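import Mathlib

set_option autoImplicit false

namespace Pool.Agent.H122Z.Srt

inductive Tr
  | nil : Tr
  | node (l : Tr) (x : ℕ) (r : Tr) : Tr

namespace Tr

def post : Tr → List ℕ
  | nil => []
  | node l x r => l.post ++ r.post ++ [x]

def inord : Tr → List ℕ
  | nil => []
  | node l x r => l.inord ++ x :: r.inord

def root : Tr → ℕ
  | nil => 0
  | node _ x _ => x

def lmD : Tr → ℕ → ℕ
  | nil, d => d
  | node l x _, _ => lmD l x

def lm (T : Tr) : ℕ := lmD T 0

def Dec : Tr → Prop
  | nil => True
  | node l x r => Dec l ∧ Dec r ∧ (∀ y ∈ l.post, y < x) ∧ (∀ y ∈ r.post, y < x)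

def Can : Tr → Prop
  | nil => True
  | node l x r => Can l ∧ Can r ∧ (∀ y ∈ l.post, y < x) ∧ (∀ y ∈ r.post, y < x) ∧
      (l = nil ∨ (r ≠ nil ∧ lm r < root l))

theorem lm_nil_left (x : ℕ) (r : Tr) : lm (node nil x r) = x := rfl

theorem lm_node {l : Tr} (h : l ≠ nil) (x : ℕ) (r : Tr) : lm (node l x r) = lm l := by
  cases l with
  | nil => exact absurd rfl h
  | node a b c => rfl

theorem lm_mem : ∀ {T : Tr}, T ≠ nil → lm T ∈ T.post
  | nil, h => absurd rfl h
  | node l x r, _ => by
    by_cases h : l = nil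
    · subst h; simp [lm_nil_left, post]
    · rw [lm_node h]; have := lm_mem h; simp [post, this]

theorem root_mem : ∀ {T : Tr}, T ≠ nil → root T ∈ T.post
  | nil, h => absurd rfl h
  | node l x r, _ => by simp [root, post]

theorem le_root : ∀ {T : Tr}, Can T → ∀ y ∈ T.post, y ≤ root T
  | nil, _ => by simp [post]
  | node l x r, h => by
    intro y hy
    obtain ⟨-, -, h1, h2, -⟩ := h
    simp only [post, List.mem_append, List.mem_singleton] at hy
    rcases hy with (hy | hy) | hy
    · exact (h1 y hy).le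
    · exact (h2 y hy).le
    · exact hy.le

theorem Can.dec : ∀ {T : Tr}, Can T → Dec T
  | nil, _ => trivial
  | node _ _ _, h => ⟨h.1.dec, h.2.1.dec, h.2.2.1, h.2.2.2.1⟩

theorem post_perm : ∀ T : Tr, T.post.Perm T.inord
  | nil => List.Perm.refl _
  | node l x r => by
    simp only [post, inord, List.append_assoc]
    exact (post_perm l).append
      ((List.perm_append_singleton x _).trans ((post_perm r).cons x))

theorem post_eq_nil {T : Tr} (h : T.post = []) : T = nil := by
  cases T with
  | nil => rfl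
  | node l x r => simp [post] at h

/-- One step of the greedy parser. -/
def step : List Tr → ℕ → List Tr
  | [], x => [node nil x nil]
  | [a], x => if root a < x then [node nil x a] else [node nil x nil, a]
  | a :: b :: S, x => if root a < x then
      (if root b < x then node b x a :: S else node nil x a :: b :: S)
      else node nil x nil :: a :: b :: S

theorem run : ∀ (T : Tr), Can T → T ≠ nil → ∀ S : List Tr,
    (∀ a ∈ S.head?, lm T < root a) → T.post.foldl step S = T :: S
  | nil, _, h, _, _ => absurd rfl h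
  | node l x r, hc, _, S, hS => by
    obtain ⟨hl, hr, h1, h2, h3⟩ := hc
    by_cases hln : l = nil
    · subst hln
      rw [lm_nil_left] at hS
      by_cases hrn : r = nil
      · subst hrn
        match S, hS with
        | [], _ => simp [post, step]
        | [a], hS =>
          have : ¬ root a < x := by have := hS a (by simp); omega
          simp [post, step, this]
        | a :: b :: S, hS =>
          have : ¬ root a < x := by have := hS a (by simp); omega
          simp [post, step, this]
      · have hrx : root r < x := h2 _ (root_mem hrn)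
        have := run r hr hrn S (fun a ha => (h2 _ (lm_mem hrn)).trans (hS a ha))
        simp only [post, List.nil_append, List.foldl_append, this, List.foldl_cons,
          List.foldl_nil]
        match S, hS with
        | [], _ => simp [step, hrx]
        | b :: S, hS =>
          have : ¬ root b < x := by have := hS b (by simp); omega
          simp [step, hrx, this]
    · rcases h3 with h3 | ⟨hrn, h3⟩
      · exact absurd h3 hln
      rw [lm_node hln] at hS
      have e1 := run l hl hln S hS
      have e2 := run r hr hrn (l :: S) (by simpa using h3)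
      have hrx : root r < x := h2 _ (root_mem hrn)
      have hlx : root l < x := h1 _ (root_mem hln)
      simp only [post, List.foldl_append, e1, e2, List.foldl_cons, List.foldl_nil]
      simp [step, hrx, hlx]

theorem post_inj {T T' : Tr} (h : Can T) (h' : Can T') (e : T.post = T'.post) : T = T' := by
  by_cases hn : T = nil
  · subst hn; exact (post_eq_nil e.symm).symm
  by_cases hn' : T' = nil
  · subst hn'; exact post_eq_nil e
  have e1 := run T h hn [] (by simp)
  have e2 := run T' h' hn' [] (by simp)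
  rw [e, e2] at e1
  simpa using e1.symm

def Graft (R : Tr) : Prop := ∀ L : Tr, Can L → L ≠ nil → R ≠ nil →
  (∀ a ∈ L.post, ∀ b ∈ R.post, a ≠ b) → root L < lm R →
  ∃ R', Can R' ∧ R' ≠ nil ∧ R'.post = L.post ++ R.post ∧ root R' = root R

theorem join {R : Tr} (hR : Can R) (hg : Graft R) {L : Tr} (hL : Can L) {x : ℕ}
    (hd : ∀ a ∈ L.post, ∀ b ∈ R.post, a ≠ b) (h1 : ∀ y ∈ L.post, y < x)
    (h2 : ∀ y ∈ R.post, y < x) :
    ∃ T, Can T ∧ T ≠ nil ∧ T.post = L.post ++ R.post ++ [x] ∧ root T = x := by
  by_cases hLn : L = nil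
  · subst hLn
    exact ⟨node nil x R, ⟨trivial, hR, h1, h2, Or.inl rfl⟩, by simp, rfl, rfl⟩
  by_cases hRn : R = nil
  · subst hRn
    exact ⟨node nil x L, ⟨trivial, hL, by simp [post], h1, Or.inl rfl⟩, by simp,
      by simp [post], rfl⟩
  by_cases hlt : lm R < root L
  · exact ⟨node L x R, ⟨hL, hR, h1, h2, Or.inr ⟨hRn, hlt⟩⟩, by simp, rfl, rfl⟩
  have hne := hd _ (root_mem hLn) _ (lm_mem hRn)
  obtain ⟨R', c1, -, c3, -⟩ := hg L hL hLn hRn hd (by omega)
  refine ⟨node nil x R', ⟨trivial, c1, by simp [post], ?_, Or.inl rfl⟩, by simp,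
    by simp [post, c3], rfl⟩
  intro y hy
  rw [c3, List.mem_append] at hy
  rcases hy with hy | hy
  exacts [h1 y hy, h2 y hy]

theorem graft : ∀ (R : Tr), Can R → Graft R
  | nil, _ => fun _ _ _ h _ _ => absurd rfl h
  | node l y q, hc => by
    intro L hL hLn _ hd hlt
    obtain ⟨hl, hq, h1, h2, h3⟩ := hc
    by_cases hln : l = nil
    · subst hln
      rw [lm_nil_left] at hlt
      obtain ⟨T, c1, c2, c3, c4⟩ := join hq (graft q hq) hL (x := y)
        (fun a ha b hb => hd a ha b (by simp [post, hb]))
        (fun z hz => (le_root hL z hz).trans_lt hlt) h2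
      exact ⟨T, c1, c2, by simp [c3, post], c4⟩
    · rw [lm_node hln] at hlt
      obtain ⟨l', c1, c2, c3, c4⟩ := graft l hl L hL hLn hln
        (fun a ha b hb => hd a ha b (by simp [post, hb])) hlt
      rcases h3 with h3 | h3
      · exact absurd h3 hln
      refine ⟨node l' y q, ⟨c1, hq, ?_, h2, Or.inr ⟨h3.1, c4 ▸ h3.2⟩⟩, by simp,
        by simp [post, c3], rfl⟩
      intro z hz
      exact (le_root c1 z hz).trans_lt (c4 ▸ h1 _ (root_mem hln))

theorem exists_can : ∀ (T : Tr), Dec T → T.post.Nodup → ∃ T', Can T' ∧ T'.post = T.post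
  | nil, _, _ => ⟨nil, trivial, rfl⟩
  | node l x r, hd, hn => by
    obtain ⟨hl, hr, h1, h2⟩ := hd
    simp only [post] at hn
    have hn1 := (List.nodup_append.1 hn).1
    obtain ⟨n1, n2, n3⟩ := List.nodup_append.1 hn1
    obtain ⟨l', c1, c2⟩ := exists_can l hl n1
    obtain ⟨r', d1, d2⟩ := exists_can r hr n2
    obtain ⟨T, e1, -, e3, -⟩ := join d1 (graft r' d1) c1 (x := x)
      (by rw [c2, d2]; exact n3) (by rw [c2]; exact h1) (by rw [d2]; exact h2)
    exact ⟨T, e1, by rw [e3, c2, d2]; rfl⟩

theorem exists_dec : ∀ (n : ℕ) (w : List ℕ), w.length ≤ n → w.Nodup →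
    ∃ T, Dec T ∧ T.inord = w := by
  intro n
  induction n with
  | zero => intro w hw _; exact ⟨nil, trivial, by simpa [inord] using (List.length_eq_zero_iff.1 (by omega)).symm⟩
  | succ n ih =>
    intro w hw hn
    by_cases he : w = []
    · exact ⟨nil, trivial, he.symm⟩
    obtain ⟨m, hm, hmax⟩ := w.toFinset.exists_max_image id (by
      obtain ⟨a, ha⟩ := List.exists_mem_of_ne_nil w he
      exact ⟨a, List.mem_toFinset.2 ha⟩)
    obtain ⟨L, R, rfl⟩ := List.append_of_mem (List.mem_toFinset.1 hm)
    obtain ⟨n1, n2, n3⟩ := List.nodup_append.1 hn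
    obtain ⟨n4, n5⟩ := List.nodup_cons.1 n2
    simp only [List.length_append, List.length_cons] at hw
    obtain ⟨l, c1, c2⟩ := ih L (by omega) n1
    obtain ⟨r, d1, d2⟩ := ih R (by omega) n5
    refine ⟨node l m r, ⟨c1, d1, ?_, ?_⟩, by simp [inord, c2, d2]⟩
    · intro y hy
      have hy' : y ∈ L := c2 ▸ (post_perm l).mem_iff.1 hy
      have := hmax y (by simp [hy'])
      have := n3 y hy' m (by simp)
      simp only [id] at *; omega
    · intro y hy
      have hy' : y ∈ R := d2 ▸ (post_perm r).mem_iff.1 hy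
      have := hmax y (by simp [hy'])
      have : y ≠ m := fun e => n4 (e ▸ hy')
      simp only [id] at *; omega

theorem sort_inord {s : List ℕ → List ℕ} (h0 : s [] = [])
    (h1 : ∀ (L R : List ℕ) (m : ℕ), (L ++ m :: R).Nodup → (∀ x ∈ L, x < m) →
      (∀ x ∈ R, x < m) → s (L ++ m :: R) = s L ++ s R ++ [m]) :
    ∀ T : Tr, Dec T → T.inord.Nodup → s T.inord = T.post
  | nil, _, _ => h0
  | node l x r, hd, hn => by
    obtain ⟨hl, hr, a1, a2⟩ := hd
    simp only [inord] at hn ⊢
    obtain ⟨n1, n2, -⟩ := List.nodup_append.1 hn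
    rw [h1 _ _ _ hn (fun y hy => a1 y ((post_perm l).mem_iff.2 hy))
      (fun y hy => a2 y ((post_perm r).mem_iff.2 hy)), sort_inord h0 h1 l hl n1,
      sort_inord h0 h1 r hr (List.nodup_cons.1 n2).2]
    rfl

end Tr

end Pool.Agent.H122Z.Srt
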