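import Mathlib

/-!
The square wave, its Gaussian smoothing and a derivative formula.
-/

open MeasureTheory Real Filter Topology Set ProbabilityTheory
open scoped NNReal

namespace Pool.Agent.H122Z

/-- the square wave -/
noncomputable def sqw (t : ℝ) : ℝ := (-1 : ℝ) ^ (⌊t⌋ : ℤ)

lemma abs_negOne_zpow (m : ℤ) : |(-1 : ℝ) ^ m| = 1 := by
  rw [abs_zpow]; simp

lemma abs_sqw (t : ℝ) : |sqw t| = 1 := abs_negOne_zpow _

lemma sqw_add_int (t : ℝ) (m : ℤ) : sqw (t + m) = (-1 : ℝ) ^ m * sqw t := by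
  unfold sqw
  rw [Int.floor_add_intCast, zpow_add₀ (by norm_num), mul_comm]

lemma sqw_add_one (t : ℝ) : sqw (t + 1) = - sqw t := by
  have := sqw_add_int t 1
  simpa using this

lemma measurable_sqw : Measurable sqw := by
  unfold sqw
  exact (measurable_of_countable (fun m : ℤ => (-1 : ℝ) ^ m)).comp Int.measurable_floor

lemma negOne_zpow_neg (m : ℤ) : (-1 : ℝ) ^ (-m) = (-1 : ℝ) ^ m := by
  rw [zpow_neg, ← inv_zpow]; norm_num

lemma sqw_neg (t : ℝ) (ht : t ∉ range (Int.cast : ℤ → ℝ)) : sqw (-t) = - sqw t := by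
  unfold sqw
  rw [Int.floor_neg, (Int.ceil_eq_floor_add_one_iff_notMem t).2 ht, negOne_zpow_neg,
    zpow_add₀ (by norm_num)]
  simp

lemma sqw_of_mem (t : ℝ) (h0 : 0 ≤ t) (h1 : t < 1) : sqw t = 1 := by
  unfold sqw
  rw [Int.floor_eq_zero_iff.2 ⟨h0, h1⟩]; simp

lemma sqw_cases (t : ℝ) : sqw t = 1 ∨ sqw t = -1 := by
  have := abs_sqw t
  rcases abs_eq (by norm_num : (0:ℝ) ≤ 1) |>.1 this with h | h
  · exact Or.inl h
  · exact Or.inr h

lemma summable_exp_neg_abs : Summable (fun m : ℤ => exp (-|(m : ℝ)|)) := by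
  apply Summable.of_nat_of_neg
  · simpa using Real.summable_exp_neg_nat
  · simpa using Real.summable_exp_neg_nat

lemma integrable_exp_neg_abs' : Integrable (fun s : ℝ => exp (-|s|)) := by
  have h := (integrable_exp_neg_mul_sq (b := 1) one_pos)
  have h1 : IntegrableOn (fun s : ℝ => exp (-|s|)) (Ioi 0) := by
    refine (integrableOn_exp_neg_Ioi 0).congr_fun (fun x hx => ?_) measurableSet_Ioi
    simp only [mem_Ioi] at hx
    simp [abs_of_pos hx]
  have h2 : IntegrableOn (fun s : ℝ => exp (-|s|)) (Iic 0) := by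
    refine (integrableOn_exp_Iic 0).congr_fun (fun x hx => ?_) measurableSet_Iic
    simp only [mem_Iic] at hx
    simp [abs_of_nonpos hx]
  have := h2.union h1
  rwa [Iic_union_Ioi, integrableOn_univ] at this

section D1
variable {g : ℝ → ℝ} {C : ℝ}

lemma integrable_of_bound (hg : Continuous g) (hC : ∀ s, |g s| ≤ C * exp (-|s|)) :
    Integrable g :=
  (integrable_exp_neg_abs'.const_mul C).mono' hg.aestronglyMeasurable
    (Eventually.of_forall fun s => by simpa using hC s)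

lemma summable_of_bound (hC : ∀ s, |g s| ≤ C * exp (-|s|)) (c : ℤ → ℝ) (hc : ∀ m, |c m| ≤ 1) :
    Summable (fun m : ℤ => c m * g m) := by
  refine Summable.of_norm_bounded (summable_exp_neg_abs.mul_left C) (fun m => ?_)
  rw [Real.norm_eq_abs, abs_mul]
  calc |c m| * |g m| ≤ 1 * |g m| := by gcongr; exact hc m
    _ ≤ _ := by rw [one_mul]; exact hC m

lemma continuous_G (hg : Continuous g) (hC : ∀ s, |g s| ≤ C * exp (-|s|)) :
    Continuous (fun y : ℝ => ∑' m : ℤ, (-1 : ℝ) ^ m * g (y + m)) := by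
  have hC0 : 0 ≤ C := by
    have := (abs_nonneg _).trans (hC 0)
    simpa using this
  rw [continuous_iff_continuousAt]
  intro y
  have hR : ContinuousOn (fun y : ℝ => ∑' m : ℤ, (-1 : ℝ) ^ m * g (y + m))
      (Ioo (-(|y| + 1)) (|y| + 1)) := by
    refine continuousOn_tsum (u := fun m : ℤ => C * exp (|y| + 1) * exp (-|(m : ℝ)|))
      (fun m => by fun_prop) (summable_exp_neg_abs.mul_left _) (fun m x hx => ?_)
    rw [Real.norm_eq_abs, abs_mul, abs_negOne_zpow, one_mul, mul_assoc, ← exp_add]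
    refine (hC _).trans ?_
    gcongr
    have h1 : |x| < |y| + 1 := abs_lt.2 hx
    have h2 : |(m : ℝ)| ≤ |x + m| + |x| := by
      have := abs_sub (x + m) x
      simpa using this
    linarith
  refine hR.continuousAt (Ioo_mem_nhds ?_ ?_)
  · linarith [neg_abs_le y]
  · linarith [le_abs_self y]

lemma integral_sqw_mul (hg : Continuous g) (hC : ∀ s, |g s| ≤ C * exp (-|s|)) (p : ℝ) :
    ∫ u, sqw (u + p) * g u =
      ∫ x in (-p)..(1 - p), ∑' m : ℤ, (-1 : ℝ) ^ m * g (x + m) := by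
  have hgi := integrable_of_bound hg hC
  have hgp : Integrable (fun u => g (u - p)) := hgi.comp_sub_right p
  have h1 : ∫ u, sqw (u + p) * g u = ∫ u, sqw u * g (u - p) := by
    rw [← integral_add_right_eq_self (fun u => sqw u * g (u - p)) p]
    simp
  have hi : Integrable (fun u => sqw u * g (u - p)) :=
    hgp.bdd_mul (c := 1) measurable_sqw.aestronglyMeasurable
      (Eventually.of_forall fun x => by rw [Real.norm_eq_abs, abs_sqw])
  have h2 := hi.hasSum_intervalIntegral_comp_add_int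
  have h3 : ∀ m : ℤ, ∫ x in (0:ℝ)..1, sqw (x + m) * g (x + m - p) =
      ∫ x in Ioo (0:ℝ) 1, (-1 : ℝ) ^ m * g (x - p + m) := by
    intro m
    rw [intervalIntegral.integral_of_le zero_le_one, integral_Ioc_eq_integral_Ioo]
    refine setIntegral_congr_fun measurableSet_Ioo (fun x hx => ?_)
    show sqw (x + m) * g (x + m - p) = (-1 : ℝ) ^ m * g (x - p + m)
    rw [sqw_add_int, sqw_of_mem x hx.1.le hx.2, mul_one]
    congr 2; ring
  simp_rw [h3] at h2
  have h4 := hasSum_integral_of_summable_integral_norm (μ := volume.restrict (Ioo (0:ℝ) 1))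
    (F := fun (m : ℤ) (x : ℝ) => (-1 : ℝ) ^ m * g (x - p + m)) (fun m => by
      apply Integrable.integrableOn
      exact ((hgi.comp_add_right (m : ℝ)).comp_sub_right p).const_mul _) (by
      have h5 := hgp.norm.hasSum_intervalIntegral_comp_add_int.summable
      refine h5.congr (fun m => ?_)
      rw [intervalIntegral.integral_of_le zero_le_one, integral_Ioc_eq_integral_Ioo]
      refine setIntegral_congr_fun measurableSet_Ioo (fun x _ => ?_)
      simp only [norm_mul, Real.norm_eq_abs, abs_negOne_zpow, one_mul]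
      congr 2; ring)
  rw [h1, ← h2.tsum_eq, h4.tsum_eq, ← integral_Ioc_eq_integral_Ioo,
    ← intervalIntegral.integral_of_le zero_le_one]
  have := intervalIntegral.integral_comp_sub_right
    (fun x => ∑' m : ℤ, (-1 : ℝ) ^ m * g (x + m)) (a := 0) (b := 1) p
  simpa using this

theorem hasDerivAt_sqw_int (hg : Continuous g) (hC : ∀ s, |g s| ≤ C * exp (-|s|)) :
    HasDerivAt (fun p => ∫ u, sqw (u + p) * g u) (2 * ∑' m : ℤ, (-1 : ℝ) ^ m * g m) 0 := by
  set G : ℝ → ℝ := fun y => ∑' m : ℤ, (-1 : ℝ) ^ m * g (y + m) with hG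
  have hGc : Continuous G := continuous_G hg hC
  have hF : ∀ a : ℝ, HasDerivAt (fun b => ∫ x in (0:ℝ)..b, G x) (G a) a := fun a =>
    (hGc.deriv_integral G 0 a) ▸ (intervalIntegral.differentiable_integral_of_continuous hGc a).hasDerivAt
  have h1 : (fun p => ∫ u, sqw (u + p) * g u) =
      fun p => (∫ x in (0:ℝ)..(1 - p), G x) - ∫ x in (0:ℝ)..(-p), G x := by
    ext p
    rw [integral_sqw_mul hg hC p,
      intervalIntegral.integral_interval_sub_left (hGc.intervalIntegrable _ _)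
        (hGc.intervalIntegrable _ _)]
  rw [h1]
  have ha : HasDerivAt (fun p : ℝ => ∫ x in (0:ℝ)..(1 - p), G x) (G (1 - 0) * (-1)) 0 :=
    (hF (1 - 0)).comp (0:ℝ) ((hasDerivAt_id (0:ℝ)).const_sub 1)
  have hb : HasDerivAt (fun p : ℝ => ∫ x in (0:ℝ)..(-p), G x) (G (-0) * (-1)) 0 :=
    (hF (-0)).comp (0:ℝ) ((hasDerivAt_id (0:ℝ)).neg)
  have h10 : G 1 = - G 0 := by
    simp only [hG]
    rw [← tsum_neg, ← (Equiv.addRight (1:ℤ)).tsum_eq (fun m : ℤ => -((-1 : ℝ) ^ m * g (0 + m)))]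
    congr 1
    ext m
    simp only [Equiv.coe_addRight, zpow_add₀ (show (-1:ℝ) ≠ 0 by norm_num)]
    push_cast
    rw [show (1:ℝ) + m = 0 + (m + 1) by ring]
    ring
  have h0 : G 0 = ∑' m : ℤ, (-1 : ℝ) ^ m * g m := by simp [hG]
  refine (ha.sub hb).congr_deriv ?_
  rw [sub_zero, neg_zero, h10, h0]; ring

end D1

/-- Gaussian smoothing of the square wave -/
noncomputable def hs (v : ℝ≥0) (t : ℝ) : ℝ := ∫ u, sqw (t + u) ∂(gaussianReal 0 v)

lemma pdf_bound (v : ℝ≥0) (hv : v ≠ 0) (t s : ℝ) :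
    gaussianPDFReal 0 v (s - t) ≤ ((√(2 * π * v))⁻¹ * exp (v / 2 + |t|)) * exp (-|s|) := by
  have hv' : (0:ℝ) < v := by positivity
  unfold gaussianPDFReal
  rw [mul_assoc _ (exp _), ← exp_add]
  gcongr
  have h1 : |s| ≤ |s - t| + |t| := by
    have := abs_add_le (s - t) t
    simpa using this
  have h2 : |s - t| - v / 2 ≤ (s - t - 0) ^ 2 / (2 * v) := by
    rw [sub_zero, le_div_iff₀ (by positivity), ← sq_abs (s - t)]
    nlinarith [sq_nonneg (|s - t| - v)]
  rw [neg_div]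
  linarith

lemma continuous_pdf (v : ℝ≥0) : Continuous (gaussianPDFReal 0 v) := by
  unfold gaussianPDFReal
  fun_prop

lemma hs_eq (v : ℝ≥0) (hv : v ≠ 0) (t p : ℝ) :
    hs v (t + p) = ∫ u, sqw (u + p) * gaussianPDFReal 0 v (u - t) := by
  unfold hs
  rw [integral_gaussianReal_eq_integral_smul hv,
    ← integral_add_right_eq_self (fun u => sqw (u + p) * gaussianPDFReal 0 v (u - t)) t]
  congr 1
  ext u
  rw [smul_eq_mul, mul_comm, add_sub_cancel_right]
  congr 2
  ring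

lemma hasDerivAt_hs (v : ℝ≥0) (hv : v ≠ 0) (t : ℝ) :
    HasDerivAt (hs v) (2 * ∑' m : ℤ, (-1 : ℝ) ^ m * gaussianPDFReal 0 v (m - t)) t := by
  have h := hasDerivAt_sqw_int (g := fun u => gaussianPDFReal 0 v (u - t))
    ((continuous_pdf v).comp (continuous_sub_right t)) (fun s => by
      rw [abs_of_nonneg (gaussianPDFReal_nonneg _ _ _)]
      exact pdf_bound v hv t s)
  simp_rw [← hs_eq v hv t] at h
  have h2 : HasDerivAt (fun p => hs v (t + p))
      (2 * ∑' m : ℤ, (-1 : ℝ) ^ m * gaussianPDFReal 0 v (m - t)) (t - t) := by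
    rw [sub_self]; exact h
  have h3 := h2.comp_sub_const t t
  simpa using h3

lemma continuous_hs (v : ℝ≥0) (hv : v ≠ 0) : Continuous (hs v) :=
  continuous_iff_continuousAt.2 fun t => (hasDerivAt_hs v hv t).continuousAt

lemma abs_hs_le (v : ℝ≥0) (t : ℝ) : |hs v t| ≤ 1 := by
  unfold hs
  have := norm_integral_le_of_norm_le_const (μ := gaussianReal 0 v) (f := fun u => sqw (t + u))
    (C := 1) (Eventually.of_forall fun u => by rw [Real.norm_eq_abs, abs_sqw])
  simpa using this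

lemma hs_add_int (v : ℝ≥0) (t : ℝ) (m : ℤ) : hs v (t + m) = (-1 : ℝ) ^ m * hs v t := by
  unfold hs
  rw [← integral_const_mul]
  congr 1
  ext u
  rw [← sqw_add_int]
  congr 1
  ring

lemma ae_not_int (μ : Measure ℝ) [NullSingletonClass μ] (t : ℝ) :
    ∀ᵐ u ∂μ, t + u ∉ range (Int.cast : ℤ → ℝ) := by
  have : ((fun u => t + u) ⁻¹' range (Int.cast : ℤ → ℝ)).Countable :=
    (countable_range _).preimage (add_right_injective t)
  exact measure_eq_zero_iff_ae_notMem.1 (this.measure_zero μ)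

lemma hs_neg (v : ℝ≥0) (hv : v ≠ 0) (t : ℝ) : hs v (-t) = - hs v t := by
  unfold hs
  have := nullSingletonClass_gaussianReal (μ := 0) hv
  have h1 : ∫ u, sqw (-t + u) ∂(gaussianReal 0 v) = ∫ u, sqw (-t + -u) ∂(gaussianReal 0 v) := by
    have h := gaussianReal_map_neg (μ := 0) (v := v)
    rw [neg_zero] at h
    conv_lhs => rw [← h]
    rw [integral_map (by fun_prop)]
    exact (measurable_sqw.comp (by fun_prop)).aestronglyMeasurable
  rw [h1, ← integral_neg]
  refine integral_congr_ae ?_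
  filter_upwards [ae_not_int (gaussianReal 0 v) t] with u hu
  rw [← sqw_neg _ hu]
  congr 1
  ring

lemma hs_zero (v : ℝ≥0) (hv : v ≠ 0) : hs v 0 = 0 := by
  have := hs_neg v hv 0
  rw [neg_zero] at this
  linarith

/-- Poisson summation for the alternating Gaussian sum -/
lemma alt_sum_eq (v : ℝ≥0) (hv : v ≠ 0) (t : ℝ) :
    ∑' m : ℤ, (-1 : ℝ) ^ m * gaussianPDFReal 0 v (m - t) =
      ∑' k : ℤ, exp (-(2 * π ^ 2 * v) * (k - 1 / 2) ^ 2) * cos (2 * π * t * (k - 1 / 2)) := by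
  have hv' : (0:ℝ) < v := by positivity
  set a : ℝ := 1 / (2 * π * v) with ha
  have ha0 : 0 < a := by positivity
  have h := Complex.tsum_exp_neg_quadratic (a := (a : ℂ)) (by simpa using ha0)
    ((t * a : ℝ) + Complex.I / 2)
  have hπ : (π : ℂ) ≠ 0 := by exact_mod_cast pi_ne_zero
  have hvc : ((v : ℝ) : ℂ) ≠ 0 := by exact_mod_cast hv'.ne'
  have hac : (a : ℂ) = 1 / (2 * π * (v : ℝ)) := by rw [ha]; push_cast; ring
  have hs : (a : ℂ) ^ (1 / 2 : ℂ) = ((√(2 * π * v))⁻¹ : ℝ) := by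
    rw [← sqrt_inv, ← one_div, ← ha, sqrt_eq_rpow, Complex.ofReal_cpow ha0.le]
    norm_num
  have hL : ∀ m : ℤ, (((-1 : ℝ) ^ m * gaussianPDFReal 0 v (m - t) : ℝ) : ℂ) =
      ((√(2 * π * v))⁻¹ : ℝ) * Complex.exp (-(t : ℂ) ^ 2 / (2 * (v : ℝ))) *
        Complex.exp (-π * a * m ^ 2 + 2 * π * ((t * a : ℝ) + Complex.I / 2) * m) := by
    intro m
    unfold gaussianPDFReal
    have h1 : ((-1 : ℂ)) ^ m = Complex.exp (m * (π * Complex.I)) := by
      rw [Complex.exp_int_mul, Complex.exp_pi_mul_I]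
    push_cast
    rw [h1, mul_assoc _ (Complex.exp _), ← Complex.exp_add, mul_left_comm, ← Complex.exp_add, hac]
    congr 2
    field_simp
    ring
  have hR : ∀ k : ℤ, Complex.exp (-(t : ℂ) ^ 2 / (2 * (v : ℝ))) *
      Complex.exp (-π / a * (k + Complex.I * ((t * a : ℝ) + Complex.I / 2)) ^ 2) =
      (exp (-(2 * π ^ 2 * v) * (k - 1 / 2) ^ 2) : ℝ) *
        Complex.exp ((-(2 * π * t * (k - 1 / 2)) : ℝ) * Complex.I) := by
    intro k
    push_cast
    rw [← Complex.exp_add, ← Complex.exp_add, hac]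
    congr 1
    have h2 : Complex.I ^ 2 = -1 := Complex.I_sq
    have h3 : Complex.I ^ 3 = -Complex.I := Complex.I_pow_three
    have h4 : Complex.I ^ 4 = 1 := Complex.I_pow_four
    field_simp
    ring_nf
    rw [h2, h3, h4]
    ring
  have hsq : (((√(2 * π * v))⁻¹ : ℝ) : ℂ) ≠ 0 := by
    have : (0:ℝ) < (√(2 * π * v))⁻¹ := by positivity
    exact_mod_cast this.ne'
  have key : ((∑' m : ℤ, (-1 : ℝ) ^ m * gaussianPDFReal 0 v (m - t) : ℝ) : ℂ) =
      ∑' k : ℤ, (exp (-(2 * π ^ 2 * v) * (k - 1 / 2) ^ 2) : ℝ) *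
        Complex.exp ((-(2 * π * t * (k - 1 / 2)) : ℝ) * Complex.I) := by
    rw [Complex.ofReal_tsum]
    simp_rw [hL]
    rw [tsum_mul_left, h, hs]
    simp_rw [← hR]
    rw [tsum_mul_left]
    generalize (((√(2 * π * v))⁻¹ : ℝ) : ℂ) = A at hsq
    generalize (∑' (n : ℤ), Complex.exp (-π / a *
      (n + Complex.I * ((t * a : ℝ) + Complex.I / 2)) ^ 2)) = B
    field_simp
  have hsum : Summable (fun k : ℤ => ((exp (-(2 * π ^ 2 * v) * (k - 1 / 2) ^ 2) : ℝ) : ℂ) *
        Complex.exp ((-(2 * π * t * (k - 1 / 2)) : ℝ) * Complex.I)) := by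
    refine Summable.of_norm_bounded
      (summable_exp_neg_abs.mul_left (exp (1 / (8 * π ^ 2 * v) + 1 / 2))) (fun k => ?_)
    rw [norm_mul, Complex.norm_exp_ofReal_mul_I, mul_one, Complex.norm_real, Real.norm_eq_abs,
      abs_of_pos (exp_pos _), ← exp_add]
    gcongr
    have h1 : |(k : ℝ)| ≤ |(k : ℝ) - 1 / 2| + 1 / 2 := by
      have := abs_add_le ((k : ℝ) - 1 / 2) (1 / 2)
      rw [abs_of_pos (show (0:ℝ) < 1 / 2 by norm_num)] at this
      simpa using this
    set c : ℝ := 2 * π ^ 2 * v with hc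
    have hc0 : 0 < c := by positivity
    have h2 : 1 / (8 * π ^ 2 * v) = 1 / (4 * c) := by rw [hc]; ring
    rw [h2, ← sq_abs ((k : ℝ) - 1 / 2)]
    set y := |(k : ℝ) - 1 / 2|
    have h3 : y ≤ c * y ^ 2 + 1 / (4 * c) := by
      have : c * y ^ 2 + 1 / (4 * c) - y = (2 * c * y - 1) ^ 2 / (4 * c) := by
        field_simp; ring
      have h4 : 0 ≤ (2 * c * y - 1) ^ 2 / (4 * c) := by positivity
      linarith
    linarith
  have := congrArg Complex.re key
  rw [Complex.ofReal_re, Complex.re_tsum hsum] at this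
  rw [this]
  congr 1
  ext k
  rw [Complex.re_ofReal_mul, Complex.exp_ofReal_mul_I_re, cos_neg]

lemma alt_sum_pos (v : ℝ≥0) (hv : 1 ≤ v) (t : ℝ) (ht : |t| ≤ 1 / 3) :
    0 < ∑' m : ℤ, (-1 : ℝ) ^ m * gaussianPDFReal 0 v (m - t) := by
  have hv0 : v ≠ 0 := by positivity
  have hv1 : (1:ℝ) ≤ v := by exact_mod_cast hv
  rw [alt_sum_eq v hv0 t]
  set c : ℝ := 2 * π ^ 2 * v with hc
  have hc2 : 2 ≤ c := by
    have := pi_gt_three
    nlinarith
  set f : ℤ → ℝ := fun k => exp (-c * (k - 1 / 2) ^ 2) * cos (2 * π * t * (k - 1 / 2)) with hf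
  by_cases hs : Summable f
  swap
  · exfalso
    apply hs
    refine Summable.of_norm_bounded
      (summable_exp_neg_abs.mul_left (exp 1)) (fun k => ?_)
    simp only [hf]
    rw [norm_mul, Real.norm_eq_abs, Real.norm_eq_abs, abs_of_pos (exp_pos _), ← exp_add]
    have h1 : |(k : ℝ)| ≤ |(k : ℝ) - 1 / 2| + 1 / 2 := by
      have := abs_add_le ((k : ℝ) - 1 / 2) (1 / 2)
      rw [abs_of_pos (show (0:ℝ) < 1 / 2 by norm_num)] at this
      simpa using this
    calc _ ≤ exp (-c * (k - 1 / 2) ^ 2) * 1 := by gcongr; exact abs_cos_le_one _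
      _ ≤ _ := by
        rw [mul_one, ← sq_abs ((k : ℝ) - 1 / 2)]
        gcongr
        nlinarith [sq_nonneg (|(k : ℝ) - 1 / 2| - 1 / 2), sq_nonneg |(k : ℝ) - 1 / 2|]
  have h1 : HasSum (fun k : ℤ => f (k + 1)) (∑' k, f k) :=
    ((Equiv.addRight (1:ℤ)).hasSum_iff (f := f)).2 hs.hasSum
  have h2 := h1.nat_add_neg_add_one
  set r : ℝ := exp (-c / 4) with hr
  have hr0 : 0 < r := exp_pos _
  have h3 : HasSum (fun n : ℕ => (if n = 0 then 3 * r / 2 else 0) - r / 2 * (1 / 2) ^ n)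
      (3 * r / 2 - r / 2 * 2) :=
    (hasSum_ite_eq 0 (3 * r / 2)).sub (hasSum_geometric_two.mul_left (r / 2))
  have h4 := hasSum_le (fun n => ?_) h3 h2
  · linarith
  · simp only [hf]
    push_cast
    have e1 : ((n : ℝ) + 1 - 1 / 2) = n + 1 / 2 := by ring
    have e2 : (-((n : ℝ) + 1) + 1 - 1 / 2) = -(n + 1 / 2) := by ring
    rw [e1, e2, neg_sq, mul_neg, cos_neg]
    rcases Nat.eq_zero_or_pos n with rfl | hn
    · have hcos : 1 / 2 ≤ cos (π * t) := by
        rw [← cos_pi_div_three, ← cos_abs (π * t)]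
        apply cos_le_cos_of_nonneg_of_le_pi (abs_nonneg _)
        · linarith [pi_pos]
        · rw [abs_mul, abs_of_pos pi_pos]
          nlinarith [pi_pos]
      simp only [if_true, Nat.cast_zero, zero_add, pow_zero]
      rw [show 2 * π * t * (1 / 2) = π * t by ring, show -c * (1 / 2) ^ 2 = -c / 4 by ring]
      nlinarith
    · rw [if_neg hn.ne']
      have hn1 : (1:ℝ) ≤ n := by exact_mod_cast hn
      have h5 : exp (-c * ((n : ℝ) + 1 / 2) ^ 2) ≤ r / 4 * (1 / 2) ^ n := by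
        have h6 : exp (-c * ((n : ℝ) + 1 / 2) ^ 2) ≤ r * exp (-1) ^ (n + 2) := by
          rw [← exp_nat_mul, hr, ← exp_add]
          gcongr
          push_cast
          nlinarith [mul_le_mul hc2 (show (n : ℝ) + 1 ≤ n ^ 2 + n by nlinarith) (by positivity)
            (by linarith)]
        have h7 : exp (-1) ≤ 1 / 2 := by
          have := exp_neg_one_lt_d9
          linarith
        calc _ ≤ r * exp (-1) ^ (n + 2) := h6
          _ ≤ r * (1 / 2) ^ (n + 2) := by gcongr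
          _ = _ := by ring
      have h8 := neg_one_le_cos (2 * π * t * ((n : ℝ) + 1 / 2))
      have h9 := exp_pos (-c * ((n : ℝ) + 1 / 2) ^ 2)
      nlinarith

lemma hs_third_pos (v : ℝ≥0) (hv : 1 ≤ v) : 0 < hs v (1 / 3) := by
  have hv0 : v ≠ 0 := by positivity
  have h : StrictMonoOn (hs v) (Icc 0 (1 / 3)) := by
    refine strictMonoOn_of_deriv_pos (convex_Icc _ _) (continuous_hs v hv0).continuousOn ?_
    intro x hx
    rw [interior_Icc] at hx
    rw [(hasDerivAt_hs v hv0 x).deriv]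
    have := alt_sum_pos v hv x (by rw [abs_of_pos hx.1]; exact hx.2.le)
    linarith
  have := h (a := 0) (b := 1 / 3) (by norm_num) (by norm_num) (by norm_num)
  rwa [hs_zero v hv0] at this

/-- at thirds of integers two smoothed square waves have the same sign -/
lemma hs_mul_hs_nonneg (v w : ℝ≥0) (hv : 1 ≤ v) (hw : 1 ≤ w) (m : ℤ) :
    0 ≤ hs v (m / 3) * hs w (m / 3) := by
  have hv0 : v ≠ 0 := by positivity
  have hw0 : w ≠ 0 := by positivity
  have h1 := hs_third_pos v hv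
  have h2 := hs_third_pos w hw
  have hsq : ∀ k : ℤ, (-1 : ℝ) ^ k * (-1 : ℝ) ^ k = 1 := fun k => by
    rw [← mul_zpow]; simp
  obtain ⟨k, hk | hk | hk⟩ : ∃ k : ℤ, m = 3 * k ∨ m = 3 * k + 1 ∨ m = 3 * k - 1 := by
    refine ⟨(m + 1) / 3, ?_⟩
    omega
  · have : (m : ℝ) / 3 = 0 + k := by rw [hk]; push_cast; ring
    rw [this, hs_add_int, hs_zero v hv0]; simp
  · have : (m : ℝ) / 3 = 1 / 3 + k := by rw [hk]; push_cast; ring
    rw [this, hs_add_int, hs_add_int]
    have := hsq k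
    have h3 := mul_pos h1 h2
    nlinarith
  · have : (m : ℝ) / 3 = -(1 / 3) + k := by rw [hk]; push_cast; ring
    rw [this, hs_add_int, hs_add_int, hs_neg v hv0, hs_neg w hw0]
    have := hsq k
    have h3 := mul_pos h1 h2
    nlinarith

end Pool.Agent.H122Z
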